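import Mathlib

/-!
# Finite Dynkin diagrams of types A, D, E and their strictly subadditive functions
-/

namespace Pool.Agent.H15.TSys

open Finset

/-- The graph on `{0, 1, ..., n-1}` formed by the path `0 - 1 - ... - (n-2)` and the vertex
`n-1`, which is joined to `k`. -/
def dynkin (n k : ℕ) : SimpleGraph (Fin n) :=
  SimpleGraph.fromRel fun i j : Fin n =>
    (i.val + 1 = j.val ∧ j.val + 1 < n) ∨ (i.val = k ∧ j.val + 1 = n)

/-- `H` is a Dynkin diagram of type `A_n` (`n ≥ 1`), `D_n` (`n ≥ 4`), `E_6`, `E_7` or `E_8`. -/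
def IsFiniteDynkin {W : Type} (H : SimpleGraph W) : Prop :=
  (∃ n ≥ 1, Nonempty (H ≃g dynkin n 0)) ∨ (∃ n ≥ 4, Nonempty (H ≃g dynkin n 1)) ∨
    (∃ n, 6 ≤ n ∧ n ≤ 8 ∧ Nonempty (H ≃g dynkin n 2))

open Classical in
/-- `f` is strictly subadditive on the graph `H`. -/
def SubAdd {W : Type} [Fintype W] (H : SimpleGraph W) (f : W → ℕ) : Prop :=
  ∀ a, ∑ b ∈ H.neighborFinset a, f b < 2 * f a

open Classical in
theorem dynkin_sum_le {n k : ℕ} (F : ℕ → ℕ) (i : Fin n) (S : Finset ℕ)
    (hS : ∀ j : Fin n, (dynkin n k).Adj i j → j.val ∈ S) :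
    ∑ b ∈ (dynkin n k).neighborFinset i, F b.val ≤ ∑ m ∈ S, F m := by
  rw [← Finset.sum_image (g := fun b : Fin n => b.val) (f := F)
    (fun x _ y _ h => Fin.val_injective h)]
  apply Finset.sum_le_sum_of_subset
  intro m hm
  rw [Finset.mem_image] at hm
  obtain ⟨j, hj, rfl⟩ := hm
  rw [SimpleGraph.mem_neighborFinset] at hj
  exact hS j hj

theorem dynkin_adj {n k : ℕ} {i j : Fin n} : (dynkin n k).Adj i j ↔ i ≠ j ∧
    (((i.val + 1 = j.val ∧ j.val + 1 < n) ∨ (i.val = k ∧ j.val + 1 = n)) ∨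
      ((j.val + 1 = i.val ∧ i.val + 1 < n) ∨ (j.val = k ∧ i.val + 1 = n))) := by
  unfold dynkin
  rw [SimpleGraph.fromRel_adj]

theorem ind_sum {n : ℕ} (F : ℕ → ℕ) (m : ℕ) (c : Prop) [Decidable c] :
    ∑ b : Fin n, (if b.val = m ∧ c then F b.val else 0) ≤ if c then F m else 0 := by
  by_cases hc : c
  · simp only [hc, and_true, if_true]
    by_cases hm : m < n
    · rw [Finset.sum_eq_single ⟨m, hm⟩]
      · simp
      · intro b _ hb
        rw [if_neg]
        intro h
        exact hb (Fin.ext h)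
      · intro h; exact absurd (Finset.mem_univ _) h
    · rw [Finset.sum_eq_zero]
      · exact Nat.zero_le _
      · intro b _
        rw [if_neg]
        have := b.2
        omega
  · simp [hc]

open Classical in
theorem dynkin_sum {n k : ℕ} (F : ℕ → ℕ) (i : Fin n) (hi : i.val + 1 ≠ n) :
    ∑ b ∈ (dynkin n k).neighborFinset i, F b.val ≤
      (if 1 ≤ i.val then F (i.val - 1) else 0) + (if i.val + 2 < n then F (i.val + 1) else 0) +
        (if i.val = k then F (n - 1) else 0) := by
  have h1 : ∑ b ∈ (dynkin n k).neighborFinset i, F b.val =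
      ∑ b : Fin n, if (dynkin n k).Adj i b then F b.val else 0 := by
    rw [← Finset.sum_filter]
    refine Finset.sum_congr ?_ fun _ _ => rfl
    ext b
    simp
  rw [h1]
  refine le_trans ?_ (Nat.add_le_add (Nat.add_le_add
    (ind_sum (n := n) F (i.val - 1) (1 ≤ i.val)) (ind_sum (n := n) F (i.val + 1) (i.val + 2 < n)))
    (ind_sum (n := n) F (n - 1) (i.val = k)))
  rw [← Finset.sum_add_distrib, ← Finset.sum_add_distrib]
  refine Finset.sum_le_sum fun b _ => ?_
  by_cases h : (dynkin n k).Adj i b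
  · rw [if_pos h]
    rw [dynkin_adj] at h
    have hne : i.val ≠ b.val := fun h' => h.1 (Fin.ext h')
    have hb := b.2
    have hcase : (b.val = i.val - 1 ∧ 1 ≤ i.val) ∨ (b.val = i.val + 1 ∧ i.val + 2 < n) ∨
        (b.val = n - 1 ∧ i.val = k) := by omega
    rcases hcase with h2 | h2 | h2
    · rw [if_pos h2]; omega
    · rw [if_pos h2]; omega
    · rw [if_pos h2]; omega
  · rw [if_neg h]; exact Nat.zero_le _

theorem dynkin_sum_last {n k : ℕ} (F : ℕ → ℕ) (i : Fin n) (hi : i.val + 1 = n) [Fintype ((dynkin n k).neighborSet i)] :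
    ∑ b ∈ (dynkin n k).neighborFinset i, F b.val ≤ if 1 < n then F k else 0 := by
  classical
  have h1 : ∑ b ∈ (dynkin n k).neighborFinset i, F b.val =
      ∑ b : Fin n, if (dynkin n k).Adj i b then F b.val else 0 := by
    rw [← Finset.sum_filter]
    refine Finset.sum_congr ?_ fun _ _ => rfl
    ext b
    simp
  rw [h1]
  refine le_trans ?_ (ind_sum (n := n) F k (1 < n))
  refine Finset.sum_le_sum fun b _ => ?_
  by_cases h : (dynkin n k).Adj i b
  · rw [if_pos h]
    rw [dynkin_adj] at h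
    have hne : i.val ≠ b.val := fun h' => h.1 (Fin.ext h')
    have hb := b.2
    rw [if_pos (by omega)]
  · rw [if_neg h]; exact Nat.zero_le _

/-- type `A` -/
theorem subAdd_A (n : ℕ) (hn : 1 ≤ n) : ∃ f, SubAdd (dynkin n 0) f := by
  classical
  set F : ℕ → ℕ := fun i => if i + 1 = n then n else (i + 2) * (n - 1 - i) with hF
  have hF1 : ∀ i, i + 1 = n → F i = n := fun i h => by simp only [hF]; rw [if_pos h]
  have hF2 : ∀ i r, n = i + 2 + r → F i = (i + 2) * (r + 1) := fun i r h => by
    simp only [hF]; rw [if_neg (by omega), show n - 1 - i = r + 1 by omega]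
  refine ⟨fun i => F i.val, fun i => ?_⟩
  change ∑ b ∈ (dynkin n 0).neighborFinset i, F b.val < 2 * F i.val
  have hi := i.2
  by_cases h1 : i.val + 1 = n
  · refine (dynkin_sum_last F i h1).trans_lt ?_
    rw [hF1 _ h1]
    split_ifs with h2
    · rw [hF2 0 (n - 2) (by omega)]; omega
    · omega
  · obtain ⟨r, hr⟩ : ∃ r, n = i.val + 2 + r := ⟨n - (i.val + 2), by omega⟩
    refine (dynkin_sum F i h1).trans_lt ?_
    rw [hF2 i.val r hr, hF1 (n - 1) (by omega)]
    rcases Nat.eq_zero_or_pos i.val with h0 | h0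
    · rw [if_neg (by omega), if_pos h0]
      rcases Nat.eq_zero_or_pos r with hr0 | hr0
      · rw [if_neg (by omega)]; subst hr0; rw [h0]; omega
      · rw [if_pos (by omega), hF2 (i.val + 1) (r - 1) (by omega), h0]
        obtain ⟨r', rfl⟩ : ∃ r', r = r' + 1 := ⟨r - 1, by omega⟩
        simp only [Nat.add_sub_cancel]
        omega
    · obtain ⟨m, hm⟩ : ∃ m, i.val = m + 1 := ⟨i.val - 1, by omega⟩
      rw [if_pos (show 1 ≤ i.val by omega), if_neg (show ¬ i.val = 0 by omega),
        hF2 (i.val - 1) (r + 1) (by omega)]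
      rcases Nat.eq_zero_or_pos r with hr0 | hr0
      · rw [if_neg (by omega)]; subst hr0; rw [hm]; simp only [Nat.add_sub_cancel]; omega
      · rw [if_pos (by omega), hF2 (i.val + 1) (r - 1) (by omega), hm]
        obtain ⟨r', rfl⟩ : ∃ r', r = r' + 1 := ⟨r - 1, by omega⟩
        simp only [Nat.add_sub_cancel]
        nlinarith

/-- type `D` -/
theorem subAdd_D (n : ℕ) (hn : 4 ≤ n) : ∃ f, SubAdd (dynkin n 1) f := by
  classical
  set F : ℕ → ℕ := fun i => if i = 0 ∨ i + 1 = n then n * (n - 1) else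
    2 * ((n - 1 - i) * (n + i)) with hF
  have hF1 : ∀ i, (i = 0 ∨ i + 1 = n) → F i = n * (n - 1) := fun i h => by
    simp only [hF]; rw [if_pos h]
  have hF2 : ∀ i r, i ≠ 0 → n = i + 2 + r → F i = 2 * ((r + 1) * (2 * i + 2 + r)) := fun i r h0 h => by
    simp only [hF]; rw [if_neg (by omega), show n - 1 - i = r + 1 by omega,
      show n + i = 2 * i + 2 + r by omega]
  refine ⟨fun i => F i.val, fun i => ?_⟩
  change ∑ b ∈ (dynkin n 1).neighborFinset i, F b.val < 2 * F i.val
  have hi := i.2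
  obtain ⟨s, rfl⟩ : ∃ s, n = s + 4 := ⟨n - 4, by omega⟩
  by_cases h1 : i.val + 1 = s + 4
  · refine (dynkin_sum_last F i h1).trans_lt ?_
    rw [hF1 _ (Or.inr h1), if_pos (by omega), hF2 1 (s + 1) (by omega) (by omega)]
    simp only [show s + 4 - 1 = s + 3 by omega]
    nlinarith
  · refine (dynkin_sum F i h1).trans_lt ?_
    rw [hF1 (s + 4 - 1) (Or.inr (by omega))]
    rcases Nat.eq_zero_or_pos i.val with h0 | h0
    · rw [if_neg (by omega), if_pos (by omega), if_neg (by omega), h0, hF1 0 (Or.inl rfl),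
        hF2 (0 + 1) (s + 1) (by omega) (by omega)]
      simp only [show s + 4 - 1 = s + 3 by omega]
      nlinarith
    · obtain ⟨r, hr⟩ : ∃ r, s + 4 = i.val + 2 + r := ⟨s + 4 - (i.val + 2), by omega⟩
      rw [hF2 i.val r (by omega) hr, if_pos (show 1 ≤ i.val from h0)]
      by_cases h2 : i.val = 1
      · rw [if_pos h2, if_pos (by omega), h2, hF1 (1 - 1) (Or.inl rfl),
          hF2 (1 + 1) s (by omega) (by omega)]
        have : r = s + 1 := by omega
        subst this
        simp only [show s + 4 - 1 = s + 3 by omega]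
        nlinarith
      · obtain ⟨m, hm⟩ : ∃ m, i.val = m + 2 := ⟨i.val - 2, by omega⟩
        rw [if_neg h2, hF2 (i.val - 1) (r + 1) (by omega) (by omega), hm]
        rcases Nat.eq_zero_or_pos r with hr0 | hr0
        · rw [if_neg (by omega)]; subst hr0; simp only [show m + 2 - 1 = m + 1 by omega]; nlinarith
        · rw [if_pos (by omega), hF2 (m + 2 + 1) (r - 1) (by omega) (by omega)]
          obtain ⟨r', rfl⟩ : ∃ r', r = r' + 1 := ⟨r - 1, by omega⟩
          simp only [show m + 2 - 1 = m + 1 by omega, Nat.add_sub_cancel]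
          nlinarith

/-- types `E_6`, `E_7`, `E_8` -/
theorem subAdd_E (n : ℕ) (hn : 6 ≤ n) (hn' : n ≤ 8) : ∃ f, SubAdd (dynkin n 2) f := by
  classical
  set F : ℕ → ℕ := fun i => if n = 6 then [16, 30, 42, 30, 16, 22].getD i 0 else
    if n = 7 then [34, 66, 96, 75, 52, 27, 49].getD i 0 else
      [92, 182, 270, 220, 168, 114, 58, 136].getD i 0 with hF
  refine ⟨fun i => F i.val, fun i => ?_⟩
  change ∑ b ∈ (dynkin n 2).neighborFinset i, F b.val < 2 * F i.val
  obtain ⟨i, hi⟩ := i
  by_cases h1 : i + 1 = n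
  · refine (dynkin_sum_last F ⟨i, hi⟩ h1).trans_lt ?_
    have hnn : n = 6 ∨ n = 7 ∨ n = 8 := by omega
    rcases hnn with rfl | rfl | rfl
    · obtain rfl : i = 5 := by omega
      simp [hF]
    · obtain rfl : i = 6 := by omega
      simp [hF]
    · obtain rfl : i = 7 := by omega
      simp [hF]
  · refine (dynkin_sum F ⟨i, hi⟩ h1).trans_lt ?_
    have hnn : n = 6 ∨ n = 7 ∨ n = 8 := by omega
    rcases hnn with rfl | rfl | rfl <;> interval_cases i <;> simp [hF] at h1 ⊢

theorem exists_subAdd_dynkin {W : Type} [Fintype W] (H : SimpleGraph W) (h : IsFiniteDynkin H) :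
    ∃ f, SubAdd H f := by
  classical
  have key : ∀ n k, (∃ f, SubAdd (dynkin n k) f) → Nonempty (H ≃g dynkin n k) →
      ∃ f, SubAdd H f := by
    rintro n k ⟨f, hf⟩ ⟨e⟩
    refine ⟨fun w => f (e w), fun a => ?_⟩
    have h1 := hf (e a)
    have h2 : ∑ b ∈ H.neighborFinset a, f (e b) = ∑ b ∈ (dynkin n k).neighborFinset (e a), f b := by
      refine Finset.sum_bij (fun b _ => e b) ?_ ?_ ?_ ?_
      · intro b hb
        rw [SimpleGraph.mem_neighborFinset] at hb ⊢
        exact e.map_adj_iff.mpr hb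
      · intro b _ b' _ h; exact e.injective h
      · intro b hb
        rw [SimpleGraph.mem_neighborFinset] at hb
        refine ⟨e.symm b, ?_, e.apply_symm_apply b⟩
        rw [SimpleGraph.mem_neighborFinset]
        rw [← e.map_adj_iff, e.apply_symm_apply]
        exact hb
      · intro b _; rfl
    rw [h2]; exact h1
  rcases h with ⟨n, hn, e⟩ | ⟨n, hn, e⟩ | ⟨n, hn, hn', e⟩
  · exact key n 0 (subAdd_A n hn) e
  · exact key n 1 (subAdd_D n hn) e
  · exact key n 2 (subAdd_E n hn hn') e

/-- From the components to the whole graph. -/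
theorem exists_subAdd_of_components {V : Type} [Fintype V] (H : SimpleGraph V)
    (h : ∀ C : H.ConnectedComponent, IsFiniteDynkin C.toSimpleGraph) : ∃ f, SubAdd H f := by
  classical
  choose g hg using fun C : H.ConnectedComponent => exists_subAdd_dynkin C.toSimpleGraph (h C)
  have hval : ∀ (C : H.ConnectedComponent) (u : V) (hu : u ∈ C),
      g (H.connectedComponentMk u) ⟨u, rfl⟩ = g C ⟨u, hu⟩ := by
    intro C u hu
    have : H.connectedComponentMk u = C := hu
    subst this
    rfl
  refine ⟨fun v => g (H.connectedComponentMk v) ⟨v, rfl⟩, fun a => ?_⟩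
  set C := H.connectedComponentMk a with hC
  have h1 := hg C ⟨a, rfl⟩
  have h2 : ∑ b ∈ H.neighborFinset a, g (H.connectedComponentMk b) ⟨b, rfl⟩ =
      ∑ b ∈ C.toSimpleGraph.neighborFinset ⟨a, rfl⟩, g C b := by
    have hmem : ∀ b, H.Adj a b → b ∈ C := by
      intro b hb
      change H.connectedComponentMk b = H.connectedComponentMk a
      exact (SimpleGraph.ConnectedComponent.connectedComponentMk_eq_of_adj hb).symm
    refine Finset.sum_bij (fun b hb => ⟨b, hmem b (by simpa using hb)⟩) ?_ ?_ ?_ ?_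
    · intro b hb
      rw [SimpleGraph.mem_neighborFinset] at hb ⊢
      exact hb
    · intro b _ b' _ h
      exact congrArg Subtype.val h
    · intro b hb
      rw [SimpleGraph.mem_neighborFinset] at hb
      exact ⟨b.1, by rw [SimpleGraph.mem_neighborFinset]; exact hb, rfl⟩
    · intro b hb
      exact hval C b _
  rw [h2]; exact h1

end Pool.Agent.H15.TSys
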