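import Pool.Agent.H15.TSys.Field

/-!
# From any linear recurrence to one with conserved coefficients
-/

namespace Pool.Agent.H15.TSys

open Finset

section
variable {K : Type*} [Field K]

/-- A nontrivial relation can be made monic. -/
theorem exists_monic (a : ℤ → K) (M : ℕ) (c : ℕ → K) (hc : ∃ k ≤ M, c k ≠ 0)
    (h : ∀ l : ℕ, ∑ k ∈ range (M + 1), c k * a (l + k) = 0) :
    ∃ (m : ℕ) (d : ℕ → K), m ≤ M ∧ ∀ l : ℕ, ∑ k ∈ range m, d k * a (l + k) + a (l + m) = 0 := by
  induction M with
  | zero =>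
    obtain ⟨k, hk, hk'⟩ := hc
    obtain rfl : k = 0 := by omega
    refine ⟨0, c, le_rfl, fun l => ?_⟩
    have := h l
    simp only [zero_add, sum_range_one] at this
    simpa [hk'] using this
  | succ M ih =>
    by_cases h1 : c (M + 1) = 0
    · obtain ⟨k, hk, hk'⟩ := hc
      have hk1 : k ≤ M := by
        by_contra hlt
        have : k = M + 1 := by omega
        exact hk' (this ▸ h1)
      obtain ⟨m, d, hm, hd⟩ := ih ⟨k, hk1, hk'⟩ fun l => by
        have := h l
        rw [sum_range_succ, h1, zero_mul, add_zero] at this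
        exact this
      exact ⟨m, d, by omega, hd⟩
    · refine ⟨M + 1, fun k => c k / c (M + 1), le_rfl, fun l => ?_⟩
      have := h l
      rw [sum_range_succ] at this
      have h2 : ∑ k ∈ range (M + 1), c k / c (M + 1) * a (l + k) =
          (∑ k ∈ range (M + 1), c k * a (l + k)) / c (M + 1) := by
        rw [sum_div]
        exact sum_congr rfl fun k _ => by ring
      rw [h2]
      field_simp
      linear_combination this

theorem exists_conserved (σ : K ≃+* K) (a : ℤ → K) (ha : ∀ l, σ (a l) = a (l + 1))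
    (h0 : a 0 ≠ 0) (M : ℕ) (c : ℕ → K) (hc : ∃ k ≤ M, c k ≠ 0)
    (h : ∀ l : ℕ, ∑ k ∈ range (M + 1), c k * a (l + k) = 0) :
    ∃ (N : ℕ) (J : ℕ → K), J 0 = 1 ∧ J (N + 1) = 1 ∧ (∀ k, σ (J k) = J k) ∧
      ∀ l : ℤ, ∑ k ∈ range (N + 2), (-1) ^ k * J k * a (l + (N + 1 - k)) = 0 := by
  classical
  have hex : ∃ m : ℕ, ∃ d : ℕ → K, ∀ l : ℕ, ∑ k ∈ range m, d k * a (l + k) + a (l + m) = 0 := by
    obtain ⟨m, d, _, hd⟩ := exists_monic a M c hc h
    exact ⟨m, d, hd⟩
  set m := Nat.find hex with hm
  obtain ⟨d, hd⟩ := Nat.find_spec hex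
  rw [← hm] at hd
  have hmin : ∀ m', (∃ d : ℕ → K, ∀ l : ℕ, ∑ k ∈ range m', d k * a (l + k) + a (l + m') = 0) →
      m ≤ m' := fun m' hm' => Nat.find_min' hex hm'
  -- the inverse of the evolution
  have hai : ∀ l, σ.symm (a l) = a (l - 1) := by
    intro l
    rw [RingEquiv.symm_apply_eq, ha]
    congr 1
    ring
  -- m > 0
  have hmpos : 0 < m := by
    rcases Nat.eq_zero_or_pos m with h1 | h1
    · exfalso
      have := hd 0
      rw [h1] at this
      simp at this
      exact h0 this
    · exact h1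
  -- uniqueness of the coefficients
  have huniq : ∀ d' : ℕ → K, (∀ l : ℕ, ∑ k ∈ range m, d' k * a (l + k) + a (l + m) = 0) →
      ∀ k < m, d' k = d k := by
    intro d' hd' k hk
    by_contra hne
    obtain ⟨m', d'', hm', hd''⟩ := exists_monic a (m - 1) (fun k => d' k - d k)
      ⟨k, by omega, sub_ne_zero.mpr hne⟩ fun l => by
        rw [show m - 1 + 1 = m by omega]
        have e1 := hd' l
        have e2 := hd l
        have : ∑ k ∈ range m, (d' k - d k) * a (l + k) =
            ∑ k ∈ range m, d' k * a (l + k) - ∑ k ∈ range m, d k * a (l + k) := by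
          rw [← sum_sub_distrib]
          exact sum_congr rfl fun k _ => by ring
        rw [this]
        linear_combination e1 - e2
    have := hmin m' ⟨d'', hd''⟩
    omega
  -- the relation after applying the inverse evolution
  have hback : ∀ l : ℤ, (∑ k ∈ range m, d k * a (l + k) + a (l + m) = 0) →
      ∑ k ∈ range m, σ.symm (d k) * a (l - 1 + k) + a (l - 1 + m) = 0 := by
    intro l hl
    have := congrArg σ.symm hl
    rw [map_add, map_sum, map_zero, hai] at this
    have e : ∀ k ∈ range m, σ.symm (d k * a (l + k)) = σ.symm (d k) * a (l - 1 + k) := by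
      intro k _
      rw [map_mul, hai]
      congr 2
      ring
    rw [sum_congr rfl e, show l + m - 1 = l - 1 + m by ring] at this
    exact this
  have hσd : ∀ k < m, σ.symm (d k) = d k := by
    intro k hk
    refine huniq (fun k => σ.symm (d k)) (fun l => ?_) k hk
    have := hback ((l + 1 : ℕ) : ℤ) (hd (l + 1))
    rw [show (((l + 1 : ℕ) : ℤ) - 1) = l by push_cast; ring] at this
    exact this
  have hσd' : ∀ k < m, σ (d k) = d k := by
    intro k hk
    have := hσd k hk
    rw [RingEquiv.symm_apply_eq] at this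
    exact this.symm
  -- the relation holds for all integers
  have hall : ∀ l : ℤ, ∑ k ∈ range m, d k * a (l + k) + a (l + m) = 0 := by
    have hneg : ∀ n : ℕ, ∑ k ∈ range m, d k * a (-(n : ℤ) + k) + a (-(n : ℤ) + m) = 0 := by
      intro n
      induction n with
      | zero => simpa using hd 0
      | succ n ih =>
        have := hback _ ih
        rw [show (-(n : ℤ) - 1) = -((n + 1 : ℕ) : ℤ) by push_cast; ring] at this
        rw [← this]
        congr 1
        exact sum_congr rfl fun k hk => by rw [hσd k (mem_range.mp hk)]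
    intro l
    rcases Int.eq_nat_or_neg l with ⟨n, rfl | rfl⟩
    · exact hd n
    · exact hneg n
  -- the constant coefficient is not zero
  have hd0 : d 0 ≠ 0 := by
    intro hz
    have := hmin (m - 1) ⟨fun k => d (k + 1), fun l => ?_⟩
    · omega
    · have e := hall ((l : ℤ) - 1)
      obtain ⟨m', hm'⟩ : ∃ m', m = m' + 1 := ⟨m - 1, by omega⟩
      rw [hm'] at e ⊢
      rw [sum_range_succ', hz, zero_mul, add_zero] at e
      rw [show m' + 1 - 1 = m' by omega]
      rw [← e]
      congr 1
      · exact sum_congr rfl fun k _ => by congr 2; push_cast; ring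
      · congr 1; push_cast; ring
  -- multiply by `z - e`
  set e : K := (-1) ^ m / d 0 with he
  have hσe : σ e = e := by
    rw [he, map_div₀, map_pow, map_neg, map_one, hσd' 0 hmpos]
  -- full coefficients
  set D : ℕ → K := fun k => if k < m then d k else if k = m then 1 else 0 with hD
  have hDsum : ∀ l : ℤ, ∑ k ∈ range (m + 1), D k * a (l + k) = 0 := by
    intro l
    rw [sum_range_succ, ← hall l]
    congr 1
    · exact sum_congr rfl fun k hk => by simp [hD, mem_range.mp hk]
    · simp [hD]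
  have hσD : ∀ k, σ (D k) = D k := by
    intro k
    simp only [hD]
    split_ifs with h1 h2
    · exact hσd' k h1
    · exact map_one σ
    · exact map_zero σ
  set Q : ℕ → K := fun k => (if k = 0 then 0 else D (k - 1)) - e * D k with hQ
  have hσQ : ∀ k, σ (Q k) = Q k := by
    intro k
    simp only [hQ, map_sub, map_mul, hσe, hσD]
    split_ifs
    · rw [map_zero]
    · rw [hσD]
  have hQsum : ∀ l : ℤ, ∑ k ∈ range (m + 2), Q k * a (l + k) = 0 := by
    intro l
    have e1 := hDsum (l + 1)
    have e2 := hDsum l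
    have e3 : ∑ k ∈ range (m + 2), (if k = 0 then 0 else D (k - 1)) * a (l + k) =
        ∑ k ∈ range (m + 1), D k * a (l + 1 + k) := by
      rw [sum_range_succ']
      simp only [if_true, zero_mul, add_zero]
      refine sum_congr rfl fun k _ => ?_
      rw [if_neg (by omega), show k + 1 - 1 = k by omega]
      congr 2; push_cast; ring
    have e4 : ∑ k ∈ range (m + 2), D k * a (l + k) = ∑ k ∈ range (m + 1), D k * a (l + k) := by
      rw [sum_range_succ]
      have : D (m + 1) = 0 := by simp [hD]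
      rw [this, zero_mul, add_zero]
    have e5 : ∑ k ∈ range (m + 2), Q k * a (l + k) =
        ∑ k ∈ range (m + 2), (if k = 0 then 0 else D (k - 1)) * a (l + k) -
          e * ∑ k ∈ range (m + 2), D k * a (l + k) := by
      rw [mul_sum, ← sum_sub_distrib]
      exact sum_congr rfl fun k _ => by simp only [hQ]; ring
    rw [e5, e3, e4, e1, e2, mul_zero, sub_zero]
  have hQ0 : Q 0 = (-1) ^ (m + 1) := by
    have : D 0 = d 0 := by simp [hD, hmpos]
    simp only [hQ, if_true, this, he]
    field_simp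
    ring
  have hQm : Q (m + 1) = 1 := by
    simp [hQ, hD]
  refine ⟨m, fun k => if k ≤ m + 1 then (-1) ^ k * Q (m + 1 - k) else 1, ?_, ?_, ?_, ?_⟩
  · simp [hQm]
  · simp [hQ0, ← mul_pow]
  · intro k
    by_cases hk : k ≤ m + 1
    · simp only [hk, if_true, map_mul, map_pow, map_neg, map_one, hσQ]
    · simp only [hk, if_false, map_one]
  · intro l
    rw [← hQsum l, ← sum_range_reflect]
    refine sum_congr rfl fun k hk => ?_
    have hk' := mem_range.mp hk
    change (-1) ^ (m + 2 - 1 - k) * (if m + 2 - 1 - k ≤ m + 1 then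
      (-1) ^ (m + 2 - 1 - k) * Q (m + 1 - (m + 2 - 1 - k)) else 1) *
      a (l + (↑m + 1 - ↑(m + 2 - 1 - k))) = Q k * a (l + k)
    rw [if_pos (by omega), show m + 1 - (m + 2 - 1 - k) = k by omega]
    rw [← mul_assoc, ← mul_pow, show (-1 : K) * -1 = 1 by ring, one_pow, one_mul]
    congr 2
    have : ((m + 2 - 1 - k : ℕ) : ℤ) = m + 1 - k := by omega
    rw [this]
    ring

end

namespace Sys
variable {V : Type}

/-- `J` is a conserved quantity: it is fixed by the substitution `x_v ↦ T_v(ε_v + 2)`. -/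
def Conserved (G : Sys V) (T : V → ℤ → KK V) (J : KK V) : Prop :=
  ∃ φ : KK V →+* KK V, (∀ v, φ (xv v) = T v (G.ε v + 2)) ∧ φ J = J

/-- The property asked for in Q1 at the vertex `v`. -/
def HasRec (G : Sys V) (T : V → ℤ → KK V) (v : V) : Prop :=
  ∃ (i N : ℕ) (J : ℕ → KK V), 1 ≤ i ∧ Even i ∧ J 0 = 1 ∧ J (N + 1) = 1 ∧
    (∀ k ≤ N + 1, G.Conserved T (J k)) ∧
    ∀ t : ℤ, Even (t + G.ε v) →
      ∑ k ∈ range (N + 2), (-1) ^ k * J k * T v (t + i * ((N : ℤ) + 1 - k)) = 0

/-- Any nontrivial linear recurrence with constant coefficients in `ℚ(x)` for the values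
`T_v(ε_v), T_v(ε_v + 2), ...` gives the property of Q1. -/
theorem IsT.hasRec [Finite V] {G : Sys V} {T : V → ℤ → KK V} (h : G.IsT T) (v : V)
    (M : ℕ) (c : ℕ → KK V) (hc : ∃ k ≤ M, c k ≠ 0)
    (hrec : ∀ l : ℕ, ∑ k ∈ range (M + 1), c k * T v (G.ε v + 2 * ((l : ℤ) + k)) = 0) :
    G.HasRec T v := by
  obtain ⟨σ, hσx, hσT⟩ := h.exists_sigma
  have hadm : ∀ l : ℤ, Even (G.ε v + 2 * l + G.ε v) := fun l => ⟨G.ε v + l, by ring⟩
  obtain ⟨N, J, J0, J1, hJ, hs⟩ := exists_conserved σ (fun l => T v (G.ε v + 2 * l))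
    (fun l => by
      change σ (T v (G.ε v + 2 * l)) = T v (G.ε v + 2 * (l + 1))
      rw [hσT v _ (hadm l)]
      congr 1
      ring)
    (h.ne (hadm 0)) M c hc hrec
  refine ⟨2, N, J, by norm_num, ⟨1, rfl⟩, J0, J1, fun k _ => ⟨σ.toRingHom, hσx, hJ k⟩, ?_⟩
  intro t ht
  obtain ⟨l, rfl⟩ := G.adm ht
  rw [← hs l]
  refine sum_congr rfl fun k _ => ?_
  change _ = (-1) ^ k * J k * T v (G.ε v + 2 * (l + (N + 1 - k)))
  congr 2
  push_cast
  ring

end Sys

end Pool.Agent.H15.TSys
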