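import Pool.Agent.H15.TSys.Cover
import Pool.Agent.H15.TSys.Rec

/-!
# Bigraphs whose affine components are cycles
-/

namespace Pool.Agent.H15.TSys

open Finset

/-- The hypotheses on a bigraph: the `N`-graph is a union of cycles, the two adjacency matrices
commute, the `M`-graph has a strictly subadditive function. -/
structure CycHyp {V : Type} [DecidableEq V] (N M : V → Finset V) (f : V → ℕ) : Prop where
  Nsymm : ∀ a b, a ∈ N b → b ∈ N a
  Msymm : ∀ a b, a ∈ M b → b ∈ M a
  Mirr : ∀ a, a ∉ M a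
  Ncard : ∀ a, (N a).card = 2
  comm : ∀ a b, ((N a).filter fun x => b ∈ M x).card = ((M a).filter fun x => b ∈ N x).card
  sub : ∀ a, ∑ b ∈ M a, f b < 2 * f a

namespace CycHyp
variable {V : Type} [DecidableEq V] [Fintype V] {N M : V → Finset V} {f : V → ℕ}

omit [DecidableEq V] in
/-- harmonic functions are constant along the cycles -/
theorem harm_const (Nsymm : ∀ a b, a ∈ N b → b ∈ N a) (Ncard : ∀ a, (N a).card = 2)
    (g : V → ℤ) (hg : ∀ z, ∑ y ∈ N z, g y = 2 * g z) (z : V) {z' : V} (h : z' ∈ N z) :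
    g z' = g z := by
  classical
  have h1 : ∑ a, ∑ b ∈ N a, (g a - g b) ^ 2 = 0 := by
    have e1 : ∑ a, ∑ b ∈ N a, (g a - g b) ^ 2 =
        ∑ a, ∑ b ∈ N a, g a ^ 2 + ∑ a, ∑ b ∈ N a, g b ^ 2 - 2 * ∑ a, g a * ∑ b ∈ N a, g b := by
      rw [← Finset.sum_add_distrib, Finset.mul_sum, ← Finset.sum_sub_distrib]
      refine Finset.sum_congr rfl fun a _ => ?_
      rw [← Finset.sum_add_distrib, Finset.mul_sum, Finset.mul_sum, ← Finset.sum_sub_distrib]
      exact Finset.sum_congr rfl fun b _ => by ring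
    have e2 : ∑ a, ∑ b ∈ N a, g b ^ 2 = ∑ a, ∑ b ∈ N a, g a ^ 2 :=
      sum_nb_comm Nsymm (fun _ b => g b ^ 2)
    have e3 : ∑ a, ∑ b ∈ N a, g a ^ 2 = ∑ a, 2 * g a ^ 2 := by
      refine Finset.sum_congr rfl fun a _ => ?_
      rw [Finset.sum_const, Ncard, nsmul_eq_mul]
      norm_num
    have e4 : ∑ a, g a * ∑ b ∈ N a, g b = ∑ a, 2 * g a ^ 2 := by
      refine Finset.sum_congr rfl fun a _ => ?_
      rw [hg]
      ring
    rw [e1, e2, e3, e4]
    ring
  have h2 := (Finset.sum_eq_zero_iff_of_nonneg (fun a _ =>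
    Finset.sum_nonneg fun b _ => sq_nonneg (g a - g b))).mp h1 z (Finset.mem_univ _)
  have h3 := (Finset.sum_eq_zero_iff_of_nonneg (fun b _ => sq_nonneg (g z - g b))).mp h2 z' h
  have h4 : g z - g z' = 0 := by
    exact pow_eq_zero_iff (two_ne_zero) |>.mp h3
  linarith

/-- the component of a vertex -/
def Comp (N : V → Finset V) (v : V) : V → Prop := Relation.ReflTransGen (fun a b => b ∈ N a) v

omit [DecidableEq V] [Fintype V] in
theorem Comp.next {N : V → Finset V} {v a b : V} (h : Comp N v a) (hb : b ∈ N a) : Comp N v b :=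
  h.tail hb

open Classical in
/-- number of `M`-neighbours in the component of `v` -/
noncomputable def cnt (N M : V → Finset V) (v z : V) : ℤ := ∑ y ∈ M z, if Comp N v y then 1 else 0

theorem cnt_harm (H : CycHyp N M f) (v z : V) : ∑ y ∈ N z, cnt N M v y = 2 * cnt N M v z := by
  classical
  set χ : V → ℤ := fun y => if Comp N v y then 1 else 0 with hχ
  have hχN : ∀ z, ∑ y ∈ N z, χ y = 2 * χ z := by
    intro z
    have : ∀ y ∈ N z, χ y = χ z := by
      intro y hy
      simp only [hχ]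
      by_cases h : Comp N v z
      · rw [if_pos h, if_pos (h.next hy)]
      · rw [if_neg h, if_neg fun h' => h (h'.next (H.Nsymm _ _ hy))]
    rw [Finset.sum_congr rfl this, Finset.sum_const, H.Ncard, nsmul_eq_mul]
    norm_num
  have e1 : ∀ (A B : V → Finset V), ∑ y ∈ A z, ∑ x ∈ B y, χ x =
      ∑ x, (((A z).filter fun y => x ∈ B y).card : ℤ) * χ x := by
    intro A B
    have : ∀ y, ∑ x ∈ B y, χ x = ∑ x, if x ∈ B y then χ x else 0 := by
      intro y
      rw [Finset.sum_ite_mem, Finset.univ_inter]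
    simp only [this]
    rw [Finset.sum_comm]
    refine Finset.sum_congr rfl fun x _ => ?_
    rw [← Finset.sum_filter, Finset.sum_const, nsmul_eq_mul]
  change ∑ y ∈ N z, ∑ x ∈ M y, χ x = 2 * ∑ x ∈ M z, χ x
  rw [e1, Finset.mul_sum]
  have e2 : ∑ x, (((N z).filter fun y => x ∈ M y).card : ℤ) * χ x =
      ∑ x, (((M z).filter fun y => x ∈ N y).card : ℤ) * χ x :=
    Finset.sum_congr rfl fun x _ => by rw [H.comm]
  rw [e2, ← e1 M N]
  exact Finset.sum_congr rfl fun y _ => hχN y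

theorem cnt_const (H : CycHyp N M f) (v : V) {u z : V} (h : Comp N u z) :
    cnt N M v z = cnt N M v u := by
  induction h with
  | refl => rfl
  | tail _ h ih => rw [← ih]; exact harm_const H.Nsymm H.Ncard _ (H.cnt_harm v) _ h

omit [Fintype V] in
theorem cnt_ge (v z : V) {a b : V} (ha : a ∈ M z) (hb : b ∈ M z) (hab : a ≠ b)
    (ha' : Comp N v a) (hb' : Comp N v b) : 2 ≤ cnt N M v z := by
  classical
  unfold cnt
  have h1 : ∑ y ∈ ({a, b} : Finset V), (if Comp N v y then (1 : ℤ) else 0) ≤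
      ∑ y ∈ M z, if Comp N v y then (1 : ℤ) else 0 := by
    apply Finset.sum_le_sum_of_subset_of_nonneg
    · intro x hx
      rw [Finset.mem_insert, Finset.mem_singleton] at hx
      rcases hx with rfl | rfl <;> assumption
    · intro x _ _
      split_ifs <;> norm_num
  rw [Finset.sum_pair hab, if_pos ha', if_pos hb'] at h1
  linarith

omit [Fintype V] in
/-- two neighbours of larger value contradict subadditivity -/
theorem no_two (H : CycHyp N M f) (v m : V) (hm : 2 ≤ cnt N M v m)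
    (hmin : ∀ y, Comp N v y → f m ≤ f y) : False := by
  classical
  have h1 := H.sub m
  have h2 : (cnt N M v m) * f m ≤ ∑ y ∈ M m, (f y : ℤ) := by
    unfold cnt
    rw [Finset.sum_mul]
    refine Finset.sum_le_sum fun y _ => ?_
    split_ifs with h
    · rw [one_mul]; exact_mod_cast hmin y h
    · rw [zero_mul]; positivity
  have h3 : (2 : ℤ) * f m ≤ cnt N M v m * f m := mul_le_mul_of_nonneg_right hm (by positivity)
  have h4 : (∑ y ∈ M m, (f y : ℤ)) < 2 * f m := by exact_mod_cast h1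
  linarith

/-- uniqueness in the square property -/
theorem sq_unique (H : CycHyp N M f) {u v' u1 u2 : V} (h1 : u1 ∈ N v')
    (h2 : u2 ∈ N v') (h3 : u1 ∈ M u) (h4 : u2 ∈ M u) : u1 = u2 := by
  classical
  by_contra hne
  have hc := H.comm v' u
  have hge : 2 ≤ ((N v').filter fun x => u ∈ M x).card := by
    have : ({u1, u2} : Finset V) ⊆ (N v').filter fun x => u ∈ M x := by
      intro x hx
      rw [Finset.mem_insert, Finset.mem_singleton] at hx
      rw [Finset.mem_filter]
      rcases hx with rfl | rfl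
      · exact ⟨h1, H.Msymm _ _ h3⟩
      · exact ⟨h2, H.Msymm _ _ h4⟩
    have := Finset.card_le_card this
    rwa [Finset.card_pair hne] at this
  rw [hc] at hge
  obtain ⟨x1, hx1, x2, hx2, hx⟩ := Finset.one_lt_card.mp (by omega : 1 < ((M v').filter fun x => u ∈ N x).card)
  rw [Finset.mem_filter] at hx1 hx2
  have g1 : 2 ≤ cnt N M v' u := cnt_ge v' u h3 h4 hne
    (Relation.ReflTransGen.single h1) (Relation.ReflTransGen.single h2)
  have g2 : 2 ≤ cnt N M u v' := cnt_ge u v' hx1.1 hx2.1 hx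
    (Relation.ReflTransGen.single (H.Nsymm _ _ hx1.2))
    (Relation.ReflTransGen.single (H.Nsymm _ _ hx2.2))
  -- a vertex of minimal value in the two components
  set S : Finset V := Finset.univ.filter fun y => Comp N u y ∨ Comp N v' y with hS
  have hSne : S.Nonempty := ⟨u, by rw [hS, Finset.mem_filter]; exact ⟨Finset.mem_univ _, Or.inl .refl⟩⟩
  obtain ⟨m, hm, hmin⟩ := Finset.exists_min_image S f hSne
  have hmin' : ∀ y, (Comp N u y ∨ Comp N v' y) → f m ≤ f y := by
    intro y hy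
    apply hmin
    rw [hS, Finset.mem_filter]
    exact ⟨Finset.mem_univ _, hy⟩
  rw [hS, Finset.mem_filter] at hm
  rcases hm.2 with h | h
  · refine H.no_two v' m ?_ fun y hy => hmin' y (Or.inr hy)
    rw [H.cnt_const v' h]; exact g1
  · refine H.no_two u m ?_ fun y hy => hmin' y (Or.inl hy)
    rw [H.cnt_const u h]; exact g2

omit [Fintype V] in
/-- existence in the square property -/
theorem sq_exists (H : CycHyp N M f) {u v v' : V} (h1 : u ∈ N v) (h2 : v' ∈ M v) :
    ∃ u', u' ∈ N v' ∧ u' ∈ M u := by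
  have hc := H.comm v' u
  have : 0 < ((M v').filter fun x => u ∈ N x).card :=
    Finset.card_pos.mpr ⟨v, by rw [Finset.mem_filter]; exact ⟨H.Msymm _ _ h2, h1⟩⟩
  rw [← hc] at this
  obtain ⟨u', hu'⟩ := Finset.card_pos.mp this
  rw [Finset.mem_filter] at hu'
  exact ⟨u', hu'.1, H.Msymm _ _ hu'.2⟩

open Classical in
/-- the other neighbour on the cycle -/
noncomputable def oth (N : V → Finset V) (v u : V) : V :=
  if h : ∃ x, x ∈ N v ∧ x ≠ u then h.choose else v

omit [Fintype V] in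
theorem oth_spec (H : CycHyp N M f) {v u : V} (h : u ∈ N v) :
    oth N v u ∈ N v ∧ oth N v u ≠ u ∧ N v = {u, oth N v u} := by
  obtain ⟨a, b, hab, hN⟩ := Finset.card_eq_two.mp (H.Ncard v)
  have hex : ∃ x, x ∈ N v ∧ x ≠ u := by
    rw [hN] at h ⊢
    rw [Finset.mem_insert, Finset.mem_singleton] at h
    rcases h with rfl | rfl
    · exact ⟨b, by simp, Ne.symm hab⟩
    · exact ⟨a, by simp, hab⟩
  have h1 : oth N v u = hex.choose := by unfold oth; rw [dif_pos hex]
  have h2 := hex.choose_spec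
  rw [← h1] at h2
  refine ⟨h2.1, h2.2, ?_⟩
  symm
  apply Finset.eq_of_subset_of_card_le
  · intro x hx
    rw [Finset.mem_insert, Finset.mem_singleton] at hx
    rcases hx with rfl | rfl
    · exact h
    · exact h2.1
  · rw [H.Ncard, Finset.card_pair (Ne.symm h2.2)]

omit [Fintype V] in
theorem eq_or_oth (H : CycHyp N M f) {v u x : V} (h : u ∈ N v) (hx : x ∈ N v) :
    x = u ∨ x = oth N v u := by
  rw [(H.oth_spec h).2.2] at hx
  simpa using hx

omit [Fintype V] in
theorem oth_oth (H : CycHyp N M f) {v u : V} (h : u ∈ N v) : oth N v (oth N v u) = u := by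
  obtain ⟨h1, h2, _⟩ := H.oth_spec h
  obtain ⟨h3, h4, _⟩ := H.oth_spec h1
  rcases H.eq_or_oth h h3 with h5 | h5
  · exact h5
  · exact absurd h5 h4

/-- flags: directed edges of the cycles -/
abbrev Flag (N : V → Finset V) := {p : V × V // p.2 ∈ N p.1}

/-- the shift of the flags -/
noncomputable def shift (H : CycHyp N M f) : Equiv.Perm (Flag N) where
  toFun p := ⟨(p.1.2, oth N p.1.2 p.1.1), (H.oth_spec (H.Nsymm _ _ p.2)).1⟩
  invFun p := ⟨(oth N p.1.1 p.1.2, p.1.1), H.Nsymm _ _ (H.oth_spec p.2).1⟩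
  left_inv p := by
    apply Subtype.ext
    apply Prod.ext
    · exact H.oth_oth (H.Nsymm _ _ p.2)
    · rfl
  right_inv p := by
    apply Subtype.ext
    apply Prod.ext
    · rfl
    · exact H.oth_oth p.2

/-- the graph on the flags -/
def fnb (N M : V → Finset V) (p : Flag N) : Finset (Flag N) :=
  Finset.univ.filter fun q => q.1.1 ∈ M p.1.1 ∧ q.1.2 ∈ M p.1.2

theorem mem_fnb {p q : Flag N} : q ∈ fnb N M p ↔ q.1.1 ∈ M p.1.1 ∧ q.1.2 ∈ M p.1.2 := by
  unfold fnb; rw [Finset.mem_filter]; simp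

/-- the graph is invariant -/
theorem oth_mem (H : CycHyp N M f) {v u v' u' : V} (h1 : u ∈ N v) (h2 : u' ∈ N v')
    (h3 : v' ∈ M v) (h4 : u' ∈ M u) : oth N u' v' ∈ M (oth N u v) := by
  obtain ⟨a1, a2, _⟩ := H.oth_spec (H.Nsymm _ _ h1)
  obtain ⟨x', hx1, hx2⟩ := H.sq_exists a1 h4
  rcases H.eq_or_oth (H.Nsymm _ _ h2) hx1 with h5 | h5
  · exfalso
    subst h5
    exact a2 (H.sq_unique (u := x') (v' := u) a1 (H.Nsymm _ _ h1) (H.Msymm _ _ hx2)
      (H.Msymm _ _ h3))
  · rw [← h5]; exact hx2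

theorem shift_mem (H : CycHyp N M f) {p q : Flag N} (h : q ∈ fnb N M p) :
    H.shift q ∈ fnb N M (H.shift p) := by
  rw [mem_fnb] at h ⊢
  exact ⟨h.2, H.oth_mem p.2 q.2 h.1 h.2⟩

theorem shift_inv_mem (H : CycHyp N M f) {p q : Flag N} (h : q ∈ fnb N M p) :
    H.shift.symm q ∈ fnb N M (H.shift.symm p) := by
  rw [mem_fnb] at h ⊢
  exact ⟨H.oth_mem (H.Nsymm _ _ p.2) (H.Nsymm _ _ q.2) h.2 h.1, h.1⟩

/-- products over the flags next to a flag -/
theorem prod_fnb (H : CycHyp N M f) {R : Type*} [CommMonoid R] (F : V → R) (p : Flag N) :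
    ∏ q ∈ fnb N M p, F q.1.1 = ∏ v ∈ M p.1.1, F v := by
  refine Finset.prod_bij (fun q _ => q.1.1) ?_ ?_ ?_ ?_
  · intro q hq
    exact (mem_fnb.mp hq).1
  · intro q hq q' hq' heq
    rw [mem_fnb] at hq hq'
    apply Subtype.ext
    apply Prod.ext heq
    refine H.sq_unique (u := p.1.2) (v' := q.1.1) q.2 ?_ hq.2 hq'.2
    have := q'.2
    rwa [← heq] at this
  · intro v hv
    obtain ⟨u', h1, h2⟩ := H.sq_exists p.2 hv
    exact ⟨⟨(v, u'), h1⟩, mem_fnb.mpr ⟨hv, h2⟩, rfl⟩
  · intro q _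
    rfl

theorem sum_fnb (H : CycHyp N M f) (F : V → ℕ) (p : Flag N) :
    ∑ q ∈ fnb N M p, F q.1.1 = ∑ v ∈ M p.1.1, F v :=
  H.prod_fnb (R := Multiplicative ℕ) F p

end CycHyp

/-- The system with shift attached to a bigraph with cycles. -/
noncomputable def coverOf {V : Type} [DecidableEq V] [Fintype V] (G : Sys V) {f : V → ℕ}
    (H : CycHyp G.N G.M f) : CoverSys (CycHyp.Flag G.N) where
  s := H.shift
  nb := CycHyp.fnb G.N G.M
  e p := G.ε p.1.1
  he p := G.hε _
  irr p h := H.Mirr _ (CycHyp.mem_fnb.mp h).1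
  symm p q h := by
    rw [CycHyp.mem_fnb] at h ⊢
    exact ⟨H.Msymm _ _ h.1, H.Msymm _ _ h.2⟩
  e_s p := G.εN p.2
  e_nb p q h := G.εM (CycHyp.mem_fnb.mp h).1
  nb_s p := by
    ext q
    rw [Finset.mem_image]
    constructor
    · intro h
      refine ⟨H.shift.symm q, ?_, Equiv.apply_symm_apply _ _⟩
      have := H.shift_inv_mem h
      rwa [Equiv.symm_apply_apply] at this
    · rintro ⟨q', h1, rfl⟩
      exact H.shift_mem h1

/-- **Q1 for bigraphs whose `Γ`-graph is a union of cycles.** -/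
theorem Sys.IsT.hasRec_of_cyc {V : Type} [DecidableEq V] [Fintype V] {G : Sys V} {f : V → ℕ}
    (H : CycHyp G.N G.M f) {T : V → ℤ → KK V} (h : G.IsT T) (v : V) : G.HasRec T v := by
  obtain ⟨u, hu⟩ := Finset.card_pos.mp (by rw [H.Ncard v]; norm_num : 0 < (G.N v).card)
  have hsol : (coverOf G H).IsSol (posCone V) (fun p t => T p.1.1 t) := by
    refine ⟨?_, ?_⟩
    · intro p t ht
      have e1 := h.rel p.1.1 t ht
      obtain ⟨a1, a2, a3⟩ := H.oth_spec p.2
      rw [a3, Finset.prod_pair (Ne.symm a2)] at e1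
      have e2 : ∏ q ∈ (coverOf G H).nb p, T q.1.1 t = ∏ v ∈ G.M p.1.1, T v t :=
        H.prod_fnb (fun v => T v t) p
      rw [e2]
      exact e1
    · intro p t ht
      exact h.pos ht
  obtain ⟨M, c, hc, hrec⟩ := hsol.recurrence (fun p => f p.1.1) (fun p => by
    have : ∑ q ∈ (coverOf G H).nb p, f q.1.1 = ∑ v ∈ G.M p.1.1, f v := H.sum_fnb f p
    rw [this]
    exact H.sub _) ⟨(v, u), hu⟩
  exact h.hasRec v M c hc hrec

end Pool.Agent.H15.TSys
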