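import Mathlib
import Pool.Agent.H15.TSys.Flags
import Pool.Agent.H15.TSys.Dynkin

/-!
# MP_5f688c_co, Q1: all affine-finite ADE bigraphs whose affine components are of type A

For every affine-finite ADE bigraph `G = (Γ, Δ)` such that every component of `Γ` is an affine
diagram of type `A` (a cycle), and every vertex `v`, the T-system satisfies at `v` a linear
recurrence whose coefficients are conserved quantities, with `J_0 = J_(N+1) = 1`.
This contains all tensor products of an affine diagram of type `A_(2n-1)` with a finite Dynkin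
diagram of type `A`, `D` or `E`, and all twisted bigraphs with cycles as affine components.
-/

set_option autoImplicit false

open Finset

namespace Pool.Agent.Results.MP_5f688c_co.AffineTypeA

open Pool.Agent.H15.TSys (IsFiniteDynkin)

/-- A bipartite bigraph: two graphs on the same vertices and a colouring `ε` with values in
`{0, 1}` such that both ends of every edge have different colours. -/
structure Bigraph (V : Type) where
  Γ : SimpleGraph V
  Δ : SimpleGraph V
  ε : V → ℤ
  color : ∀ v, ε v = 0 ∨ ε v = 1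
  colorΓ : ∀ u v, Γ.Adj u v → ε u ≠ ε v
  colorΔ : ∀ u v, Δ.Adj u v → ε u ≠ ε v

/-- The field of rational functions over `ℚ` in the indeterminates `x_v`, `v ∈ V`. -/
abbrev RatFun (V : Type) := FractionRing (MvPolynomial V ℚ)

/-- The indeterminate `x_v`. -/
noncomputable def x {V : Type} (v : V) : RatFun V :=
  algebraMap (MvPolynomial V ℚ) (RatFun V) (MvPolynomial.X v)

variable {V : Type} [Fintype V]

open Classical in
/-- `T` is the T-system of `G`; only the values `T v t` with `t + ε v` even are used. -/
structure Bigraph.IsTSystem (G : Bigraph V) (T : V → ℤ → RatFun V) : Prop where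
  init : ∀ v, T v (G.ε v) = x v
  rel : ∀ v t, Even (t + 1 + G.ε v) →
    T v (t + 1) * T v (t - 1) =
      ∏ u ∈ G.Γ.neighborFinset v, T u t + ∏ w ∈ G.Δ.neighborFinset v, T w t

/-- `J` is a conserved quantity: it is fixed by the substitution `x_v ↦ T_v(ε_v + 2)`. -/
def Bigraph.Conserved (G : Bigraph V) (T : V → ℤ → RatFun V) (J : RatFun V) : Prop :=
  ∃ φ : RatFun V →+* RatFun V, (∀ v, φ (x v) = T v (G.ε v + 2)) ∧ φ J = J

/-- The recurrence asked for in Q1 at the vertex `v`. -/
def Bigraph.HasRecurrence (G : Bigraph V) (T : V → ℤ → RatFun V) (v : V) : Prop :=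
  ∃ (i N : ℕ) (J : ℕ → RatFun V), 1 ≤ i ∧ Even i ∧ J 0 = 1 ∧ J (N + 1) = 1 ∧
    (∀ k ≤ N + 1, G.Conserved T (J k)) ∧
    ∀ t : ℤ, Even (t + G.ε v) →
      ∑ k ∈ range (N + 2), (-1) ^ k * J k * T v (t + i * ((N : ℤ) + 1 - k)) = 0

open Classical in
/-- The adjacency matrices commute, every component of `Γ` is a cycle (affine type `A`) and every
component of `Δ` is a finite Dynkin diagram of type `A`, `D` or `E`. -/
structure Bigraph.IsAffineFiniteTypeA (G : Bigraph V) : Prop where
  comm : G.Γ.adjMatrix ℤ * G.Δ.adjMatrix ℤ = G.Δ.adjMatrix ℤ * G.Γ.adjMatrix ℤ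
  affine : ∀ C : G.Γ.ConnectedComponent, ∃ m ≥ 3,
    Nonempty (C.toSimpleGraph ≃g SimpleGraph.cycleGraph m)
  finite : ∀ C : G.Δ.ConnectedComponent, IsFiniteDynkin C.toSimpleGraph

open Classical in
/-- the internal form of a bigraph -/
noncomputable def toSys (G : Bigraph V) : H15.TSys.Sys V where
  N v := G.Γ.neighborFinset v
  M v := G.Δ.neighborFinset v
  ε := G.ε
  hε := G.color
  hN v u h := G.colorΓ u v (by rw [SimpleGraph.mem_neighborFinset] at h; exact h.symm)
  hM v u h := G.colorΔ u v (by rw [SimpleGraph.mem_neighborFinset] at h; exact h.symm)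

open Classical in
theorem card_nbr (H : SimpleGraph V)
    (h : ∀ C : H.ConnectedComponent, ∃ m ≥ 3,
      Nonempty (C.toSimpleGraph ≃g SimpleGraph.cycleGraph m)) (a : V) :
    (H.neighborFinset a).card = 2 := by
  set C := H.connectedComponentMk a with hC
  obtain ⟨m, hm, ⟨e⟩⟩ := h C
  obtain ⟨n, rfl⟩ : ∃ n, m = n + 3 := ⟨m - 3, by omega⟩
  have hmem : ∀ b, H.Adj a b → b ∈ C := by
    intro b hb
    change H.connectedComponentMk b = H.connectedComponentMk a
    exact (SimpleGraph.ConnectedComponent.connectedComponentMk_eq_of_adj hb).symm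
  have h1 : (H.neighborFinset a).card =
      ((SimpleGraph.cycleGraph (n + 3)).neighborFinset (e ⟨a, rfl⟩)).card := by
    refine Finset.card_bij (fun b hb => e ⟨b, hmem b (by simpa using hb)⟩) ?_ ?_ ?_
    · intro b hb
      rw [SimpleGraph.mem_neighborFinset] at hb ⊢
      rw [e.map_adj_iff]
      exact hb
    · intro b _ b' _ h
      exact congrArg Subtype.val (e.injective h)
    · intro b hb
      rw [SimpleGraph.mem_neighborFinset] at hb
      refine ⟨(e.symm b).1, ?_, ?_⟩
      · rw [SimpleGraph.mem_neighborFinset]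
        have : C.toSimpleGraph.Adj ⟨a, rfl⟩ (e.symm b) := by
          rw [← e.map_adj_iff, e.apply_symm_apply]; exact hb
        exact this
      · exact e.apply_symm_apply b
  rw [h1, SimpleGraph.card_neighborFinset_eq_degree, SimpleGraph.cycleGraph_degree_three_le]

open Classical in
theorem comm_count (G : Bigraph V)
    (hc : G.Γ.adjMatrix ℤ * G.Δ.adjMatrix ℤ = G.Δ.adjMatrix ℤ * G.Γ.adjMatrix ℤ) (a b : V)
    [DecidablePred fun x => b ∈ (toSys G).M x] [DecidablePred fun x => b ∈ (toSys G).N x] :
    (((toSys G).N a).filter fun x => b ∈ (toSys G).M x).card =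
      (((toSys G).M a).filter fun x => b ∈ (toSys G).N x).card := by
  have h := congrFun (congrFun hc a) b
  rw [SimpleGraph.adjMatrix_mul_apply, SimpleGraph.adjMatrix_mul_apply] at h
  have h1 : ((((toSys G).N a).filter fun x => b ∈ (toSys G).M x).card : ℤ) =
      ∑ u ∈ G.Γ.neighborFinset a, G.Δ.adjMatrix ℤ u b := by
    rw [Finset.card_filter]
    push_cast
    refine Finset.sum_congr rfl fun u _ => ?_
    rw [SimpleGraph.adjMatrix_apply]
    by_cases hu : G.Δ.Adj u b
    · rw [if_pos hu, if_pos]
      exact (SimpleGraph.mem_neighborFinset _ _ _).mpr hu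
    · rw [if_neg hu, if_neg]
      intro h'
      exact hu ((SimpleGraph.mem_neighborFinset _ _ _).mp h')
  have h2 : ((((toSys G).M a).filter fun x => b ∈ (toSys G).N x).card : ℤ) =
      ∑ u ∈ G.Δ.neighborFinset a, G.Γ.adjMatrix ℤ u b := by
    rw [Finset.card_filter]
    push_cast
    refine Finset.sum_congr rfl fun u _ => ?_
    rw [SimpleGraph.adjMatrix_apply]
    by_cases hu : G.Γ.Adj u b
    · rw [if_pos hu, if_pos]
      exact (SimpleGraph.mem_neighborFinset _ _ _).mpr hu
    · rw [if_neg hu, if_neg]
      intro h'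
      exact hu ((SimpleGraph.mem_neighborFinset _ _ _).mp h')
  rw [← h1, ← h2] at h
  exact_mod_cast h

/-- **Q1 of MP_5f688c_co for all bigraphs whose affine components are of type `A`.** -/
theorem result (V : Type) [Fintype V] (G : Bigraph V) (hG : G.IsAffineFiniteTypeA) :
    (∃ T, G.IsTSystem T) ∧ ∀ T, G.IsTSystem T → ∀ v, G.HasRecurrence T v := by
  classical
  obtain ⟨f, hf⟩ := H15.TSys.exists_subAdd_of_components G.Δ hG.finite
  have H : H15.TSys.CycHyp (toSys G).N (toSys G).M f := by
    refine ⟨?_, ?_, ?_, ?_, ?_, ?_⟩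
    · intro a b h
      change a ∈ G.Γ.neighborFinset b at h
      change b ∈ G.Γ.neighborFinset a
      rw [SimpleGraph.mem_neighborFinset] at h ⊢
      exact h.symm
    · intro a b h
      change a ∈ G.Δ.neighborFinset b at h
      change b ∈ G.Δ.neighborFinset a
      rw [SimpleGraph.mem_neighborFinset] at h ⊢
      exact h.symm
    · intro a h
      change a ∈ G.Δ.neighborFinset a at h
      rw [SimpleGraph.mem_neighborFinset] at h
      exact h.ne rfl
    · exact fun a => card_nbr G.Γ hG.affine a
    · intro a b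
      exact comm_count G hG.comm a b
    · exact hf
  refine ⟨?_, fun T hT v => ?_⟩
  · obtain ⟨T, hT⟩ := (toSys G).exists_isT
    exact ⟨T, hT.init, hT.rel⟩
  · have hT' : (toSys G).IsT T := ⟨hT.init, hT.rel⟩
    exact hT'.hasRec_of_cyc H v

end Pool.Agent.Results.MP_5f688c_co.AffineTypeA
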