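import Pool.Agent.H15.TSys.Poly

/-!
# The square rule holds for the array of polynomials
-/

namespace Pool.Agent.H15.TSys

open Finset MvPolynomial

section
variable {I : Type} [DecidableEq I] {nb : I → Finset I} {i j : ℕ → I}

variable (nb i j) in
/-- the facts known for the columns up to `p` -/
structure Good (p : ℕ) : Prop where
  dvd : ∀ p' < p, ∀ q w, w = i p' → w = j q → Phi nb i j p' q w ∣ num nb i j p' q w
  cc : ∀ p' ≤ p, ∀ q w, constantCoeff (Phi nb i j p' q w) = 1
  free : ∀ p' ≤ p, ∀ r ≥ p', ∀ q w, ev (Sum.inl r) (Phi nb i j p' q w) = Phi nb i j p' q w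
  cop : ∀ p' ≤ p, ∀ q w w', w ≠ w' → IsRelPrime (Phi nb i j p' q w) (Phi nb i j p' q w')

theorem cc_ne {f : RR} (h : constantCoeff f = 1) : f ≠ 0 := by
  rintro rfl
  rw [map_zero] at h
  exact zero_ne_one h

theorem relPrime_of_dvd {a b e : RR} (h : IsRelPrime a b) (he : e ∣ a) : IsRelPrime e b :=
  fun _ h1 h2 => h (h1.trans he) h2

/-- two consecutive entries of a node in a row -/
theorem cop_row (hirr : ∀ i, i ∉ nb i) {p q : ℕ} {w : I} (hw : w = i p) (hw' : w = j q)
    (hcc : constantCoeff (Phi nb i j p (q + 1) w) = 1)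
    (hcop : ∀ w', w ≠ w' → IsRelPrime (Phi nb i j p (q + 1) w) (Phi nb i j p (q + 1) w'))
    (hsq : Phi nb i j (p + 1) (q + 1) w * Phi nb i j p q w = num nb i j p q w) :
    IsRelPrime (Phi nb i j (p + 1) (q + 1) w) (Phi nb i j p (q + 1) w) := by
  intro e he1 he2
  have h1 : e ∣ cv p * dv q * ∏ u ∈ nb w, Phi nb i j p q u := by
    have : cv p * dv q * ∏ u ∈ nb w, Phi nb i j p q u =
        Phi nb i j (p + 1) (q + 1) w * Phi nb i j p q w -
          Phi nb i j (p + 1) q w * Phi nb i j p (q + 1) w := by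
      rw [hsq]; unfold num; ring
    rw [this]
    exact dvd_sub (he1.mul_right _) (he2.mul_left _)
  have h2 : IsRelPrime e (cv p * dv q * ∏ u ∈ nb w, Phi nb i j p q u) := by
    refine IsRelPrime.mul_right (IsRelPrime.mul_right ?_ ?_) (IsRelPrime.prod_right fun z hz => ?_)
    · exact relPrime_of_dvd (isRelPrime_X hcc _) he2
    · exact relPrime_of_dvd (isRelPrime_X hcc _) he2
    · have hne : w ≠ z := by rintro rfl; exact hirr _ hz
      rw [← Phi_right (q := q) (w := z) (by rw [← hw']; exact Ne.symm hne)]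
      exact relPrime_of_dvd (hcop z hne) he2
  exact h2 dvd_rfl h1

/-- two consecutive entries of a node in a column -/
theorem cop_col (hirr : ∀ i, i ∉ nb i) {p q : ℕ} {w : I} (hw : w = i p) (hw' : w = j q)
    (hcc : constantCoeff (Phi nb i j (p + 1) q w) = 1)
    (hcop : ∀ w', w ≠ w' → IsRelPrime (Phi nb i j (p + 1) q w) (Phi nb i j (p + 1) q w'))
    (hsq : Phi nb i j (p + 1) (q + 1) w * Phi nb i j p q w = num nb i j p q w) :
    IsRelPrime (Phi nb i j (p + 1) (q + 1) w) (Phi nb i j (p + 1) q w) := by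
  intro e he1 he2
  have h1 : e ∣ cv p * dv q * ∏ u ∈ nb w, Phi nb i j p q u := by
    have : cv p * dv q * ∏ u ∈ nb w, Phi nb i j p q u =
        Phi nb i j (p + 1) (q + 1) w * Phi nb i j p q w -
          Phi nb i j (p + 1) q w * Phi nb i j p (q + 1) w := by
      rw [hsq]; unfold num; ring
    rw [this]
    exact dvd_sub (he1.mul_right _) (he2.mul_right _)
  have h2 : IsRelPrime e (cv p * dv q * ∏ u ∈ nb w, Phi nb i j p q u) := by
    refine IsRelPrime.mul_right (IsRelPrime.mul_right ?_ ?_) (IsRelPrime.prod_right fun z hz => ?_)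
    · exact relPrime_of_dvd (isRelPrime_X hcc _) he2
    · exact relPrime_of_dvd (isRelPrime_X hcc _) he2
    · have hne : w ≠ z := by rintro rfl; exact hirr _ hz
      rw [← Phi_left (p := p) (w := z) (by rw [← hw]; exact Ne.symm hne)]
      exact relPrime_of_dvd (hcop z hne) he2
  exact h2 dvd_rfl h1

theorem dvd_step (hirr : ∀ i, i ∉ nb i) (hsymm : ∀ i j, i ∈ nb j → j ∈ nb i) {p q : ℕ}
    (G : Good nb i j p)
    (hq : ∀ q' < q, ∀ w, w = i p → w = j q' → Phi nb i j p q' w ∣ num nb i j p q' w)
    {w : I} (hw : w = i p) (hw' : w = j q) : Phi nb i j p q w ∣ num nb i j p q w := by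
  rcases last_occ i w p with h | ⟨p0, hp0, hwp0, hp0'⟩
  · have : Phi nb i j p q w = 1 :=
      (Phi_const_left (Nat.zero_le p) (fun p' _ h' => h p' h')).trans (Phi_zero_left _ _)
    rw [this]; exact one_dvd _
  rcases last_occ j w q with h | ⟨q0, hq0, hwq0, hq0'⟩
  · have : Phi nb i j p q w = 1 :=
      (Phi_const_right (Nat.zero_le q) (fun p' _ h' => h p' h')).trans (Phi_zero_right _ _)
    rw [this]; exact one_dvd _
  set u := Phi nb i j p q w with hu
  -- the value is constant on the block
  have hblock : ∀ a b, p0 + 1 ≤ a → a ≤ p → q0 + 1 ≤ b → b ≤ q → Phi nb i j a b w = u := by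
    intro a b ha ha' hb hb'
    have e1 : Phi nb i j p b w = Phi nb i j a b w :=
      Phi_const_left ha' fun p' h1 h2 => hp0' p' (by omega) h2
    have e2 : Phi nb i j p q w = Phi nb i j p b w :=
      Phi_const_right hb' fun p' h1 h2 => hq0' p' (by omega) h2
    rw [hu, e2, e1]
  have hα : Phi nb i j p0 q w = Phi nb i j p0 (q0 + 1) w :=
    Phi_const_right (by omega) fun p' h1 h2 => hq0' p' (by omega) h2
  have hβ : Phi nb i j p q0 w = Phi nb i j (p0 + 1) q0 w :=
    Phi_const_left (by omega) fun p' h1 h2 => hp0' p' (by omega) h2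
  have hX : Phi nb i j p (q + 1) w = Phi nb i j (p0 + 1) (q + 1) w :=
    Phi_const_left (by omega) fun p' h1 h2 => hp0' p' (by omega) h2
  have hY : Phi nb i j (p + 1) q w = Phi nb i j (p + 1) (q0 + 1) w :=
    Phi_const_right (by omega) fun p' h1 h2 => hq0' p' (by omega) h2
  have sq1 := Phi_square hwp0 hw' (G.dvd p0 hp0 q w hwp0 hw')
  have sq2 := Phi_square hw hwq0 (hq q0 hq0 w hw hwq0)
  have sq3 := Phi_square hwp0 hwq0 (G.dvd p0 hp0 q0 w hwp0 hwq0)
  have hznb : ∀ z ∈ nb w, z ≠ w := by rintro z hz rfl; exact hirr _ hz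
  -- neighbours products
  have n1 : ∏ z ∈ nb w, Phi nb i j p0 q z = ∏ z ∈ nb w, Phi nb i j (p0 + 1) q z :=
    Finset.prod_congr rfl fun z hz => (Phi_left (by rw [← hwp0]; exact hznb z hz)).symm
  have n2 : ∏ z ∈ nb w, Phi nb i j p q0 z = ∏ z ∈ nb w, Phi nb i j p (q0 + 1) z :=
    Finset.prod_congr rfl fun z hz => (Phi_right (by rw [← hwq0]; exact hznb z hz)).symm
  have n3 : ∏ z ∈ nb w, Phi nb i j p0 q0 z = ∏ z ∈ nb w, Phi nb i j (p0 + 1) (q0 + 1) z :=
    Finset.prod_congr rfl fun z hz => by
      rw [Phi_left (by rw [← hwp0]; exact hznb z hz), Phi_right (by rw [← hwq0]; exact hznb z hz)]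
  -- coprimality
  have copα : IsRelPrime u (Phi nb i j p0 q w) := by
    have := cop_row hirr hwp0 hwq0 (G.cc p0 hp0.le _ _) (fun w' h => G.cop p0 hp0.le _ _ _ h) sq3
    rwa [hblock (p0 + 1) (q0 + 1) le_rfl (by omega) le_rfl (by omega), ← hα] at this
  have copβ : IsRelPrime u (Phi nb i j p q0 w) := by
    have := cop_col hirr hwp0 hwq0 (G.cc (p0 + 1) (by omega) _ _)
      (fun w' h => G.cop (p0 + 1) (by omega) _ _ _ h) sq3
    rwa [hblock (p0 + 1) (q0 + 1) le_rfl (by omega) le_rfl (by omega), ← hβ] at this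
  -- congruences
  set mk := Ideal.Quotient.mk (Ideal.span {u}) with hmk
  have mu : mk u = 0 := by
    rw [hmk, Ideal.Quotient.eq_zero_iff_mem, Ideal.mem_span_singleton]
  -- rank one property of the neighbours
  have hrank : ∀ z ∈ nb w, mk (Phi nb i j p q z) * mk (Phi nb i j (p0 + 1) (q0 + 1) z) =
      mk (Phi nb i j p (q0 + 1) z) * mk (Phi nb i j (p0 + 1) q z) := by
    intro z hz
    have := rank_one (fun a b => mk (Phi nb i j (p0 + 1 + a) (q0 + 1 + b) z))
      (p - (p0 + 1)) (q - (q0 + 1)) (by
        intro a ha b hb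
        rw [show p0 + 1 + (a + 1) = (p0 + 1 + a) + 1 by omega,
          show q0 + 1 + (b + 1) = (q0 + 1 + b) + 1 by omega]
        set a' := p0 + 1 + a
        set b' := q0 + 1 + b
        by_cases h1 : z = i a'
        · by_cases h2 : z = j b'
          · have sq := Phi_square h1 h2 (G.dvd a' (by omega) b' z h1 h2)
            rw [← map_mul, sq, num, map_add, map_mul, map_mul, map_prod]
            have : ∏ y ∈ nb z, mk (Phi nb i j a' b' y) = 0 := by
              apply Finset.prod_eq_zero (hsymm _ _ hz)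
              rw [hblock a' b' (by omega) (by omega) (by omega) (by omega), mu]
            rw [this, mul_zero, add_zero]
          · rw [Phi_right h2, Phi_right h2, mul_comm]
        · rw [Phi_left h1, Phi_left h1]
          ring)
      (by
        intro a ha b hb y y' h
        obtain ⟨y, rfl⟩ := Ideal.Quotient.mk_surjective y
        obtain ⟨y', rfl⟩ := Ideal.Quotient.mk_surjective y'
        rw [← map_mul, ← map_mul] at h
        refine cancel_mod ?_ h
        rw [← hblock (p0 + 1 + a) (q0 + 1 + b) (by omega) (by omega) (by omega) (by omega)]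
        exact G.cop _ (by omega) _ _ _ (Ne.symm (hznb z hz)))
    simp only [add_zero] at this
    rw [show p0 + 1 + (p - (p0 + 1)) = p by omega, show q0 + 1 + (q - (q0 + 1)) = q by omega] at this
    exact this
  have e4 : (∏ z ∈ nb w, mk (Phi nb i j p q z)) *
      (∏ z ∈ nb w, mk (Phi nb i j (p0 + 1) (q0 + 1) z)) =
      (∏ z ∈ nb w, mk (Phi nb i j p (q0 + 1) z)) *
        (∏ z ∈ nb w, mk (Phi nb i j (p0 + 1) q z)) := by
    rw [← Finset.prod_mul_distrib, ← Finset.prod_mul_distrib]
    exact Finset.prod_congr rfl hrank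
  have e1 : mk (Phi nb i j p (q + 1) w) * mk (Phi nb i j p0 q w) =
      mk (cv p0) * mk (dv q) * ∏ z ∈ nb w, mk (Phi nb i j (p0 + 1) q z) := by
    rw [hX, ← map_mul, sq1, num, n1, hblock (p0 + 1) q le_rfl (by omega) (by omega) le_rfl]
    rw [map_add, map_mul, mu, map_mul, map_mul, map_prod]
    ring
  have e2 : mk (Phi nb i j (p + 1) q w) * mk (Phi nb i j p q0 w) =
      mk (cv p) * mk (dv q0) * ∏ z ∈ nb w, mk (Phi nb i j p (q0 + 1) z) := by
    rw [hY, ← map_mul, sq2, num, n2, hblock p (q0 + 1) (by omega) le_rfl le_rfl (by omega)]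
    rw [map_add, map_mul, mu, map_mul, map_mul, map_prod]
    ring
  have e3 : mk (Phi nb i j p q0 w) * mk (Phi nb i j p0 q w) +
      mk (cv p0) * mk (dv q0) * ∏ z ∈ nb w, mk (Phi nb i j (p0 + 1) (q0 + 1) z) = 0 := by
    have := congrArg mk sq3
    rw [hblock (p0 + 1) (q0 + 1) le_rfl (by omega) le_rfl (by omega), map_mul, mu, zero_mul,
      num, n3, map_add, map_mul, map_mul, map_mul, map_prod] at this
    rw [hβ, hα]
    exact this.symm
  have key : u ∣ Phi nb i j p0 q w * (Phi nb i j p q0 w * num nb i j p q w) := by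
    rw [← Ideal.mem_span_singleton, ← Ideal.Quotient.eq_zero_iff_mem]
    change mk _ = 0
    rw [num]
    simp only [map_mul, map_add, map_prod]
    set A := mk (Phi nb i j p0 q w)
    set Bt := mk (Phi nb i j p q0 w)
    set Xx := mk (Phi nb i j p (q + 1) w)
    set Yy := mk (Phi nb i j (p + 1) q w)
    set c0 := mk (cv p0)
    set c1 := mk (cv p)
    set d0 := mk (dv q0)
    set d1 := mk (dv q)
    set N00 := ∏ z ∈ nb w, mk (Phi nb i j (p0 + 1) (q0 + 1) z)
    set N11 := ∏ z ∈ nb w, mk (Phi nb i j p q z)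
    set N10 := ∏ z ∈ nb w, mk (Phi nb i j p (q0 + 1) z)
    set N01 := ∏ z ∈ nb w, mk (Phi nb i j (p0 + 1) q z)
    linear_combination (Yy * Bt) * e1 + (c0 * d1 * N01) * e2 + (c1 * d1 * N11) * e3 -
      (c0 * c1 * d0 * d1) * e4
  exact copβ.dvd_of_dvd_mul_left (copα.dvd_of_dvd_mul_left key)

theorem good_zero : Good nb i j 0 where
  dvd := fun p' h => by omega
  cc := fun p' h q w => by
    obtain rfl : p' = 0 := by omega
    rw [Phi_zero_left, map_one]
  free := fun p' h r _ q w => by
    obtain rfl : p' = 0 := by omega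
    rw [Phi_zero_left, map_one]
  cop := fun p' h q w w' _ => by
    obtain rfl : p' = 0 := by omega
    rw [Phi_zero_left]
    exact isRelPrime_one_left

theorem good_succ (hirr : ∀ i, i ∉ nb i) (hsymm : ∀ i j, i ∈ nb j → j ∈ nb i) {p : ℕ}
    (G : Good nb i j p) : Good nb i j (p + 1) := by
  have hdvd : ∀ q w, w = i p → w = j q → Phi nb i j p q w ∣ num nb i j p q w := by
    intro q
    induction q using Nat.strong_induction_on with
    | _ q ih => intro w h1 h2; exact dvd_step hirr hsymm G ih h1 h2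
  have hsq : ∀ q w, w = i p → w = j q →
      Phi nb i j (p + 1) (q + 1) w * Phi nb i j p q w = num nb i j p q w :=
    fun q w h1 h2 => Phi_square h1 h2 (hdvd q w h1 h2)
  have hcc : ∀ q w, constantCoeff (Phi nb i j (p + 1) q w) = 1 := by
    intro q w
    by_cases h1 : w = i p
    · induction q with
      | zero => rw [Phi_zero_right, map_one]
      | succ q ih =>
        by_cases h2 : w = j q
        · have := congrArg constantCoeff (hsq q w h1 h2)
          rw [map_mul, G.cc p le_rfl, mul_one, num, map_add, map_mul, map_mul, map_mul, ih,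
            G.cc p le_rfl, cv, constantCoeff_X, zero_mul, zero_mul, add_zero, mul_one] at this
          exact this
        · rw [Phi_right h2]; exact ih
    · rw [Phi_left h1]; exact G.cc p le_rfl _ _
  have hfree : ∀ r ≥ p + 1, ∀ q w,
      ev (Sum.inl r) (Phi nb i j (p + 1) q w) = Phi nb i j (p + 1) q w := by
    intro r hr q w
    by_cases h1 : w = i p
    · induction q with
      | zero => rw [Phi_zero_right, map_one]
      | succ q ih =>
        by_cases h2 : w = j q
        · have e := hsq q w h1 h2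
          have e' := congrArg (ev (Sum.inl r)) e
          rw [num, map_mul, map_add, map_mul, map_mul, map_mul, map_prod, ih,
            G.free p le_rfl r (by omega), G.free p le_rfl r (by omega)] at e'
          have e5 : ∏ z ∈ nb w, ev (Sum.inl r) (Phi nb i j p q z) =
              ∏ z ∈ nb w, Phi nb i j p q z :=
            Finset.prod_congr rfl fun z _ => G.free p le_rfl r (by omega) _ _
          have e6 : ev (Sum.inl r) (cv p) = cv p :=
            ev_X_ne (by intro h; rw [Sum.inl.injEq] at h; omega)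
          have e7 : ev (Sum.inl r) (dv q) = dv q := ev_X_ne (by simp)
          rw [e5, e6, e7] at e'
          rw [num] at e
          rw [← e] at e'
          exact mul_right_cancel₀ (cc_ne (G.cc p le_rfl _ _)) e'
        · rw [Phi_right h2]; exact ih
    · rw [Phi_left h1]; exact G.free p le_rfl r (by omega) _ _
  have hev : ∀ q w, ev (Sum.inl p) (Phi nb i j (p + 1) q w) = Phi nb i j p q w := by
    intro q w
    by_cases h1 : w = i p
    · induction q with
      | zero => rw [Phi_zero_right, Phi_zero_right, map_one]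
      | succ q ih =>
        by_cases h2 : w = j q
        · have e := hsq q w h1 h2
          have e' := congrArg (ev (Sum.inl p)) e
          rw [num, map_mul, map_add, map_mul, map_mul, map_mul, map_prod, ih,
            G.free p le_rfl p le_rfl, G.free p le_rfl p le_rfl, cv, ev_X_self, zero_mul, zero_mul,
            add_zero, mul_comm (Phi nb i j p q w)] at e'
          exact mul_right_cancel₀ (cc_ne (G.cc p le_rfl _ _)) e'
        · rw [Phi_right h2, Phi_right h2]; exact ih
    · rw [Phi_left h1]; exact G.free p le_rfl p le_rfl _ _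
  have hcop1 : ∀ q w w', w ≠ w' → w = i p →
      IsRelPrime (Phi nb i j (p + 1) q w) (Phi nb i j (p + 1) q w') := by
    intro q w w' hne h1 e he1 he2
    have h2 : w' ≠ i p := fun h => hne (h1.trans h.symm)
    rw [Phi_left h2] at he2
    have h3 : ev (Sum.inl p) e = e :=
      ev_of_dvd _ (cc_ne (G.cc p le_rfl _ _)) (G.free p le_rfl p le_rfl _ _) he2
    have h4 : e ∣ Phi nb i j p q w := by
      rw [← h3, ← hev q w]
      exact map_dvd _ he1
    exact G.cop p le_rfl q w w' hne h4 he2
  refine ⟨?_, ?_, ?_, ?_⟩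
  · intro p' hp'
    rcases Nat.lt_succ_iff_lt_or_eq.mp hp' with h | rfl
    · exact G.dvd p' h
    · exact hdvd
  · intro p' hp'
    rcases Nat.le_succ_iff.mp hp' with h | rfl
    · exact G.cc p' h
    · exact hcc
  · intro p' hp'
    rcases Nat.le_succ_iff.mp hp' with h | rfl
    · exact G.free p' h
    · exact hfree
  · intro p' hp' q w w' hne
    rcases Nat.le_succ_iff.mp hp' with h | rfl
    · exact G.cop p' h q w w' hne
    · by_cases h1 : w = i p
      · exact hcop1 q w w' hne h1
      · by_cases h2 : w' = i p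
        · exact (hcop1 q w' w (Ne.symm hne) h2).symm
        · rw [Phi_left h1, Phi_left h2]
          exact G.cop p le_rfl q w w' hne

theorem good (hirr : ∀ i, i ∉ nb i) (hsymm : ∀ i j, i ∈ nb j → j ∈ nb i) (p : ℕ) :
    Good nb i j p := by
  induction p with
  | zero => exact good_zero
  | succ p ih => exact good_succ hirr hsymm ih

/-- The square rule. -/
theorem Phi_rule (hirr : ∀ i, i ∉ nb i) (hsymm : ∀ i j, i ∈ nb j → j ∈ nb i) {p q : ℕ} {w : I}
    (h : w = i p) (h' : w = j q) :
    Phi nb i j (p + 1) (q + 1) w * Phi nb i j p q w =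
      Phi nb i j (p + 1) q w * Phi nb i j p (q + 1) w +
        cv p * dv q * ∏ u ∈ nb w, Phi nb i j p q u :=
  Phi_square h h' ((good hirr hsymm (p + 1)).dvd p (by omega) q w h h')

end

end Pool.Agent.H15.TSys
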