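import Pool.Agent.H15.TSys.Lattice

/-!
# Linear recurrences for systems with a shift
-/

namespace Pool.Agent.H15.TSys

open Finset

/-- linear dependence of the rows `a0 + L k` -/
theorem exists_dep {K : Type*} [Field K] {ι : Type} [Fintype ι] (α : ι → ℕ → K) (L : ℕ) :
    ∃ (M : ℕ) (l : ℕ → K), (∃ k ≤ M, l k ≠ 0) ∧
      ∀ a0 < L, ∀ m, ∑ k ∈ range (M + 1), l k * α m (a0 + L * k) = 0 := by
  classical
  set M := Fintype.card (Fin L × ι) with hM
  set φ : (Fin (M + 1) → K) →ₗ[K] (Fin L × ι → K) :=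
    LinearMap.pi fun p => ∑ k : Fin (M + 1), α p.2 (p.1 + L * k) • LinearMap.proj k with hφ
  have hker : LinearMap.ker φ ≠ ⊥ := by
    apply LinearMap.ker_ne_bot_of_finrank_lt
    rw [Module.finrank_fintype_fun_eq_card, Module.finrank_fintype_fun_eq_card, Fintype.card_fin]
    omega
  obtain ⟨x, hx, hx0⟩ := Submodule.exists_mem_ne_zero_of_ne_bot hker
  obtain ⟨k0, hk0⟩ := Function.ne_iff.mp hx0
  refine ⟨M, fun k => if h : k < M + 1 then x ⟨k, h⟩ else 0, ⟨k0, by omega, ?_⟩, ?_⟩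
  · beta_reduce
    rw [dif_pos k0.2]
    exact hk0
  · intro a0 ha0 m
    have h1 := congrFun (LinearMap.mem_ker.mp hx) (⟨a0, ha0⟩, m)
    simp only [hφ, LinearMap.pi_apply, LinearMap.coe_sum, Finset.sum_apply, LinearMap.smul_apply,
      LinearMap.proj_apply, smul_eq_mul, Pi.zero_apply] at h1
    refine Eq.trans ?_ h1
    rw [Finset.sum_range]
    refine Finset.sum_congr rfl fun k _ => ?_
    beta_reduce
    rw [dif_pos k.2]
    exact mul_comm _ _

/-- A finite set with a shift `s` and a graph `nb` invariant under the shift. -/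
structure CoverSys (I : Type) [DecidableEq I] where
  s : Equiv.Perm I
  nb : I → Finset I
  e : I → ℤ
  he : ∀ w, e w = 0 ∨ e w = 1
  irr : ∀ i, i ∉ nb i
  symm : ∀ i j, i ∈ nb j → j ∈ nb i
  e_s : ∀ w, e (s w) = 1 - e w
  e_nb : ∀ w, ∀ u ∈ nb w, e u = 1 - e w
  nb_s : ∀ w, nb (s w) = (nb w).image s

namespace CoverSys
variable {I : Type} [DecidableEq I] (C : CoverSys I)

theorem even_e (w : I) (k : ℤ) : Even (C.e ((C.s ^ k) w) + C.e w + k) := by
  induction k using Int.induction_on with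
  | zero => simp
  | succ i ih =>
    have h1 : (C.s ^ ((i : ℤ) + 1)) w = C.s ((C.s ^ (i : ℤ)) w) := by
      rw [add_comm, zpow_add, zpow_one]; rfl
    rw [h1, C.e_s]
    obtain ⟨r, hr⟩ := ih
    exact ⟨C.e w + i + 1 - r, by linarith⟩
  | pred i ih =>
    have h1 : C.s ((C.s ^ (-(i : ℤ) - 1)) w) = (C.s ^ (-(i : ℤ))) w := by
      have : (C.s ^ (-(i : ℤ))) = C.s * (C.s ^ (-(i : ℤ) - 1)) := by
        conv_rhs => lhs; rw [← zpow_one C.s]
        rw [← zpow_add]; congr 1; ring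
      rw [this]; rfl
    have h2 := C.e_s ((C.s ^ (-(i : ℤ) - 1)) w)
    rw [h1] at h2
    obtain ⟨r, hr⟩ := ih
    exact ⟨C.e w - i - r, by linarith⟩

theorem nb_inv (w : I) : C.nb (C.s⁻¹ w) = (C.nb w).image (C.s⁻¹ : Equiv.Perm I) := by
  have h := C.nb_s (C.s⁻¹ w)
  have hw : C.s (C.s⁻¹ w) = w := by simp
  rw [hw] at h
  rw [h, Finset.image_image]
  have : ((C.s⁻¹ : Equiv.Perm I) ∘ C.s : I → I) = id := by
    funext x; simp
  rw [this, Finset.image_id]

theorem nb_zpow (w : I) (k : ℤ) :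
    C.nb ((C.s ^ k) w) = (C.nb w).image (C.s ^ k : Equiv.Perm I) := by
  induction k using Int.induction_on with
  | zero =>
    rw [zpow_zero]
    ext x
    simp
  | succ i ih =>
    have h1 : (C.s ^ ((i : ℤ) + 1)) = C.s * (C.s ^ (i : ℤ)) := by
      rw [add_comm, zpow_add, zpow_one]
    rw [h1, Equiv.Perm.mul_apply, C.nb_s, ih, Finset.image_image]
    rfl
  | pred i ih =>
    have h1 : (C.s ^ (-(i : ℤ) - 1)) = C.s⁻¹ * (C.s ^ (-(i : ℤ))) := by
      rw [← zpow_neg_one, ← zpow_add]; congr 1; ring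
    rw [h1, Equiv.Perm.mul_apply, C.nb_inv, ih, Finset.image_image]
    rfl

variable {K : Type*} [Field K]

/-- the T-system of a system with shift -/
structure IsSol (P : Cone K) (T : I → ℤ → K) : Prop where
  rel : ∀ w t, Even (t + 1 + C.e w) → T w (t + 1) * T w (t - 1) =
    T (C.s w) t * T (C.s⁻¹ w) t + ∏ u ∈ C.nb w, T u t
  pos : ∀ w t, Even (t + C.e w) → T w t ∈ P.S

/-- light cone coordinates -/
def lat (T : I → ℤ → K) (w : I) (a b : ℕ) : K :=
  T ((C.s ^ ((a : ℤ) - b)) w) (a + b + C.e w)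

def colr (w : I) : Bool := decide (C.e w = 1)

variable {C}

theorem IsSol.lat_pos {P : Cone K} {T : I → ℤ → K} (h : C.IsSol P T) (w : I) (a b : ℕ) :
    C.lat T w a b ∈ P.S := by
  apply h.pos
  obtain ⟨r, hr⟩ := C.even_e w ((a : ℤ) - b)
  exact ⟨r + b, by linarith⟩

theorem IsSol.lat_rel {P : Cone K} {T : I → ℤ → K} (h : C.IsSol P T) (w : I) (a b : ℕ) :
    C.lat T w (a + 1) (b + 1) * C.lat T w a b = C.lat T w (a + 1) b * C.lat T w a (b + 1) +
      ∏ u ∈ C.nb w, T ((C.s ^ ((a : ℤ) - b)) u) (a + b + 1 + C.e w) := by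
  set k : ℤ := (a : ℤ) - b with hk
  have h1 := h.rel ((C.s ^ k) w) (a + b + 1 + C.e w) (by
    obtain ⟨r, hr⟩ := C.even_e w k
    exact ⟨r + b + 1, by rw [hk] at hr; rw [hk]; linarith⟩)
  rw [C.nb_zpow, Finset.prod_image (fun x _ y _ hxy => (C.s ^ k).injective hxy)] at h1
  have e1 : C.lat T w (a + 1) (b + 1) = T ((C.s ^ k) w) (a + b + 1 + C.e w + 1) := by
    unfold lat
    rw [show ((a + 1 : ℕ) : ℤ) - ((b + 1 : ℕ) : ℤ) = k by push_cast; ring]
    congr 1
    push_cast; ring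
  have e2 : C.lat T w a b = T ((C.s ^ k) w) (a + b + 1 + C.e w - 1) := by
    unfold lat
    congr 1
    ring
  have e3 : C.lat T w (a + 1) b = T (C.s ((C.s ^ k) w)) (a + b + 1 + C.e w) := by
    unfold lat
    rw [show ((a + 1 : ℕ) : ℤ) - (b : ℤ) = 1 + k by push_cast; ring, zpow_add, zpow_one,
      Equiv.Perm.mul_apply]
    congr 1
    push_cast; ring
  have e4 : C.lat T w a (b + 1) = T (C.s⁻¹ ((C.s ^ k) w)) (a + b + 1 + C.e w) := by
    unfold lat
    rw [show (a : ℤ) - ((b + 1 : ℕ) : ℤ) = -1 + k by push_cast; ring, zpow_add, zpow_neg_one,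
      Equiv.Perm.mul_apply, show (a : ℤ) + ((b + 1 : ℕ) : ℤ) + C.e w = a + b + 1 + C.e w by
      push_cast; ring]
  rw [e1, e2, e3, e4]
  exact h1

theorem IsSol.isLat {P : Cone K} {T : I → ℤ → K} (h : C.IsSol P T) :
    Lat C.nb C.colr (C.lat T) where
  r0 := by
    intro w hw a b
    rw [h.lat_rel]
    congr 1
    refine Finset.prod_congr rfl fun u hu => ?_
    have h0 : C.e w = 0 := by
      rcases C.he w with h1 | h1
      · exact h1
      · simp [colr, h1] at hw
    unfold lat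
    rw [C.e_nb w u hu, h0, show (a : ℤ) + b + 1 + 0 = a + b + (1 - 0) by ring]
  r1 := by
    intro w hw a b
    rw [h.lat_rel]
    congr 1
    refine Finset.prod_congr rfl fun u hu => ?_
    have h0 : C.e w = 1 := by simpa [colr] using hw
    unfold lat
    rw [C.e_nb w u hu, h0, show ((a + 1 : ℕ) : ℤ) - ((b + 1 : ℕ) : ℤ) = (a : ℤ) - b by
      push_cast; ring, show ((a + 1 : ℕ) : ℤ) + ((b + 1 : ℕ) : ℤ) + (1 - 1) = a + b + 1 + 1 by
      push_cast; ring]
  ne := fun w a b => P.ne (h.lat_pos w a b)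

/-- **Linear recurrences.** -/
theorem IsSol.recurrence [Fintype I] [Algebra ℚ K] {P : Cone K} {T : I → ℤ → K}
    (h : C.IsSol P T) (f : I → ℕ) (hf : ∀ i, ∑ j ∈ C.nb i, f j < 2 * f i) (w : I) :
    ∃ (M : ℕ) (c : ℕ → K), (∃ k ≤ M, c k ≠ 0) ∧
      ∀ l : ℕ, ∑ k ∈ range (M + 1), c k * T w (C.e w + 2 * ((l : ℤ) + k)) = 0 := by
  obtain ⟨ι, _, α, β, hαβ⟩ := h.isLat.finRk C.irr C.symm (fun w u hu => by
    have h1 := C.e_nb w u hu
    rcases C.he w with h2 | h2 <;> simp [colr, h1, h2]) f hf h.lat_pos w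
  set g := orderOf C.s with hg
  have hgpos : 0 < g := orderOf_pos C.s
  have hsg : C.s ^ g = 1 := pow_orderOf_eq_one C.s
  obtain ⟨M, l, ⟨k0, hk0, hk0'⟩, hl⟩ := exists_dep α (2 * g)
  -- the relation in steps of `2 g`
  have hrel : ∀ m : ℕ, ∑ k ∈ range (M + 1), l k * T w (C.e w + 2 * ((m : ℤ) + g * k)) = 0 := by
    intro m
    set a0 := m % (2 * g) with ha0
    have ha0lt : a0 < 2 * g := Nat.mod_lt _ (by omega)
    have ha0le : a0 ≤ m := Nat.mod_le _ _
    obtain ⟨r, hr⟩ : ∃ r, m = a0 + 2 * g * r := ⟨m / (2 * g), by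
      rw [ha0]; exact (Nat.mod_add_div m (2 * g)).symm⟩
    set b := 2 * m - a0 with hb
    have hlat : ∀ k : ℕ, C.lat T w (a0 + 2 * g * k) b = T w (C.e w + 2 * ((m : ℤ) + g * k)) := by
      intro k
      unfold lat
      have h1 : ((a0 + 2 * g * k : ℕ) : ℤ) - (b : ℤ) = (g : ℤ) * (2 * k - 4 * r) := by
        have : (b : ℤ) = 2 * m - a0 := by rw [hb]; omega
        rw [this]
        have hr' : (m : ℤ) = a0 + 2 * g * r := by exact_mod_cast hr
        rw [hr']
        push_cast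
        ring
      rw [h1, zpow_mul, zpow_natCast, hsg, one_zpow, Equiv.Perm.one_apply]
      congr 1
      have : (b : ℤ) = 2 * m - a0 := by rw [hb]; omega
      rw [this]
      push_cast
      ring
    have h2 : ∀ k ∈ range (M + 1), l k * T w (C.e w + 2 * ((m : ℤ) + g * k)) =
        ∑ i, β i b * (l k * α i (a0 + 2 * g * k)) := by
      intro k _
      have e : C.lat T w (a0 + 2 * g * k) b = ∑ i, α i (a0 + 2 * g * k) * β i b := hαβ _ _
      rw [← hlat, e, Finset.mul_sum]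
      exact Finset.sum_congr rfl fun i _ => by ring
    rw [Finset.sum_congr rfl h2, Finset.sum_comm]
    refine Finset.sum_eq_zero fun i _ => ?_
    rw [← Finset.mul_sum, hl a0 ha0lt i, mul_zero]
  refine ⟨g * M, fun k => if g ∣ k then l (k / g) else 0, ⟨g * k0, Nat.mul_le_mul_left g hk0, ?_⟩,
    fun m => ?_⟩
  · simp only [Nat.dvd_mul_right, if_true]
    rw [Nat.mul_div_cancel_left _ hgpos]
    exact hk0'
  · refine Eq.trans ?_ (hrel m)
    have hinj : ∀ x ∈ range (M + 1), ∀ y ∈ range (M + 1), g * x = g * y → x = y :=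
      fun x _ y _ hxy => Nat.eq_of_mul_eq_mul_left hgpos hxy
    have hsub : (range (M + 1)).image (fun k => g * k) ⊆ range (g * M + 1) := by
      intro x hx
      rw [Finset.mem_image] at hx
      obtain ⟨y, hy, rfl⟩ := hx
      rw [Finset.mem_range] at hy ⊢
      have := Nat.mul_le_mul_left g (Nat.lt_succ_iff.mp hy)
      omega
    rw [← Finset.sum_subset hsub, Finset.sum_image hinj]
    · refine Finset.sum_congr rfl fun k _ => ?_
      simp only [Nat.dvd_mul_right, if_true]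
      rw [Nat.mul_div_cancel_left _ hgpos]
      push_cast
      rfl
    · intro x hx hx'
      by_cases hd : g ∣ x
      · exfalso
        obtain ⟨y, rfl⟩ := hd
        apply hx'
        rw [Finset.mem_image]
        refine ⟨y, ?_, rfl⟩
        rw [Finset.mem_range] at hx ⊢
        have : g * y ≤ g * M := by omega
        have := Nat.le_of_mul_le_mul_left this hgpos
        omega
      · beta_reduce
        rw [if_neg hd, zero_mul]

end CoverSys

end Pool.Agent.H15.TSys
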