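import Pool.Agent.H15.TSys.Frame

/-!
# Words of letters, crossing of letters, and the exchange of two words
-/

namespace Pool.Agent.H15.TSys

open Finset

/-- A letter changes the value at the node `nd` to `t`; `c` is its constant. -/
structure Letter (I : Type) (K : Type*) where
  nd : I
  c : K
  t : K

section
variable {I : Type} [DecidableEq I] {K : Type*} [Field K] (nb : I → Finset I)

/-- product of the values at the neighbours -/
def nbp (v : I → K) (i : I) : K := ∏ u ∈ nb i, v u

/-- the vector after a letter -/
def act (v : I → K) (ξ : Letter I K) : I → K := Function.update v ξ.nd ξ.t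

/-- the letter `ξ` after it has crossed the letter `η`, both starting at the vector `v` -/
noncomputable def cross (v : I → K) (ξ η : Letter I K) : Letter I K :=
  if ξ.nd = η.nd then ⟨ξ.nd, ξ.c, (ξ.t * η.t + ξ.c * η.c * nbp nb v ξ.nd) / v ξ.nd⟩ else ξ

@[simp] theorem cross_nd (v : I → K) (ξ η : Letter I K) : (cross nb v ξ η).nd = ξ.nd := by
  unfold cross; split_ifs <;> rfl

@[simp] theorem cross_c (v : I → K) (ξ η : Letter I K) : (cross nb v ξ η).c = ξ.c := by
  unfold cross; split_ifs <;> rfl

theorem square (v : I → K) (ξ η : Letter I K) :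
    act (act v ξ) (cross nb v η ξ) = act (act v η) (cross nb v ξ η) := by
  unfold act
  simp only [cross_nd]
  by_cases h : ξ.nd = η.nd
  · rw [h]
    rw [Function.update_idem, Function.update_idem]
    congr 1
    unfold cross
    rw [if_pos h, if_pos h.symm, h]
    ring
  · rw [Function.update_comm h]
    unfold cross
    rw [if_neg h, if_neg (Ne.symm h)]

/-- the vector after a word -/
def ends (v : I → K) : List (Letter I K) → (I → K)
  | [] => v
  | ξ :: xs => ends (act v ξ) xs

/-- the word `ys` transported across the letter `ξ` -/
noncomputable def pass1 : (I → K) → Letter I K → List (Letter I K) → List (Letter I K)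
  | _, _, [] => []
  | v, ξ, η :: ys => cross nb v η ξ :: pass1 (act v η) (cross nb v ξ η) ys

/-- the letter `ξ` transported across the word `ys` -/
noncomputable def thr : (I → K) → Letter I K → List (Letter I K) → Letter I K
  | _, ξ, [] => ξ
  | v, ξ, η :: ys => thr (act v η) (cross nb v ξ η) ys

/-- the word `ys` transported across the word `xs` -/
noncomputable def pass : (I → K) → List (Letter I K) → List (Letter I K) → List (Letter I K)
  | _, [], ys => ys
  | v, ξ :: xs, ys => pass (act v ξ) xs (pass1 nb v ξ ys)

/-- the corner vector -/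
noncomputable def corner (v : I → K) (xs ys : List (Letter I K)) : I → K :=
  ends (ends v xs) (pass nb v xs ys)

@[simp] theorem pass_nil (v : I → K) (xs : List (Letter I K)) : pass nb v xs [] = [] := by
  induction xs generalizing v with
  | nil => rfl
  | cons ξ xs ih => simp [pass, pass1, ih]

theorem pass_cons (v : I → K) (xs : List (Letter I K)) (η : Letter I K) (ys : List (Letter I K)) :
    pass nb v xs (η :: ys) = thr nb v η xs :: pass nb (act v η) (pass1 nb v η xs) ys := by
  induction xs generalizing v η ys with
  | nil => rfl
  | cons ξ xs ih =>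
    simp only [pass, pass1, thr]
    rw [ih, square]

theorem ends_pass1 (v : I → K) (ξ : Letter I K) (ys : List (Letter I K)) :
    ends (act v ξ) (pass1 nb v ξ ys) = act (ends v ys) (thr nb v ξ ys) := by
  induction ys generalizing v ξ with
  | nil => rfl
  | cons η ys ih =>
    simp only [ends, pass1, thr]
    rw [square, ih]

theorem corner_comm (v : I → K) (xs ys : List (Letter I K)) :
    corner nb v xs ys = corner nb v ys xs := by
  unfold corner
  induction xs generalizing v ys with
  | nil => simp [ends, pass]
  | cons ξ xs ih =>
    rw [pass_cons]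
    simp only [ends, pass]
    rw [ih, ends_pass1]

theorem ends_append (v : I → K) (xs ys : List (Letter I K)) :
    ends v (xs ++ ys) = ends (ends v xs) ys := by
  induction xs generalizing v with
  | nil => rfl
  | cons ξ xs ih => simp [ends, ih]

theorem pass_append (v : I → K) (xs xs' ys : List (Letter I K)) :
    pass nb v (xs ++ xs') ys = pass nb (ends v xs) xs' (pass nb v xs ys) := by
  induction xs generalizing v ys with
  | nil => rfl
  | cons ξ xs ih => simp [ends, pass, ih]

/-- appending a letter to the second word -/
theorem pass_snoc (v : I → K) (xs ys : List (Letter I K)) (η : Letter I K) :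
    pass nb v xs (ys ++ [η]) = pass nb v xs ys ++ [thr nb (ends v ys) η (pass nb v ys xs)] := by
  induction ys generalizing v xs with
  | nil => rw [List.nil_append, pass_cons, pass_nil, pass_nil]; rfl
  | cons η0 ys ih =>
    rw [List.cons_append, pass_cons, pass_cons, ih]
    rfl

/-- the letter `η` (appended to `ys`), seen at the corner -/
noncomputable def atCorner (v : I → K) (xs ys : List (Letter I K)) (η : Letter I K) : Letter I K :=
  thr nb (ends v ys) η (pass nb v ys xs)

theorem thr_nd (v : I → K) (ξ : Letter I K) (ys : List (Letter I K)) :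
    (thr nb v ξ ys).nd = ξ.nd := by
  induction ys generalizing v ξ with
  | nil => rfl
  | cons η ys ih => simp [thr, ih]

theorem thr_c (v : I → K) (ξ : Letter I K) (ys : List (Letter I K)) :
    (thr nb v ξ ys).c = ξ.c := by
  induction ys generalizing v ξ with
  | nil => rfl
  | cons η ys ih => simp [thr, ih]

theorem thr_snoc (v : I → K) (ξ : Letter I K) (ys : List (Letter I K)) (η : Letter I K) :
    thr nb v ξ (ys ++ [η]) = cross nb (ends v ys) (thr nb v ξ ys) η := by
  induction ys generalizing v ξ with
  | nil => rfl
  | cons η0 ys ih => simp [thr, ends, ih]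

theorem corner_snoc_right (v : I → K) (xs ys : List (Letter I K)) (η : Letter I K) :
    corner nb v xs (ys ++ [η]) = act (corner nb v xs ys) (atCorner nb v xs ys η) := by
  unfold corner
  rw [pass_snoc, ends_append]
  rfl

theorem corner_snoc_left (v : I → K) (xs ys : List (Letter I K)) (ξ : Letter I K) :
    corner nb v (xs ++ [ξ]) ys = act (corner nb v xs ys) (atCorner nb v ys xs ξ) := by
  rw [corner_comm, corner_snoc_right, corner_comm]

theorem atCorner_snoc (v : I → K) (xs ys : List (Letter I K)) (ξ η : Letter I K) :
    atCorner nb v (xs ++ [ξ]) ys η =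
      cross nb (corner nb v xs ys) (atCorner nb v xs ys η) (atCorner nb v ys xs ξ) := by
  unfold atCorner
  rw [pass_snoc, thr_snoc, corner_comm]
  rfl

@[simp] theorem atCorner_nd (v : I → K) (xs ys : List (Letter I K)) (η : Letter I K) :
    (atCorner nb v xs ys η).nd = η.nd := thr_nd _ _ _ _

@[simp] theorem atCorner_c (v : I → K) (xs ys : List (Letter I K)) (η : Letter I K) :
    (atCorner nb v xs ys η).c = η.c := thr_c _ _ _ _

/-- The three rules for the corner vectors. -/
theorem corner_rule_left (v : I → K) (xs ys : List (Letter I K)) (ξ : Letter I K) (i : I)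
    (h : i ≠ ξ.nd) : corner nb v (xs ++ [ξ]) ys i = corner nb v xs ys i := by
  rw [corner_snoc_left]
  unfold act
  rw [Function.update_of_ne (by simpa using h)]

theorem corner_rule_right (v : I → K) (xs ys : List (Letter I K)) (η : Letter I K) (i : I)
    (h : i ≠ η.nd) : corner nb v xs (ys ++ [η]) i = corner nb v xs ys i := by
  rw [corner_snoc_right]
  unfold act
  rw [Function.update_of_ne (by simpa using h)]

theorem corner_rule_square (v : I → K) (xs ys : List (Letter I K)) (ξ η : Letter I K)
    (h : ξ.nd = η.nd) (hne : corner nb v xs ys ξ.nd ≠ 0) :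
    corner nb v (xs ++ [ξ]) (ys ++ [η]) ξ.nd * corner nb v xs ys ξ.nd =
      corner nb v (xs ++ [ξ]) ys ξ.nd * corner nb v xs (ys ++ [η]) ξ.nd +
        ξ.c * η.c * nbp nb (corner nb v xs ys) ξ.nd := by
  rw [corner_snoc_right nb v (xs ++ [ξ]) ys η, atCorner_snoc, corner_snoc_right,
    corner_snoc_left]
  set u := corner nb v xs ys with hu
  have e1 : act (act u (atCorner nb v ys xs ξ))
      (cross nb u (atCorner nb v xs ys η) (atCorner nb v ys xs ξ)) ξ.nd =
      (cross nb u (atCorner nb v xs ys η) (atCorner nb v ys xs ξ)).t := by
    conv_lhs => rw [act]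
    have : ξ.nd = (cross nb u (atCorner nb v xs ys η) (atCorner nb v ys xs ξ)).nd := by
      simp [h]
    conv_lhs => rw [this]
    simp
  have e2 : act u (atCorner nb v ys xs ξ) ξ.nd = (atCorner nb v ys xs ξ).t := by
    unfold act
    have : ξ.nd = (atCorner nb v ys xs ξ).nd := by simp
    conv_lhs => rw [this]
    simp
  have e3 : act u (atCorner nb v xs ys η) ξ.nd = (atCorner nb v xs ys η).t := by
    unfold act
    have : ξ.nd = (atCorner nb v xs ys η).nd := by simp [h]
    conv_lhs => rw [this]
    simp
  rw [e1, e2, e3]
  unfold cross
  rw [if_pos (by simp [h])]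
  simp only [atCorner_c, atCorner_nd, ← h]
  field_simp

end

end Pool.Agent.H15.TSys
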