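import Pool.Agent.H15.TSys.Frame

/-!
# The field of rational functions, its cone of positive elements, the time evolution automorphism
-/

namespace Pool.Agent.H15.TSys

open Finset

/-- `ℚ(x_v : v ∈ V)` -/
abbrev KK (V : Type) := FractionRing (MvPolynomial V ℚ)

/-- the indeterminate `x_v` -/
noncomputable def xv {V : Type} (v : V) : KK V :=
  algebraMap (MvPolynomial V ℚ) (KK V) (MvPolynomial.X v)

/-- nonzero polynomials with nonnegative coefficients -/
def PosPoly {V : Type} (p : MvPolynomial V ℚ) : Prop := p ≠ 0 ∧ ∀ m, 0 ≤ p.coeff m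

theorem PosPoly.add {V : Type} {p q : MvPolynomial V ℚ} (hp : PosPoly p) (hq : PosPoly q) :
    PosPoly (p + q) := by
  refine ⟨fun h => hp.1 ?_, fun m => ?_⟩
  · ext m
    have h1 := hp.2 m
    have h2 := hq.2 m
    have h3 : (p + q).coeff m = 0 := by rw [h]; simp
    rw [MvPolynomial.coeff_add] at h3
    simp only [MvPolynomial.coeff_zero]
    linarith
  · rw [MvPolynomial.coeff_add]
    exact add_nonneg (hp.2 m) (hq.2 m)

theorem PosPoly.mul {V : Type} {p q : MvPolynomial V ℚ} (hp : PosPoly p) (hq : PosPoly q) :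
    PosPoly (p * q) := by
  classical
  refine ⟨mul_ne_zero hp.1 hq.1, fun m => ?_⟩
  rw [MvPolynomial.coeff_mul]
  exact Finset.sum_nonneg fun x _ => mul_nonneg (hp.2 _) (hq.2 _)

theorem PosPoly.one {V : Type} : PosPoly (1 : MvPolynomial V ℚ) := by
  classical
  refine ⟨one_ne_zero, fun m => ?_⟩
  rw [MvPolynomial.coeff_one]
  split_ifs <;> norm_num

theorem PosPoly.X {V : Type} (v : V) : PosPoly (MvPolynomial.X v : MvPolynomial V ℚ) := by
  classical
  refine ⟨MvPolynomial.X_ne_zero v, fun m => ?_⟩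
  rw [MvPolynomial.coeff_X]
  split_ifs <;> norm_num

theorem algMap_ne {V : Type} {p : MvPolynomial V ℚ} (h : p ≠ 0) :
    algebraMap (MvPolynomial V ℚ) (KK V) p ≠ 0 := by
  intro h0
  exact h ((IsFractionRing.injective (MvPolynomial V ℚ) (KK V)) (by rw [h0, map_zero]))

/-- The cone of positive rational functions. -/
noncomputable def posCone (V : Type) : Cone (KK V) where
  S := {z | ∃ p q : MvPolynomial V ℚ, PosPoly p ∧ PosPoly q ∧
    z = algebraMap _ _ p / algebraMap _ _ q}
  one := ⟨1, 1, PosPoly.one, PosPoly.one, by simp⟩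
  add := by
    rintro a b ⟨p, q, hp, hq, rfl⟩ ⟨p', q', hp', hq', rfl⟩
    refine ⟨p * q' + q * p', q * q', (hp.mul hq').add (hq.mul hp'), hq.mul hq', ?_⟩
    rw [map_add, map_mul, map_mul, map_mul, div_add_div _ _ (algMap_ne hq.1) (algMap_ne hq'.1)]
  mul := by
    rintro a b ⟨p, q, hp, hq, rfl⟩ ⟨p', q', hp', hq', rfl⟩
    exact ⟨p * p', q * q', hp.mul hp', hq.mul hq', by rw [map_mul, map_mul, div_mul_div_comm]⟩
  inv := by
    rintro a ⟨p, q, hp, hq, rfl⟩
    exact ⟨q, p, hq, hp, by rw [inv_div]⟩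
  zero := by
    rintro ⟨p, q, hp, hq, h⟩
    exact div_ne_zero (algMap_ne hp.1) (algMap_ne hq.1) h.symm

theorem xv_mem {V : Type} (v : V) : xv v ∈ (posCone V).S :=
  ⟨MvPolynomial.X v, 1, PosPoly.X v, PosPoly.one, by simp [xv]⟩

/-- A subfield containing all `x_v` is everything. -/
theorem subfield_eq_top {V : Type} (E : Subfield (KK V)) (h : ∀ v, xv v ∈ E) : E = ⊤ := by
  rw [eq_top_iff]
  intro z _
  obtain ⟨p, q, _, rfl⟩ := IsFractionRing.div_surjective (A := MvPolynomial V ℚ) z
  have key : ∀ p : MvPolynomial V ℚ, algebraMap (MvPolynomial V ℚ) (KK V) p ∈ E := by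
    intro p
    induction p using MvPolynomial.induction_on with
    | C a =>
      have : algebraMap (MvPolynomial V ℚ) (KK V) (MvPolynomial.C a) = (a : KK V) := by
        rw [← MvPolynomial.algebraMap_eq, ← IsScalarTower.algebraMap_apply]
        simp
      rw [this]
      exact SubfieldClass.ratCast_mem E a
    | add p q hp hq => rw [map_add]; exact E.add_mem hp hq
    | mul_X p v hp => rw [map_mul]; exact E.mul_mem hp (h v)
  exact E.div_mem (key p) (key q)

namespace Sys
variable {V : Type} (G : Sys V)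

theorem rhs_mem_subfield {F : Type*} [Field F] (E : Subfield F) (x : V → F) (v : V)
    (h : ∀ u, G.ε u = 1 - G.ε v → x u ∈ E) : G.rhs x v ∈ E :=
  E.add_mem (Subfield.prod_mem E fun u hu => h u (G.εN hu))
    (Subfield.prod_mem E fun u hu => h u (G.εM hu))

/-- The T-system with initial values the indeterminates. -/
structure IsT (T : V → ℤ → KK V) : Prop where
  init : ∀ v, T v (G.ε v) = xv v
  rel : G.Rel T

variable {G} {T : V → ℤ → KK V}

theorem IsT.pos (h : G.IsT T) {v : V} {t : ℤ} (ht : Even (t + G.ε v)) :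
    T v t ∈ (posCone V).S :=
  G.pos_of_rel _ h.rel (fun v => by rw [h.init]; exact xv_mem v) ht

theorem IsT.ne (h : G.IsT T) {v : V} {t : ℤ} (ht : Even (t + G.ε v)) : T v t ≠ 0 :=
  (posCone V).ne (h.pos ht)

theorem exists_isT (G : Sys V) : ∃ T : V → ℤ → KK V, G.IsT T :=
  ⟨G.sol (posCone V) ⟨xv, xv_mem⟩, fun v => G.sol_init _ _ v, G.sol_rel _ _⟩

/-- A subfield containing the evolved variables is everything. -/
theorem IsT.subfield_eq_top (h : G.IsT T) (E : Subfield (KK V))
    (hE : ∀ v, T v (G.ε v + 2) ∈ E) : E = ⊤ := by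
  have h1 : ∀ v, G.ε v = 1 → T v 1 ∈ E := by
    intro v hv
    have e := h.rel.up1 hv 1
    have h3 : T v 3 ∈ E := by
      have := hE v
      rwa [hv] at this
    have h3' : T v 3 ≠ 0 := h.ne (by rw [hv]; decide)
    have e2 : T v 1 = G.rhs (fun u => T u 2) v / T v 3 := by
      rw [eq_div_iff h3', mul_comm]
      exact e
    rw [e2]
    refine E.div_mem (G.rhs_mem_subfield E _ v fun u hu => ?_) h3
    have := hE u
    rw [hu, hv] at this
    simpa using this
  apply Pool.Agent.H15.TSys.subfield_eq_top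
  intro v
  rw [← h.init]
  rcases G.hε v with hv | hv
  · rw [hv]
    have e := h.rel.up0 hv 0
    have h3 : T v 2 ∈ E := by
      have := hE v
      rwa [hv] at this
    have h3' : T v 2 ≠ 0 := h.ne (by rw [hv]; decide)
    have e2 : T v 0 = G.rhs (fun u => T u 1) v / T v 2 := by
      rw [eq_div_iff h3', mul_comm]
      exact e
    rw [e2]
    refine E.div_mem (G.rhs_mem_subfield E _ v fun u hu => ?_) h3
    exact h1 u (by rw [hu, hv]; norm_num)
  · rw [hv]
    exact h1 v hv

theorem algebraicIndependent_xv : AlgebraicIndependent ℚ (xv (V := V)) :=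
  (MvPolynomial.algebraicIndependent_X V ℚ).map'
    (f := IsScalarTower.toAlgHom ℚ (MvPolynomial V ℚ) (KK V))
    (IsFractionRing.injective (MvPolynomial V ℚ) (KK V))

open IntermediateField.algebraAdjoinAdjoin in
theorem IsT.algebraicIndependent [Finite V] (h : G.IsT T) :
    AlgebraicIndependent ℚ (fun v => T v (G.ε v + 2)) := by
  set y := fun v => T v (G.ε v + 2) with hy
  have htop : (IntermediateField.adjoin ℚ (Set.range y)).toSubfield = ⊤ :=
    h.subfield_eq_top _ fun v => IntermediateField.subset_adjoin ℚ _ ⟨v, rfl⟩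
  have hmem : ∀ z : KK V, z ∈ IntermediateField.adjoin ℚ (Set.range y) := by
    intro z
    have : z ∈ (IntermediateField.adjoin ℚ (Set.range y)).toSubfield := by rw [htop]; trivial
    exact this
  have halg : Algebra.IsAlgebraic (Algebra.adjoin ℚ (Set.range y)) (KK V) := by
    refine ⟨fun z => ?_⟩
    have h1 : IsAlgebraic (Algebra.adjoin ℚ (Set.range y))
        (⟨z, hmem z⟩ : IntermediateField.adjoin ℚ (Set.range y)) :=
      Algebra.IsAlgebraic.isAlgebraic _
    obtain ⟨p, hp, hz⟩ := h1
    refine ⟨p, hp, ?_⟩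
    have h2 := congrArg (algebraMap (IntermediateField.adjoin ℚ (Set.range y)) (KK V)) hz
    rw [map_zero, ← Polynomial.aeval_algebraMap_apply] at h2
    exact h2
  have hle : Cardinal.mk V ≤ Algebra.trdeg ℚ (KK V) :=
    algebraicIndependent_xv.cardinalMk_le_trdeg
  exact (Algebra.IsAlgebraic.isTranscendenceBasis_of_le_trdeg_of_finite ℚ y hle).1

/-- The time evolution as an automorphism of the field. -/
theorem IsT.exists_sigma [Finite V] (h : G.IsT T) :
    ∃ σ : KK V ≃+* KK V, (∀ v, σ (xv v) = T v (G.ε v + 2)) ∧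
      ∀ v t, Even (t + G.ε v) → σ (T v t) = T v (t + 2) := by
  have hinj : Function.Injective
      (MvPolynomial.aeval (fun v => T v (G.ε v + 2)) : MvPolynomial V ℚ →ₐ[ℚ] KK V).toRingHom :=
    h.algebraicIndependent
  set σ : KK V →+* KK V := IsFractionRing.lift hinj with hσ
  have hσx : ∀ v, σ (xv v) = T v (G.ε v + 2) := by
    intro v
    rw [hσ, xv, IsFractionRing.lift_algebraMap]
    simp
  have hsurj : Function.Surjective σ := by
    have : σ.fieldRange = ⊤ := h.subfield_eq_top _ fun v => ⟨xv v, hσx v⟩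
    exact RingHom.fieldRange_eq_top_iff.mp this
  refine ⟨RingEquiv.ofBijective σ ⟨σ.injective, hsurj⟩, hσx, ?_⟩
  intro v t ht
  change σ (T v t) = T v (t + 2)
  have hrel1 : G.Rel (fun v t => σ (T v t)) := by
    intro v t ht
    have := congrArg σ (h.rel v t ht)
    rw [map_mul, map_add, map_prod, map_prod] at this
    exact this
  have hrel2 : G.Rel (fun v t => T v (t + 2)) := by
    intro v t ht
    have := h.rel v (t + 2) (by
      obtain ⟨r, hr⟩ := ht
      exact ⟨r + 1, by linarith⟩)
    rw [show t + 2 + 1 = t + 1 + 2 by ring, show t + 2 - 1 = t - 1 + 2 by ring] at this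
    exact this
  have h0 : ∀ v, (fun v t => σ (T v t)) v (G.ε v) = (fun v t => T v (t + 2)) v (G.ε v) := by
    intro v
    change σ (T v (G.ε v)) = T v (G.ε v + 2)
    rw [h.init, hσx]
  refine G.eq_of_rel (posCone V) hrel1 hrel2 (fun v => ?_) h0 ht
  have e := h0 v
  change σ (T v (G.ε v)) = T v (G.ε v + 2) at e
  change σ (T v (G.ε v)) ∈ _
  rw [e]
  exact h.pos ⟨G.ε v + 1, by ring⟩

end Sys

end Pool.Agent.H15.TSys
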