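import Mathlib

/-!
# T-systems of bigraphs: existence, uniqueness, positivity, the time evolution automorphism,
and the passage from any linear recurrence to one with conserved coefficients.
-/

namespace Pool.Agent.H15.TSys

open Finset

/-- A set of nonzero elements of a field closed under sums, products and inverses. -/
structure Cone (F : Type*) [Field F] where
  S : Set F
  one : (1 : F) ∈ S
  add : ∀ {a b : F}, a ∈ S → b ∈ S → a + b ∈ S
  mul : ∀ {a b : F}, a ∈ S → b ∈ S → a * b ∈ S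
  inv : ∀ {a : F}, a ∈ S → a⁻¹ ∈ S
  zero : (0 : F) ∉ S

namespace Cone
variable {F : Type*} [Field F] (P : Cone F)

theorem ne {a : F} (h : a ∈ P.S) : a ≠ 0 := fun h0 => P.zero (h0 ▸ h)

theorem div {a b : F} (ha : a ∈ P.S) (hb : b ∈ P.S) : a / b ∈ P.S := by
  rw [div_eq_mul_inv]; exact P.mul ha (P.inv hb)

theorem prod {ι : Type*} (s : Finset ι) (f : ι → F) (h : ∀ i ∈ s, f i ∈ P.S) :
    ∏ i ∈ s, f i ∈ P.S := by
  classical
  induction s using Finset.induction_on with
  | empty => simpa using P.one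
  | insert a s ha ih =>
    rw [Finset.prod_insert ha]
    exact P.mul (h a (by simp)) (ih fun i hi => h i (by simp [hi]))

end Cone

/-- A finite set of vertices with two families of neighbours, both of the other colour. -/
structure Sys (V : Type) where
  N : V → Finset V
  M : V → Finset V
  ε : V → ℤ
  hε : ∀ v, ε v = 0 ∨ ε v = 1
  hN : ∀ v, ∀ u ∈ N v, ε u ≠ ε v
  hM : ∀ v, ∀ u ∈ M v, ε u ≠ ε v

namespace Sys
variable {V : Type} (G : Sys V) {F : Type*} [Field F]

/-- The defining relation of the T-system. -/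
def Rel (T : V → ℤ → F) : Prop :=
  ∀ v t, Even (t + 1 + G.ε v) →
    T v (t + 1) * T v (t - 1) = ∏ u ∈ G.N v, T u t + ∏ u ∈ G.M v, T u t

/-- The right hand side on a state. -/
def rhs (x : V → F) (v : V) : F := ∏ u ∈ G.N v, x u + ∏ u ∈ G.M v, x u

theorem εN {v u : V} (h : u ∈ G.N v) : G.ε u = 1 - G.ε v := by
  have := G.hN v u h
  rcases G.hε v with h1 | h1 <;> rcases G.hε u with h2 | h2 <;> omega

theorem εM {v u : V} (h : u ∈ G.M v) : G.ε u = 1 - G.ε v := by
  have := G.hM v u h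
  rcases G.hε v with h1 | h1 <;> rcases G.hε u with h2 | h2 <;> omega

theorem rhs_congr (x y : V → F) (v : V) (h : ∀ u, G.ε u = 1 - G.ε v → x u = y u) :
    G.rhs x v = G.rhs y v := by
  unfold rhs
  rw [Finset.prod_congr rfl (fun u hu => h u (G.εN hu)),
    Finset.prod_congr rfl (fun u hu => h u (G.εM hu))]

theorem rhs_mem (P : Cone F) (x : V → F) (v : V) (h : ∀ u, G.ε u = 1 - G.ε v → x u ∈ P.S) :
    G.rhs x v ∈ P.S :=
  P.add (P.prod _ _ fun u hu => h u (G.εN hu)) (P.prod _ _ fun u hu => h u (G.εM hu))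

/-- forward step: the values of `T` one period later -/
theorem Rel.up0 {T : V → ℤ → F} {G : Sys V} (h : G.Rel T) {v : V} (hv : G.ε v = 0) (k : ℤ) :
    T v (2 * k + 2) * T v (2 * k) = G.rhs (fun u => T u (2 * k + 1)) v := by
  have := h v (2 * k + 1) (by rw [hv]; exact ⟨k + 1, by ring⟩)
  rw [show 2 * k + 1 + 1 = 2 * k + 2 by ring, show 2 * k + 1 - 1 = 2 * k by ring] at this
  exact this

theorem Rel.up1 {T : V → ℤ → F} {G : Sys V} (h : G.Rel T) {v : V} (hv : G.ε v = 1) (k : ℤ) :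
    T v (2 * k + 1) * T v (2 * k - 1) = G.rhs (fun u => T u (2 * k)) v := by
  have := h v (2 * k) (by rw [hv]; exact ⟨k + 1, by ring⟩)
  exact this

/-- One step forward and one step backward: if two solutions agree and are positive at the times
`ε v + 2 k`, the same holds at the times `ε v + 2 (k ± 1)`. -/
theorem step_pos (P : Cone F) {T T' : V → ℤ → F} (h : G.Rel T) (h' : G.Rel T') (k : ℤ)
    (hk : ∀ v, T v (G.ε v + 2 * k) = T' v (G.ε v + 2 * k) ∧ T v (G.ε v + 2 * k) ∈ P.S) :
    ∀ v, T v (G.ε v + 2 * (k + 1)) = T' v (G.ε v + 2 * (k + 1)) ∧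
      T v (G.ε v + 2 * (k + 1)) ∈ P.S := by
  have h0 : ∀ v, G.ε v = 0 → T v (2 * k + 2) = T' v (2 * k + 2) ∧ T v (2 * k + 2) ∈ P.S := by
    intro v hv
    have e1 := h.up0 hv k
    have e2 := h'.up0 hv k
    have kv := hk v
    rw [hv, zero_add] at kv
    have hne := P.ne kv.2
    have hu : ∀ u, G.ε u = 1 - G.ε v → T u (2 * k + 1) = T' u (2 * k + 1) ∧
        T u (2 * k + 1) ∈ P.S := by
      intro u hu
      have := hk u
      rw [hu, hv] at this
      rwa [show (1 - 0 + 2 * k : ℤ) = 2 * k + 1 by ring] at this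
    have e3 : G.rhs (fun u => T u (2 * k + 1)) v = G.rhs (fun u => T' u (2 * k + 1)) v :=
      G.rhs_congr _ _ v fun u h => (hu u h).1
    refine ⟨?_, ?_⟩
    · rw [← e3, ← e1, ← kv.1] at e2
      exact (mul_right_cancel₀ hne e2).symm
    · have : T v (2 * k + 2) = G.rhs (fun u => T u (2 * k + 1)) v / T v (2 * k) := by
        rw [← e1]; field_simp
      rw [this]
      exact P.div (G.rhs_mem P _ v fun u h => (hu u h).2) kv.2
  intro v
  rcases G.hε v with hv | hv
  · have := h0 v hv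
    rw [hv]
    rwa [show (0 + 2 * (k + 1) : ℤ) = 2 * k + 2 by ring]
  · have e1 := h.up1 hv (k + 1)
    have e2 := h'.up1 hv (k + 1)
    have kv := hk v
    rw [show (2 * (k + 1) - 1 : ℤ) = 1 + 2 * k by ring] at e1 e2
    rw [hv] at kv
    have hne := P.ne kv.2
    have hu : ∀ u, G.ε u = 1 - G.ε v → T u (2 * (k + 1)) = T' u (2 * (k + 1)) ∧
        T u (2 * (k + 1)) ∈ P.S := by
      intro u hu
      have := h0 u (by rw [hu, hv]; norm_num)
      rwa [show (2 * (k + 1) : ℤ) = 2 * k + 2 by ring]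
    have e3 : G.rhs (fun u => T u (2 * (k + 1))) v = G.rhs (fun u => T' u (2 * (k + 1))) v :=
      G.rhs_congr _ _ v fun u h => (hu u h).1
    rw [hv, show (1 + 2 * (k + 1) : ℤ) = 2 * (k + 1) + 1 by ring]
    refine ⟨?_, ?_⟩
    · rw [← e3, ← e1, ← kv.1] at e2
      exact (mul_right_cancel₀ hne e2).symm
    · have : T v (2 * (k + 1) + 1) = G.rhs (fun u => T u (2 * (k + 1))) v / T v (1 + 2 * k) := by
        rw [← e1]; field_simp
      rw [this]
      exact P.div (G.rhs_mem P _ v fun u h => (hu u h).2) kv.2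

theorem step_neg (P : Cone F) {T T' : V → ℤ → F} (h : G.Rel T) (h' : G.Rel T') (k : ℤ)
    (hk : ∀ v, T v (G.ε v + 2 * k) = T' v (G.ε v + 2 * k) ∧ T v (G.ε v + 2 * k) ∈ P.S) :
    ∀ v, T v (G.ε v + 2 * (k - 1)) = T' v (G.ε v + 2 * (k - 1)) ∧
      T v (G.ε v + 2 * (k - 1)) ∈ P.S := by
  have h0 : ∀ v, G.ε v = 1 → T v (2 * k - 1) = T' v (2 * k - 1) ∧ T v (2 * k - 1) ∈ P.S := by
    intro v hv
    have e1 := h.up1 hv k
    have e2 := h'.up1 hv k
    have kv := hk v
    rw [hv, add_comm] at kv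
    have hne := P.ne kv.2
    have hu : ∀ u, G.ε u = 1 - G.ε v → T u (2 * k) = T' u (2 * k) ∧
        T u (2 * k) ∈ P.S := by
      intro u hu
      have := hk u
      rw [hu, hv] at this
      rwa [show (1 - 1 + 2 * k : ℤ) = 2 * k by ring] at this
    have e3 : G.rhs (fun u => T u (2 * k)) v = G.rhs (fun u => T' u (2 * k)) v :=
      G.rhs_congr _ _ v fun u h => (hu u h).1
    refine ⟨?_, ?_⟩
    · rw [← e3, ← e1, ← kv.1] at e2
      exact (mul_left_cancel₀ hne e2).symm
    · have : T v (2 * k - 1) = G.rhs (fun u => T u (2 * k)) v / T v (2 * k + 1) := by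
        rw [← e1]; field_simp
      rw [this]
      exact P.div (G.rhs_mem P _ v fun u h => (hu u h).2) kv.2
  intro v
  rcases G.hε v with hv | hv
  · have e1 := h.up0 hv (k - 1)
    have e2 := h'.up0 hv (k - 1)
    have kv := hk v
    rw [show (2 * (k - 1) + 2 : ℤ) = 2 * k by ring] at e1 e2
    rw [hv, zero_add] at kv
    have hne := P.ne kv.2
    have hu : ∀ u, G.ε u = 1 - G.ε v → T u (2 * (k - 1) + 1) = T' u (2 * (k - 1) + 1) ∧
        T u (2 * (k - 1) + 1) ∈ P.S := by
      intro u hu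
      have := h0 u (by rw [hu, hv]; norm_num)
      rwa [show (2 * (k - 1) + 1 : ℤ) = 2 * k - 1 by ring]
    have e3 : G.rhs (fun u => T u (2 * (k - 1) + 1)) v =
        G.rhs (fun u => T' u (2 * (k - 1) + 1)) v :=
      G.rhs_congr _ _ v fun u h => (hu u h).1
    rw [hv, show (0 + 2 * (k - 1) : ℤ) = 2 * (k - 1) by ring]
    refine ⟨?_, ?_⟩
    · rw [← e3, ← e1, ← kv.1] at e2
      exact (mul_left_cancel₀ hne e2).symm
    · have : T v (2 * (k - 1)) = G.rhs (fun u => T u (2 * (k - 1) + 1)) v / T v (2 * k) := by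
        rw [← e1]; field_simp
      rw [this]
      exact P.div (G.rhs_mem P _ v fun u h => (hu u h).2) kv.2
  · have := h0 v hv
    rw [hv]
    rwa [show (1 + 2 * (k - 1) : ℤ) = 2 * k - 1 by ring]

/-- Uniqueness and positivity of the T-system with positive initial values. -/
theorem uniq_pos (P : Cone F) {T T' : V → ℤ → F} (h : G.Rel T) (h' : G.Rel T')
    (h0 : ∀ v, T v (G.ε v) = T' v (G.ε v) ∧ T v (G.ε v) ∈ P.S) (k : ℤ) :
    ∀ v, T v (G.ε v + 2 * k) = T' v (G.ε v + 2 * k) ∧ T v (G.ε v + 2 * k) ∈ P.S := by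
  induction k using Int.induction_on with
  | zero => simpa using h0
  | succ i ih => exact G.step_pos P h h' _ ih
  | pred i ih => exact G.step_neg P h h' _ ih

theorem adm {v : V} {t : ℤ} (h : Even (t + G.ε v)) : ∃ k, t = G.ε v + 2 * k := by
  obtain ⟨r, hr⟩ := h
  exact ⟨r - G.ε v, by linarith⟩

theorem pos_of_rel (P : Cone F) {T : V → ℤ → F} (h : G.Rel T) (h0 : ∀ v, T v (G.ε v) ∈ P.S)
    {v : V} {t : ℤ} (ht : Even (t + G.ε v)) : T v t ∈ P.S := by
  obtain ⟨k, rfl⟩ := G.adm ht
  exact (G.uniq_pos P h h (fun v => ⟨rfl, h0 v⟩) k v).2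

theorem eq_of_rel (P : Cone F) {T T' : V → ℤ → F} (h : G.Rel T) (h' : G.Rel T')
    (h0 : ∀ v, T v (G.ε v) ∈ P.S) (h1 : ∀ v, T v (G.ε v) = T' v (G.ε v))
    {v : V} {t : ℤ} (ht : Even (t + G.ε v)) : T v t = T' v t := by
  obtain ⟨k, rfl⟩ := G.adm ht
  exact (G.uniq_pos P h h' (fun v => ⟨h1 v, h0 v⟩) k v).1

/-! ### existence -/

/-- The half step: replace the values at colour `i`. -/
noncomputable def tau (i : ℤ) (x : V → F) : V → F := fun v =>
  if G.ε v = i then G.rhs x v / x v else x v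

/-- positive states -/
abbrev PState (_ : Sys V) (P : Cone F) := {x : V → F // ∀ v, x v ∈ P.S}

theorem tau_mem (P : Cone F) (i : ℤ) (x : V → F) (h : ∀ v, x v ∈ P.S) (v : V) :
    G.tau i x v ∈ P.S := by
  unfold tau
  split_ifs
  · exact P.div (G.rhs_mem P _ _ fun u _ => h u) (h v)
  · exact h v

theorem tau_tau (P : Cone F) (i : ℤ) (x : V → F) (h : ∀ v, x v ∈ P.S) :
    G.tau i (G.tau i x) = x := by
  funext v
  by_cases hv : G.ε v = i
  · have h1 : G.rhs (G.tau i x) v = G.rhs x v := by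
      apply G.rhs_congr
      intro u hu
      have : G.ε u ≠ i := by
        rw [hu, hv]
        rcases G.hε v with h | h <;> rw [hv] at h <;> rw [h] <;> norm_num
      simp [tau, this]
    have h2 : G.tau i x v = G.rhs x v / x v := by simp [tau, hv]
    have h3 : G.tau i (G.tau i x) v = G.rhs (G.tau i x) v / G.tau i x v := by
      conv_lhs => rw [tau]
      simp [hv]
    rw [h3, h1, h2]
    have := P.ne (h v)
    have := P.ne (G.rhs_mem P x v fun u _ => h u)
    field_simp
  · simp [tau, hv]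

/-- The half step as a permutation of the positive states. -/
noncomputable def tauP (P : Cone F) (i : ℤ) : Equiv.Perm (G.PState P) where
  toFun x := ⟨G.tau i x.1, G.tau_mem P i _ x.2⟩
  invFun x := ⟨G.tau i x.1, G.tau_mem P i _ x.2⟩
  left_inv x := Subtype.ext (G.tau_tau P i _ x.2)
  right_inv x := Subtype.ext (G.tau_tau P i _ x.2)

/-- The T-system with positive initial values `x`. -/
noncomputable def sol (P : Cone F) (x : G.PState P) (v : V) (t : ℤ) : F :=
  (((G.tauP P 1 * G.tauP P 0) ^ ((t - G.ε v) / 2)) x).1 v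

theorem sol_init (P : Cone F) (x : G.PState P) (v : V) : G.sol P x v (G.ε v) = x.1 v := by
  simp [sol]

theorem sol_rel (P : Cone F) (x : G.PState P) : G.Rel (G.sol P x) := by
  intro v t ht
  set Φ := G.tauP P 1 * G.tauP P 0 with hΦ
  rcases G.hε v with hv | hv
  · rw [hv] at ht
    obtain ⟨r, hr⟩ := ht
    obtain rfl : t = 2 * (r - 1) + 1 := by linarith
    set k := r - 1
    set y := (Φ ^ k) x with hy
    have h1 : G.sol P x v (2 * k + 1 + 1) = (G.tau 1 (G.tau 0 y.1)) v := by
      unfold sol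
      rw [hv, show (2 * k + 1 + 1 - 0) / 2 = 1 + k by omega, zpow_add, zpow_one]
      rfl
    have h2 : G.sol P x v (2 * k + 1 - 1) = y.1 v := by
      unfold sol
      rw [hv, show (2 * k + 1 - 1 - 0) / 2 = k by omega]
    have h3 : ∀ u, G.ε u = 1 - G.ε v → G.sol P x u (2 * k + 1) = y.1 u := by
      intro u hu
      unfold sol
      rw [hu, hv, show (2 * k + 1 - (1 - 0)) / 2 = k by omega]
    change _ = G.rhs (fun u => G.sol P x u (2 * k + 1)) v
    rw [G.rhs_congr _ y.1 v h3, h1, h2]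
    have := P.ne (y.2 v)
    simp only [tau, hv]
    norm_num
    field_simp
  · rw [hv] at ht
    obtain ⟨r, hr⟩ := ht
    obtain rfl : t = 2 * (r - 2) + 2 := by linarith
    set k := r - 2
    set y := (Φ ^ k) x with hy
    have h1 : G.sol P x v (2 * k + 2 + 1) = (G.tau 1 (G.tau 0 y.1)) v := by
      unfold sol
      rw [hv, show (2 * k + 2 + 1 - 1) / 2 = 1 + k by omega, zpow_add, zpow_one]
      rfl
    have h2 : G.sol P x v (2 * k + 2 - 1) = y.1 v := by
      unfold sol
      rw [hv, show (2 * k + 2 - 1 - 1) / 2 = k by omega]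
    have h3 : ∀ u, G.ε u = 1 - G.ε v → G.sol P x u (2 * k + 2) = (G.tau 0 y.1) u := by
      intro u hu
      have hu0 : G.ε u = 0 := by rw [hu, hv]; norm_num
      unfold sol
      rw [hu0, show (2 * k + 2 - 0) / 2 = 1 + k by omega, zpow_add, zpow_one]
      change G.tau 1 (G.tau 0 y.1) u = _
      conv_lhs => rw [tau]
      simp [hu0]
    change _ = G.rhs (fun u => G.sol P x u (2 * k + 2)) v
    rw [G.rhs_congr _ (G.tau 0 y.1) v h3, h1, h2]
    have hy0 : G.tau 0 y.1 v = y.1 v := by simp [tau, hv]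
    have := P.ne (y.2 v)
    conv_lhs => rw [tau]
    simp only [hv, if_true]
    rw [hy0]
    field_simp

end Sys

end Pool.Agent.H15.TSys
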