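import Pool.Agent.H15.TSys.Rank

/-!
# Arrays on the square lattice attached to a two-coloured graph have finite rank
-/

namespace Pool.Agent.H15.TSys

open Finset

section
variable {I : Type} [DecidableEq I] {K : Type*} [Field K] (nb : I → Finset I) (col : I → Bool)

/-- advance the front at one node -/
def stepF (x : I → ℕ) (w : I) : I → ℕ := Function.update x w (x w + 1)

/-- advance the front along a word -/
def adv (x : I → ℕ) : List I → (I → ℕ)
  | [] => x
  | w :: u => adv (stepF x w) u

/-- the node `w` can be crossed at the front `x` -/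
def Fr (x : I → ℕ) (w : I) : Prop := ∀ u ∈ nb w, x u = if col w then x w + 1 else x w

/-- all letters of the word can be crossed -/
def GoodW (x : I → ℕ) : List I → Prop
  | [] => True
  | w :: u => Fr nb col x w ∧ GoodW (stepF x w) u

/-- the two families of square relations -/
structure Lat (T : I → ℕ → ℕ → K) : Prop where
  r0 : ∀ w, col w = false → ∀ a b,
    T w (a + 1) (b + 1) * T w a b = T w (a + 1) b * T w a (b + 1) + ∏ u ∈ nb w, T u a b
  r1 : ∀ w, col w = true → ∀ a b,
    T w (a + 1) (b + 1) * T w a b =
      T w (a + 1) b * T w a (b + 1) + ∏ u ∈ nb w, T u (a + 1) (b + 1)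
  ne : ∀ w a b, T w a b ≠ 0

/-- the vector of values at a pair of fronts -/
def TT (T : I → ℕ → ℕ → K) (x y : I → ℕ) : I → K := fun w => T w (x w) (y w)

def lx (T : I → ℕ → ℕ → K) (x y : I → ℕ) : List I → List (Letter I K)
  | [] => []
  | w :: u => ⟨w, 1, T w (x w + 1) (y w)⟩ :: lx T (stepF x w) y u

def ly (T : I → ℕ → ℕ → K) (x y : I → ℕ) : List I → List (Letter I K)
  | [] => []
  | w :: u => ⟨w, 1, T w (x w) (y w + 1)⟩ :: ly T x (stepF y w) u

variable {nb col}

theorem act_lx (T : I → ℕ → ℕ → K) (x y : I → ℕ) (w : I) :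
    act (TT T x y) ⟨w, 1, T w (x w + 1) (y w)⟩ = TT T (stepF x w) y := by
  funext u
  unfold act TT stepF
  by_cases h : u = w
  · subst h; simp
  · simp [h]

theorem act_ly (T : I → ℕ → ℕ → K) (x y : I → ℕ) (w : I) :
    act (TT T x y) ⟨w, 1, T w (x w) (y w + 1)⟩ = TT T x (stepF y w) := by
  funext u
  unfold act TT stepF
  by_cases h : u = w
  · subst h; simp
  · simp [h]

theorem ends_lx (T : I → ℕ → ℕ → K) (x y : I → ℕ) (u : List I) :
    ends (TT T x y) (lx T x y u) = TT T (adv x u) y := by
  induction u generalizing x with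
  | nil => rfl
  | cons w u ih => simp only [lx, ends, adv]; rw [act_lx, ih]

theorem ends_ly (T : I → ℕ → ℕ → K) (x y : I → ℕ) (u : List I) :
    ends (TT T x y) (ly T x y u) = TT T x (adv y u) := by
  induction u generalizing y with
  | nil => rfl
  | cons w u ih => simp only [ly, ends, adv]; rw [act_ly, ih]

theorem Lat.value {T : I → ℕ → ℕ → K} (h : Lat nb col T) {x y : I → ℕ} {w : I}
    (hx : Fr nb col x w) (hy : Fr nb col y w) :
    (T w (x w + 1) (y w) * T w (x w) (y w + 1) + 1 * 1 * nbp nb (TT T x y) w) / TT T x y w =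
      T w (x w + 1) (y w + 1) := by
  unfold TT nbp
  rw [div_eq_iff (h.ne _ _ _)]
  cases hc : col w with
  | false =>
    rw [h.r0 w hc, one_mul, one_mul]
    congr 1
    refine Finset.prod_congr rfl fun u hu => ?_
    change T u (x u) (y u) = _
    rw [hx u hu, hy u hu, hc]; rfl
  | true =>
    rw [h.r1 w hc, one_mul, one_mul]
    congr 1
    refine Finset.prod_congr rfl fun u hu => ?_
    change T u (x u) (y u) = _
    rw [hx u hu, hy u hu, hc]; rfl

theorem Lat.cross_x {T : I → ℕ → ℕ → K} (h : Lat nb col T) {x y : I → ℕ} {w w' : I}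
    (hx : Fr nb col x w) (hy : Fr nb col y w') :
    cross nb (TT T x y) ⟨w, 1, T w (x w + 1) (y w)⟩ ⟨w', 1, T w' (x w') (y w' + 1)⟩ =
      ⟨w, 1, T w (x w + 1) (stepF y w' w)⟩ := by
  by_cases hw : w = w'
  · subst hw
    rw [cross_same, h.value hx hy]
    simp [stepF]
  · rw [cross_diff _ hw]
    simp [stepF, hw]

theorem Lat.cross_y {T : I → ℕ → ℕ → K} (h : Lat nb col T) {x y : I → ℕ} {w w' : I}
    (hx : Fr nb col x w) (hy : Fr nb col y w') :
    cross nb (TT T x y) ⟨w', 1, T w' (x w') (y w' + 1)⟩ ⟨w, 1, T w (x w + 1) (y w)⟩ =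
      ⟨w', 1, T w' (stepF x w w') (y w' + 1)⟩ := by
  by_cases hw : w = w'
  · subst hw
    rw [cross_same, mul_comm (T w (x w) (y w + 1)), h.value hx hy]
    simp [stepF]
  · rw [cross_diff _ (Ne.symm hw)]
    simp [stepF, Ne.symm hw]

theorem Lat.pass1_ly {T : I → ℕ → ℕ → K} (h : Lat nb col T) {x y : I → ℕ} {w : I}
    (hx : Fr nb col x w) {u : List I} (hu : GoodW nb col y u) :
    pass1 nb (TT T x y) ⟨w, 1, T w (x w + 1) (y w)⟩ (ly T x y u) = ly T (stepF x w) y u := by
  induction u generalizing y with
  | nil => rfl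
  | cons w' u ih =>
    simp only [ly, pass1]
    rw [h.cross_y hx hu.1, h.cross_x hx hu.1, act_ly, ih hu.2]

theorem Lat.pass_ly {T : I → ℕ → ℕ → K} (h : Lat nb col T) {x y : I → ℕ} {u u' : List I}
    (hu : GoodW nb col x u) (hu' : GoodW nb col y u') :
    pass nb (TT T x y) (lx T x y u) (ly T x y u') = ly T (adv x u) y u' := by
  induction u generalizing x with
  | nil => rfl
  | cons w u ih =>
    simp only [lx, pass, adv]
    rw [h.pass1_ly hu.1 hu', act_lx, ih hu.2]

theorem Lat.corner {T : I → ℕ → ℕ → K} (h : Lat nb col T) {x y : I → ℕ} {u u' : List I}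
    (hu : GoodW nb col x u) (hu' : GoodW nb col y u') :
    corner nb (TT T x y) (lx T x y u) (ly T x y u') = TT T (adv x u) (adv y u') := by
  unfold Pool.Agent.H15.TSys.corner
  rw [ends_lx, h.pass_ly hu hu', ends_ly]

theorem GoodW_append (x : I → ℕ) (u u' : List I) :
    GoodW nb col x (u ++ u') ↔ GoodW nb col x u ∧ GoodW nb col (adv x u) u' := by
  induction u generalizing x with
  | nil => simp [GoodW, adv]
  | cons w u ih => simp only [List.cons_append, GoodW, ih, adv, and_assoc]

theorem adv_append (x : I → ℕ) (u u' : List I) : adv x (u ++ u') = adv (adv x u) u' := by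
  induction u generalizing x with
  | nil => rfl
  | cons w u ih => simp only [List.cons_append, ih, adv]

theorem adv_nodup (x : I → ℕ) (u : List I) (hu : u.Nodup) :
    adv x u = fun w => if w ∈ u then x w + 1 else x w := by
  induction u generalizing x with
  | nil => funext w; simp [adv]
  | cons w u ih =>
    rw [List.nodup_cons] at hu
    simp only [adv]
    rw [ih _ hu.2]
    funext z
    unfold stepF
    by_cases hz : z = w
    · subst hz; simp [hu.1]
    · simp [hz]

/-- a word without repetition in nodes of one colour is good if the neighbours are where they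
should be -/
theorem GoodW_nodup (hcol : ∀ w, ∀ u ∈ nb w, col u ≠ col w) (c : Bool) (x : I → ℕ) (a : ℕ)
    (u : List I) (hu : u.Nodup) (hc : ∀ w ∈ u, col w = c) (hx : ∀ w ∈ u, x w = a)
    (hx' : ∀ w, col w ≠ c → x w = if c then a + 1 else a) : GoodW nb col x u := by
  induction u generalizing x with
  | nil => trivial
  | cons w u ih =>
    rw [List.nodup_cons] at hu
    refine ⟨?_, ih _ hu.2 (fun z hz => hc z (by simp [hz])) ?_ ?_⟩
    · intro z hz
      have h1 := hc w (by simp)
      rw [h1, hx w (by simp)]
      exact hx' z (by rw [← h1]; exact hcol w z hz)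
    · intro z hz
      unfold stepF
      rw [Function.update_of_ne]
      · exact hx z (by simp [hz])
      · rintro rfl; exact hu.1 hz
    · intro z hz
      unfold stepF
      rw [Function.update_of_ne]
      · exact hx' z hz
      · rintro rfl; exact hz (hc z (by simp))

variable [Fintype I]

/-- one period: first the nodes of colour `false`, then those of colour `true` -/
noncomputable def period (col : I → Bool) : List I :=
  (Finset.univ.filter fun w => col w = false).toList ++
    (Finset.univ.filter fun w => col w = true).toList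

theorem period_adv (a : ℕ) : adv (fun _ : I => a) (period col) = fun _ => a + 1 := by
  unfold period
  rw [adv_append, adv_nodup _ _ (Finset.nodup_toList _), adv_nodup _ _ (Finset.nodup_toList _)]
  funext w
  simp only [Finset.mem_toList, Finset.mem_filter, Finset.mem_univ, true_and]
  cases hc : col w <;> simp

theorem period_good (hcol : ∀ w, ∀ u ∈ nb w, col u ≠ col w) (a : ℕ) :
    GoodW nb col (fun _ : I => a) (period col) := by
  unfold period
  rw [GoodW_append]
  refine ⟨?_, ?_⟩
  · apply GoodW_nodup hcol false _ a _ (Finset.nodup_toList _)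
    · intro w hw; simpa using hw
    · intro _ _; rfl
    · intro _ _; rfl
  · rw [adv_nodup _ _ (Finset.nodup_toList _)]
    apply GoodW_nodup hcol true _ a _ (Finset.nodup_toList _)
    · intro w hw; simpa using hw
    · intro w hw
      have : col w = true := by simpa using hw
      simp [this]
    · intro w hw
      have : col w = false := by simpa using hw
      simp [this]

/-- several periods -/
noncomputable def periods (col : I → Bool) : ℕ → List I
  | 0 => []
  | n + 1 => periods col n ++ period col

theorem periods_adv (n : ℕ) : adv (fun _ : I => 0) (periods col n) = fun _ => n := by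
  induction n with
  | zero => rfl
  | succ n ih => rw [periods, adv_append, ih, period_adv]

theorem periods_good (hcol : ∀ w, ∀ u ∈ nb w, col u ≠ col w) (n : ℕ) :
    GoodW nb col (fun _ : I => 0) (periods col n) := by
  induction n with
  | zero => trivial
  | succ n ih =>
    rw [periods, GoodW_append, periods_adv]
    exact ⟨ih, period_good hcol n⟩

theorem lx_pos {P : Cone K} {T : I → ℕ → ℕ → K} (hT : ∀ w a b, T w a b ∈ P.S) (x y : I → ℕ)
    (u : List I) : PosW P (lx T x y u) := by
  induction u generalizing x with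
  | nil => exact PosW.nil
  | cons w u ih => exact PosW.cons ⟨P.one, hT _ _ _⟩ (ih _)

theorem ly_pos {P : Cone K} {T : I → ℕ → ℕ → K} (hT : ∀ w a b, T w a b ∈ P.S) (x y : I → ℕ)
    (u : List I) : PosW P (ly T x y u) := by
  induction u generalizing y with
  | nil => exact PosW.nil
  | cons w u ih => exact PosW.cons ⟨P.one, hT _ _ _⟩ (ih _)

/-- **Finite rank on the square lattice.** -/
theorem Lat.finRk [Algebra ℚ K] (hirr : ∀ i, i ∉ nb i) (hsymm : ∀ i j, i ∈ nb j → j ∈ nb i)
    (hcol : ∀ w, ∀ u ∈ nb w, col u ≠ col w)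
    (f : I → ℕ) (hf : ∀ i, ∑ j ∈ nb i, f j < 2 * f i) {P : Cone K}
    {T : I → ℕ → ℕ → K} (h : Lat nb col T) (hT : ∀ w a b, T w a b ∈ P.S) (w : I) :
    FinRk (fun a b => T w a b) := by
  refine (finRk_corner (P := P) (v := TT T (fun _ => 0) (fun _ => 0)) hirr hsymm f hf
    (fun w => hT _ _ _) (fun a : ℕ => lx T (fun _ => 0) (fun _ => 0) (periods col a))
    (fun b : ℕ => ly T (fun _ => 0) (fun _ => 0) (periods col b)) (fun a => lx_pos hT _ _ _)
    (fun b => ly_pos hT _ _ _) w).congr fun a b => ?_
  rw [h.corner (periods_good hcol a) (periods_good hcol b), periods_adv, periods_adv]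
  rfl

end

end Pool.Agent.H15.TSys
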