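import Pool.Agent.H15.TSys.Roots

/-!
# Bounded length of reduced words for a graph with a strictly subadditive function
-/

namespace Pool.Agent.H15.TSys

open Finset

section
variable {I : Type} [DecidableEq I] [Fintype I] (nb : I → Finset I)

/-- the bilinear form -/
def BB (α β : I → ℤ) : ℤ := ∑ i, α i * bw nb i β

variable {nb}
variable (hirr : ∀ i, i ∉ nb i) (hsymm : ∀ i j, i ∈ nb j → j ∈ nb i)

include hsymm in
theorem sum_nb_comm {R : Type*} [CommRing R] (g : I → I → R) :
    ∑ i, ∑ j ∈ nb i, g i j = ∑ i, ∑ j ∈ nb i, g j i :=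
  Finset.sum_comm' (by
    intro x y
    simp only [Finset.mem_univ, true_and, and_true]
    exact ⟨hsymm _ _, hsymm _ _⟩)

theorem BB_eq (α β : I → ℤ) :
    BB nb α β = 2 * ∑ i, α i * β i - ∑ i, ∑ j ∈ nb i, α i * β j := by
  unfold BB bw
  rw [Finset.mul_sum, ← Finset.sum_sub_distrib]
  refine Finset.sum_congr rfl fun i _ => ?_
  rw [← Finset.mul_sum]
  ring

include hsymm in
theorem BB_comm (α β : I → ℤ) : BB nb α β = BB nb β α := by
  rw [BB_eq, BB_eq, sum_nb_comm hsymm]
  congr 1
  · congr 1; exact Finset.sum_congr rfl fun i _ => mul_comm _ _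
  · exact Finset.sum_congr rfl fun i _ => Finset.sum_congr rfl fun j _ => mul_comm _ _

theorem BB_sr (i : I) (β : I → ℤ) : BB nb (sr i) β = bw nb i β := by
  unfold BB sr
  rw [Finset.sum_eq_single i]
  · simp
  · intro j _ hj
    rw [Pi.single_eq_of_ne hj, zero_mul]
  · simp

theorem BB_sub_smul (α β γ : I → ℤ) (c : ℤ) :
    BB nb (α - c • β) γ = BB nb α γ - c * BB nb β γ := by
  unfold BB
  rw [Finset.mul_sum, ← Finset.sum_sub_distrib]
  refine Finset.sum_congr rfl fun i _ => ?_
  simp only [Pi.sub_apply, Pi.smul_apply, smul_eq_mul]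
  ring

include hirr hsymm in
theorem BB_refl (i : I) (α : I → ℤ) :
    BB nb (refl nb i α) (refl nb i α) = BB nb α α := by
  unfold refl
  set c := bw nb i α with hc
  have h1 : BB nb (sr i) α = c := BB_sr i α
  have h2 : BB nb α (sr i) = c := by rw [BB_comm hsymm, h1]
  have h3 : BB nb (sr i) (sr i) = 2 := by rw [BB_sr, bw_self hirr]
  rw [BB_sub_smul, BB_comm hsymm α (α - c • sr i), BB_comm hsymm (sr i) (α - c • sr i),
    BB_sub_smul, BB_sub_smul, h1, h2, h3]
  ring

include hirr hsymm in
theorem BB_wact (u : List I) (α : I → ℤ) :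
    BB nb (wact nb u α) (wact nb u α) = BB nb α α := by
  induction u with
  | nil => rfl
  | cons s u ih => simp only [wact]; rw [BB_refl hirr hsymm, ih]

include hirr in
theorem BB_sr_sr (i : I) : BB nb (sr i) (sr i) = 2 := by
  rw [BB_sr, bw_self hirr]

include hirr hsymm in
theorem even_cross (α : I → ℤ) : Even (∑ i, ∑ j ∈ nb i, α i * α j) := by
  rw [← ZMod.intCast_eq_zero_iff_even]
  push_cast
  rw [Finset.sum_sigma' Finset.univ nb (fun i j => (α i : ZMod 2) * (α j : ZMod 2))]
  refine Finset.sum_involution (fun p _ => ⟨p.2, p.1⟩) ?_ ?_ ?_ ?_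
  · intro p _
    simp only
    rw [mul_comm]
    exact CharTwo.add_self_eq_zero _
  · intro p hp _ heq
    have h1 : p.2 = p.1 := congrArg Sigma.fst heq
    rw [Finset.mem_sigma] at hp
    rw [h1] at hp
    exact hirr _ hp.2
  · intro p hp
    rw [Finset.mem_sigma] at hp ⊢
    exact ⟨Finset.mem_univ _, hsymm _ _ hp.2⟩
  · intro p _
    rfl

include hirr hsymm in
theorem even_BB (α : I → ℤ) : Even (BB nb α α) := by
  rw [BB_eq]
  exact (even_two_mul _).sub (even_cross hirr hsymm α)

variable (f : I → ℕ) (hf : ∀ i, ∑ j ∈ nb i, f j < 2 * f i)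

include hf in
theorem f_pos (i : I) : 0 < f i := by
  have := hf i
  omega

include hsymm hf in
/-- positivity of the form -/
theorem BB_ge (α : I → ℤ) : ∑ i, (α i : ℚ) ^ 2 / f i ≤ (BB nb α α : ℚ) := by
  have hfp : ∀ i, (0 : ℚ) < f i := fun i => by exact_mod_cast f_pos f hf i
  rw [BB_eq]
  push_cast
  have h1 : ∀ i j, (2 : ℚ) * ((α i : ℚ) * α j) ≤ (α i : ℚ) ^ 2 * f j / f i + (α j : ℚ) ^ 2 * f i / f j := by
    intro i j
    have a := hfp i
    have b := hfp j
    have : (α i : ℚ) ^ 2 * f j / f i + (α j : ℚ) ^ 2 * f i / f j - 2 * ((α i : ℚ) * α j) =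
        ((α i : ℚ) * f j - α j * f i) ^ 2 / (f i * f j) := by
      field_simp
      ring
    have h2 : 0 ≤ ((α i : ℚ) * f j - α j * f i) ^ 2 / (f i * f j) := by positivity
    linarith
  have h2 : 2 * ∑ i, ∑ j ∈ nb i, ((α i : ℚ) * α j) ≤
      ∑ i, ∑ j ∈ nb i, ((α i : ℚ) ^ 2 * f j / f i) + ∑ i, ∑ j ∈ nb i, ((α i : ℚ) ^ 2 * f j / f i) := by
    have e : ∑ i, ∑ j ∈ nb i, ((α i : ℚ) ^ 2 * f j / f i) =
        ∑ i, ∑ j ∈ nb i, ((α j : ℚ) ^ 2 * f i / f j) := sum_nb_comm hsymm _
    conv_rhs => rw [e]
    conv_rhs => lhs; rw [← e]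
    rw [← Finset.sum_add_distrib, Finset.mul_sum]
    refine Finset.sum_le_sum fun i _ => ?_
    rw [← Finset.sum_add_distrib, Finset.mul_sum]
    exact Finset.sum_le_sum fun j _ => h1 i j
  have h3 : ∑ i, ∑ j ∈ nb i, ((α i : ℚ) ^ 2 * f j / f i) ≤
      ∑ i, (2 * ((α i : ℚ) * α i) - (α i : ℚ) ^ 2 / f i) := by
    refine Finset.sum_le_sum fun i _ => ?_
    have a := hfp i
    have h4 : (∑ j ∈ nb i, (f j : ℚ)) ≤ 2 * f i - 1 := by
      have := hf i
      have h5 : ((∑ j ∈ nb i, f j : ℕ) : ℚ) + 1 ≤ 2 * f i := by exact_mod_cast this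
      push_cast at h5
      linarith
    have h6 : ∑ j ∈ nb i, ((α i : ℚ) ^ 2 * f j / f i) = (α i : ℚ) ^ 2 / f i * ∑ j ∈ nb i, (f j : ℚ) := by
      rw [Finset.mul_sum]
      exact Finset.sum_congr rfl fun j _ => by ring
    rw [h6]
    have h7 : (α i : ℚ) ^ 2 / f i * ∑ j ∈ nb i, (f j : ℚ) ≤ (α i : ℚ) ^ 2 / f i * (2 * f i - 1) :=
      mul_le_mul_of_nonneg_left h4 (by positivity)
    refine h7.trans (le_of_eq ?_)
    field_simp
  rw [Finset.sum_sub_distrib, ← Finset.mul_sum] at h3
  linarith

include hsymm hf in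
theorem BB_pos {α : I → ℤ} (h : α ≠ 0) : 0 < BB nb α α := by
  have h1 := BB_ge hsymm f hf α
  have h2 : (0 : ℚ) < ∑ i, (α i : ℚ) ^ 2 / f i := by
    obtain ⟨i, hi⟩ := Function.ne_iff.mp h
    refine Finset.sum_pos' (fun j _ => by positivity) ⟨i, Finset.mem_univ _, ?_⟩
    have a : (0 : ℚ) < f i := by exact_mod_cast f_pos f hf i
    have b : (α i : ℚ) ≠ 0 := by exact_mod_cast hi
    positivity
  exact_mod_cast h2.trans_le h1

include hsymm hf in
theorem coord_le {α : I → ℤ} (h : BB nb α α = 2) (i : I) : |α i| ≤ 2 * f i := by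
  have h1 := BB_ge hsymm f hf α
  rw [h] at h1
  have h2 : (α i : ℚ) ^ 2 / f i ≤ ∑ i, (α i : ℚ) ^ 2 / f i :=
    Finset.single_le_sum (f := fun i => (α i : ℚ) ^ 2 / f i) (fun j _ => by positivity)
      (Finset.mem_univ i)
  have a : (0 : ℚ) < f i := by exact_mod_cast f_pos f hf i
  have h3 : (α i : ℚ) ^ 2 ≤ 2 * f i := by
    have h4 := h2.trans h1
    rw [div_le_iff₀ a] at h4
    push_cast at h4
    exact h4
  have h5 : (α i) ^ 2 ≤ 2 * (f i : ℤ) := by exact_mod_cast h3
  have h6 : |α i| ≤ (α i) ^ 2 := by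
    rw [← sq_abs]
    rcases eq_or_lt_of_le (abs_nonneg (α i)) with h7 | h7
    · rw [← h7]; norm_num
    · nlinarith
  linarith

include hsymm hf in
theorem finite_roots : {α : I → ℤ | BB nb α α = 2 ∧ 0 ≤ α}.Finite := by
  refine (Set.finite_Icc (fun i => -(2 * (f i : ℤ))) (fun i => 2 * (f i : ℤ))).subset ?_
  rintro α ⟨h, _⟩
  exact ⟨fun i => (abs_le.mp (coord_le hsymm f hf h i)).1,
    fun i => (abs_le.mp (coord_le hsymm f hf h i)).2⟩

include hirr hsymm hf in
theorem sign {α : I → ℤ} (h : BB nb α α = 2) : 0 ≤ α ∨ α ≤ 0 := by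
  by_contra hcon
  push_neg at hcon
  obtain ⟨h1, h2⟩ := hcon
  set p : I → ℤ := fun i => max (α i) 0 with hp
  set n : I → ℤ := fun i => max (-α i) 0 with hn
  have hα : α = p - (1 : ℤ) • n := by
    funext i
    simp only [hp, hn, Pi.sub_apply, Pi.smul_apply, smul_eq_mul, one_mul]
    rcases le_total 0 (α i) with h3 | h3
    · rw [max_eq_left h3, max_eq_right (by linarith)]; ring
    · rw [max_eq_right h3, max_eq_left (by linarith)]; ring
  have hp0 : p ≠ 0 := by
    intro h0
    apply h2
    intro i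
    have := congrFun h0 i
    simp only [hp, Pi.zero_apply] at this
    have := le_max_left (α i) 0
    simp only [Pi.zero_apply]
    omega
  have hn0 : n ≠ 0 := by
    intro h0
    apply h1
    intro i
    have := congrFun h0 i
    simp only [hn, Pi.zero_apply] at this
    have := le_max_left (-α i) 0
    simp only [Pi.zero_apply]
    omega
  have e1 : BB nb p n ≤ 0 := by
    rw [BB_eq]
    have h3 : ∑ i, p i * n i = 0 := by
      refine Finset.sum_eq_zero fun i _ => ?_
      simp only [hp, hn]
      rcases le_total 0 (α i) with h3 | h3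
      · rw [max_eq_right (show -α i ≤ 0 by linarith), mul_zero]
      · rw [max_eq_right h3, zero_mul]
    have h4 : 0 ≤ ∑ i, ∑ j ∈ nb i, p i * n j :=
      Finset.sum_nonneg fun i _ => Finset.sum_nonneg fun j _ =>
        mul_nonneg (le_max_right _ _) (le_max_right _ _)
    rw [h3]
    linarith
  have e2 : BB nb α α = BB nb p p + BB nb n n - 2 * BB nb p n := by
    rw [hα, BB_sub_smul, BB_comm hsymm p, BB_comm hsymm n, BB_sub_smul, BB_sub_smul,
      BB_comm hsymm n p]
    ring
  have e3 := BB_pos hsymm f hf hp0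
  have e4 := BB_pos hsymm f hf hn0
  obtain ⟨a, ha⟩ := even_BB hirr hsymm p
  obtain ⟨b, hb⟩ := even_BB hirr hsymm n
  omega

include hirr hsymm hf in
/-- a simple reflection permutes the positive roots other than its own -/
theorem refl_pos {α : I → ℤ} (h : BB nb α α = 2) (h0 : 0 ≤ α) {s : I} (hs : α ≠ sr s) :
    0 ≤ refl nb s α := by
  rcases sign hirr hsymm f hf (α := refl nb s α) (by rw [BB_refl hirr hsymm, h]) with h1 | h1
  · exact h1
  · exfalso
    have h2 : ∀ j, j ≠ s → α j = 0 := by
      intro j hj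
      have a := h1 j
      have b := h0 j
      simp only [refl, sr, Pi.sub_apply, Pi.smul_apply, smul_eq_mul, Pi.single_eq_of_ne hj,
        mul_zero, sub_zero, Pi.zero_apply] at a b
      omega
    have h3 : α = 0 - (-α s) • sr s := by
      funext j
      by_cases hj : j = s
      · subst hj; simp [sr]
      · rw [h2 j hj]; simp [sr, Pi.single_eq_of_ne hj]
    have h4 : BB nb α α = α s * α s * 2 := by
      conv_lhs => rw [h3]
      rw [BB_sub_smul, BB_comm hsymm 0, BB_comm hsymm (sr s), BB_sub_smul, BB_sub_smul,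
        BB_sr_sr hirr]
      have : BB nb (0 : I → ℤ) 0 = 0 := by simp [BB]
      have h5 : BB nb (0 : I → ℤ) (sr s) = 0 := by simp [BB]
      have h6 : BB nb (sr s) (0 : I → ℤ) = 0 := by rw [BB_comm hsymm, h5]
      rw [this, h5, h6]
      ring
    have h5 : α s * α s = 1 := by linarith
    have h6 : α s = 1 := by
      have b := h0 s
      simp only [Pi.zero_apply] at b
      nlinarith
    apply hs
    rw [h3, h6]
    funext j
    simp

theorem nonneg_nonpos {α : I → ℤ} (h : 0 ≤ α) (h' : α ≤ 0) : α = 0 := le_antisymm h' h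

include hirr hsymm hf in
theorem length_le (u : List I) (hu : Red nb u) :
    u.length ≤ (finite_roots hsymm f hf).toFinset.card := by
  classical
  set R := (finite_roots hsymm f hf).toFinset with hR
  have hmem : ∀ β, β ∈ R ↔ BB nb β β = 2 ∧ 0 ≤ β := by
    intro β; simp [hR]
  have hz : BB nb (0 : I → ℤ) 0 = 0 := by simp [BB]
  suffices h : ∀ u : List I, Red nb u →
      u.length ≤ (R.filter fun β => wact nb u.reverse β ≤ 0).card from
    (h u hu).trans (Finset.card_filter_le _ _)
  intro u
  induction u using List.reverseRecOn with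
  | nil => intro _; simp
  | append_singleton u s ih =>
    intro hr
    obtain ⟨h1, h2⟩ := (Red_snoc u s).mp hr
    have h3 := ih h1
    have hws : BB nb (wact nb u (sr s)) (wact nb u (sr s)) = 2 := by
      rw [BB_wact hirr hsymm, BB_sr_sr hirr]
    have hinv : wact nb u.reverse (wact nb u (sr s)) = sr s := wact_reverse hirr u _
    have hsub : insert (wact nb u (sr s)) (R.filter fun β => wact nb u.reverse β ≤ 0) ⊆
        R.filter fun β => wact nb (u ++ [s]).reverse β ≤ 0 := by
      intro β hβ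
      rw [Finset.mem_insert] at hβ
      rw [Finset.mem_filter, List.reverse_append]
      change _ ∧ refl nb s (wact nb u.reverse β) ≤ 0
      rcases hβ with rfl | hβ
      · refine ⟨(hmem _).mpr ⟨hws, h2⟩, ?_⟩
        rw [hinv, refl_self hirr]
        intro i
        simp only [Pi.neg_apply, Pi.zero_apply, sr, Left.neg_nonpos_iff]
        by_cases hi : i = s
        · subst hi; simp
        · rw [Pi.single_eq_of_ne hi]
      · rw [Finset.mem_filter] at hβ
        obtain ⟨hb1, hb2⟩ := hβ
        refine ⟨hb1, ?_⟩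
        obtain ⟨hq, hb0⟩ := (hmem β).mp hb1
        set γ := wact nb u.reverse β with hγ
        have hβγ : wact nb u γ = β := wact_reverse' hirr u β
        have hne : -γ ≠ sr s := by
          intro h4
          have h5 : γ = - sr s := by rw [← h4, neg_neg]
          rw [h5, wact_neg] at hβγ
          have h6 : wact nb u (sr s) ≤ 0 := by
            intro i
            have a := hb0 i
            rw [← hβγ] at a
            simp only [Pi.neg_apply, Pi.zero_apply] at a ⊢
            linarith
          have h7 := nonneg_nonpos h2 h6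
          rw [h7, hz] at hws
          norm_num at hws
        have h8 : BB nb (-γ) (-γ) = 2 := by
          have : BB nb (-γ) (-γ) = BB nb γ γ := by
            simp only [BB, bw_neg, Pi.neg_apply, neg_mul_neg]
          rw [this, hγ, BB_wact hirr hsymm, hq]
        have h9 : 0 ≤ -γ := by
          intro i
          have := hb2 i
          simp only [Pi.zero_apply, Pi.neg_apply] at this ⊢
          linarith
        have h10 := refl_pos hirr hsymm f hf h8 h9 hne
        rw [refl_neg] at h10
        intro i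
        have := h10 i
        simp only [Pi.zero_apply, Pi.neg_apply] at this ⊢
        linarith
    have hnot : wact nb u (sr s) ∉ R.filter fun β => wact nb u.reverse β ≤ 0 := by
      rw [Finset.mem_filter, hinv]
      exact fun h => sr_not_nonpos s h.2
    have := Finset.card_le_card hsub
    rw [Finset.card_insert_of_notMem hnot] at this
    rw [List.length_append]
    simp only [List.length_cons, List.length_nil]
    omega

include hirr hsymm hf in
/-- Every word can be changed by moves into a reduced word. -/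
theorem exists_reduced (u : List I) : ∃ u', WStar nb u u' ∧ Red nb u' := by
  induction u using List.reverseRecOn with
  | nil => exact ⟨[], .refl, trivial⟩
  | append_singleton u s ih =>
    obtain ⟨u0, h1, h2⟩ := ih
    have h3 : WStar nb (u ++ [s]) (u0 ++ [s]) := h1.append [s]
    have hws : BB nb (wact nb u0 (sr s)) (wact nb u0 (sr s)) = 2 := by
      rw [BB_wact hirr hsymm, BB_sr_sr hirr]
    rcases sign hirr hsymm f hf hws with h4 | h4
    · exact ⟨u0 ++ [s], h3, (Red_snoc u0 s).mpr ⟨h2, h4⟩⟩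
    · obtain ⟨u1, h5⟩ := exchange hirr hsymm _ u0 rfl h2 s h4
      have h6 := (h5.props hirr hsymm).2.2 h2
      refine ⟨u1 ++ [s], ?_, h6⟩
      have h7 : WStar nb (u0 ++ [s]) (u1 ++ [s] ++ [s]) := h5.toW.append [s]
      have h8 : WMove nb (u1 ++ [s, s] ++ []) (u1 ++ [s] ++ []) := WMove.merge u1 [] s
      have e1 : u1 ++ [s] ++ [s] = u1 ++ [s, s] ++ [] := by simp
      have e2 : u1 ++ [s] = u1 ++ [s] ++ [] := by simp
      rw [e1] at h7
      rw [e2]
      exact (h3.trans h7).tail h8

include hirr hsymm hf in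
/-- Every word can be changed by moves into a word of bounded length. -/
theorem exists_short : ∃ B : ℕ, ∀ u : List I, ∃ u', WStar nb u u' ∧ u'.length ≤ B :=
  ⟨_, fun u => by
    obtain ⟨u', h1, h2⟩ := exists_reduced hirr hsymm f hf u
    exact ⟨u', h1, length_le hirr hsymm f hf u' h2⟩⟩

end

end Pool.Agent.H15.TSys
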