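import Pool.Agent.H15.TSys.Cross

/-!
# Moves on words (commutation, braid, merge) do not change the corner
-/

namespace Pool.Agent.H15.TSys

open Finset

section
variable {I : Type} [DecidableEq I] {K : Type*} [Field K] (nb : I → Finset I)

/-- The elementary moves at the base vector `v`. -/
inductive Loc (v : I → K) : List (Letter I K) → List (Letter I K) → Prop
  | comm (w w' : I) (c t c' t' : K) (h : w ≠ w') (h1 : w' ∉ nb w) :
      Loc v [⟨w, c, t⟩, ⟨w', c', t'⟩] [⟨w', c', t'⟩, ⟨w, c, t⟩]
  | braid (w w' : I) (c1 t1 c2 t2 c3 t3 : K) (h : w ≠ w') (h1 : w' ∈ nb w) :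
      Loc v [⟨w, c1, t1⟩, ⟨w', c2, t2⟩, ⟨w, c3, t3⟩]
        [⟨w', c2 * c3, (c3 * v w * t2 + c1 * t3 * v w') / t1⟩, ⟨w, 1, t3⟩, ⟨w', c1 * c2, t2⟩]
  | merge (w : I) (c1 t1 c2 t2 : K) :
      Loc v [⟨w, c1, t1⟩, ⟨w, c2, t2⟩] [⟨w, (c2 * v w + c1 * t2) / t1, t2⟩]

variable (P : Cone K)

def PosV (v : I → K) : Prop := ∀ i, v i ∈ P.S
def PosL (ξ : Letter I K) : Prop := ξ.c ∈ P.S ∧ ξ.t ∈ P.S
def PosW (xs : List (Letter I K)) : Prop := ∀ ξ ∈ xs, PosL P ξ

variable {nb P}

theorem nbp_pos {v : I → K} (h : PosV P v) (i : I) : nbp nb v i ∈ P.S := P.prod _ _ fun u _ => h u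

theorem act_pos {v : I → K} (h : PosV P v) {ξ : Letter I K} (hξ : PosL P ξ) : PosV P (act v ξ) := by
  intro i
  unfold act
  by_cases hi : i = ξ.nd
  · rw [hi, Function.update_self]; exact hξ.2
  · rw [Function.update_of_ne hi]; exact h i

theorem cross_pos {v : I → K} (h : PosV P v) {ξ η : Letter I K} (hξ : PosL P ξ) (hη : PosL P η) :
    PosL P (cross nb v ξ η) := by
  unfold cross
  split_ifs
  · exact ⟨hξ.1, P.div (P.add (P.mul hξ.2 hη.2) (P.mul (P.mul hξ.1 hη.1) (nbp_pos h _))) (h _)⟩
  · exact hξ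

theorem ends_pos {v : I → K} (h : PosV P v) {xs : List (Letter I K)} (hx : PosW P xs) :
    PosV P (ends v xs) := by
  induction xs generalizing v with
  | nil => exact h
  | cons ξ xs ih =>
    exact ih (act_pos h (hx ξ (by simp))) fun η hη => hx η (by simp [hη])

theorem pass1_pos {v : I → K} (h : PosV P v) {ξ : Letter I K} (hξ : PosL P ξ)
    {ys : List (Letter I K)} (hy : PosW P ys) : PosW P (pass1 nb v ξ ys) := by
  induction ys generalizing v ξ with
  | nil => intro η hη; simp [pass1] at hη
  | cons η ys ih =>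
    intro ζ hζ
    rw [pass1, List.mem_cons] at hζ
    rcases hζ with rfl | hζ
    · exact cross_pos h (hy η (by simp)) hξ
    · exact ih (act_pos h (hy η (by simp))) (cross_pos h hξ (hy η (by simp)))
        (fun θ hθ => hy θ (by simp [hθ])) ζ hζ

theorem thr_pos {v : I → K} (h : PosV P v) {ξ : Letter I K} (hξ : PosL P ξ)
    {ys : List (Letter I K)} (hy : PosW P ys) : PosL P (thr nb v ξ ys) := by
  induction ys generalizing v ξ with
  | nil => exact hξ
  | cons η ys ih =>
    exact ih (act_pos h (hy η (by simp))) (cross_pos h hξ (hy η (by simp)))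
      (fun θ hθ => hy θ (by simp [hθ]))

theorem pass_pos {v : I → K} (h : PosV P v) {xs ys : List (Letter I K)} (hx : PosW P xs)
    (hy : PosW P ys) : PosW P (pass nb v xs ys) := by
  induction xs generalizing v ys with
  | nil => exact hy
  | cons ξ xs ih =>
    exact ih (act_pos h (hx ξ (by simp))) (fun θ hθ => hx θ (by simp [hθ]))
      (pass1_pos h (hx ξ (by simp)) hy)

theorem corner_pos {v : I → K} (h : PosV P v) {xs ys : List (Letter I K)} (hx : PosW P xs)
    (hy : PosW P ys) : PosV P (corner nb v xs ys) :=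
  ends_pos (ends_pos h hx) (pass_pos h hx hy)

theorem PosW.cons {ξ : Letter I K} {xs : List (Letter I K)} (h : PosL P ξ) (h' : PosW P xs) :
    PosW P (ξ :: xs) := by
  intro η hη
  rw [List.mem_cons] at hη
  rcases hη with rfl | hη
  · exact h
  · exact h' η hη

theorem PosW.nil : PosW P ([] : List (Letter I K)) := by
  intro η hη; simp at hη

theorem Loc.pos {v : I → K} (h : PosV P v) {L L' : List (Letter I K)} (hL : Loc nb v L L')
    (hp : PosW P L) : PosW P L' := by
  cases hL with
  | comm w w' c t c' t' h h1 =>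
    exact PosW.cons (hp _ (by simp)) (PosW.cons (hp _ (by simp)) PosW.nil)
  | braid w w' c1 t1 c2 t2 c3 t3 hw h1 =>
    have p1 := hp ⟨w, c1, t1⟩ (by simp)
    have p2 := hp ⟨w', c2, t2⟩ (by simp)
    have p3 := hp ⟨w, c3, t3⟩ (by simp)
    exact PosW.cons ⟨P.mul p2.1 p3.1, P.div (P.add (P.mul (P.mul p3.1 (h w)) p2.2)
      (P.mul (P.mul p1.1 p3.2) (h w'))) p1.2⟩ (PosW.cons ⟨P.one, p3.2⟩
      (PosW.cons ⟨P.mul p1.1 p2.1, p2.2⟩ PosW.nil))
  | merge w c1 t1 c2 t2 =>
    have p1 := hp ⟨w, c1, t1⟩ (by simp)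
    have p2 := hp ⟨w, c2, t2⟩ (by simp)
    exact PosW.cons ⟨P.div (P.add (P.mul p2.1 (h w)) (P.mul p1.1 p2.2)) p1.2, p2.2⟩ PosW.nil

theorem Loc.ends_eq {v : I → K} {L L' : List (Letter I K)} (hL : Loc nb v L L') :
    ends v L = ends v L' := by
  cases hL with
  | comm w w' c t c' t' h h1 =>
    simp only [ends, act]
    rw [Function.update_comm h]
  | braid w w' c1 t1 c2 t2 c3 t3 h h1 =>
    simp only [ends, act]
    funext i
    by_cases hi : i = w
    · subst hi
      simp [Function.update_of_ne h]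
    · by_cases hi' : i = w'
      · subst hi'
        simp [Function.update_of_ne (Ne.symm h)]
      · simp [Function.update_of_ne hi, Function.update_of_ne hi']
  | merge w c1 t1 c2 t2 =>
    simp only [ends, act]
    rw [Function.update_idem]

/-- the product over the neighbours without one of them -/
def rest (nb : I → Finset I) (v : I → K) (w w' : I) : K := ∏ u ∈ (nb w).erase w', v u

theorem nbp_eq (v : I → K) {w w' : I} (h : w' ∈ nb w) : nbp nb v w = v w' * rest nb v w w' := by
  unfold nbp rest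
  rw [← Finset.mul_prod_erase _ _ h]

theorem nbp_update (v : I → K) {w z : I} (h : z ∉ nb w) (t : K) :
    nbp nb (Function.update v z t) w = nbp nb v w := by
  unfold nbp
  refine Finset.prod_congr rfl fun u hu => ?_
  rw [Function.update_of_ne]
  rintro rfl
  exact h hu

theorem rest_update (v : I → K) {w w' z : I} (h : z ∉ nb w ∨ z = w') (t : K) :
    rest nb (Function.update v z t) w w' = rest nb v w w' := by
  unfold rest
  refine Finset.prod_congr rfl fun u hu => ?_
  rw [Function.update_of_ne]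
  rintro rfl
  rw [Finset.mem_erase] at hu
  rcases h with h | h
  · exact h hu.2
  · exact hu.1 h

theorem cross_same (v : I → K) (w : I) (c t d s : K) :
    cross nb v ⟨w, c, t⟩ ⟨w, d, s⟩ = ⟨w, c, (t * s + c * d * nbp nb v w) / v w⟩ := by
  unfold cross; rw [if_pos rfl]

theorem cross_diff (v : I → K) {w z : I} (h : w ≠ z) (c t d s : K) :
    cross nb v ⟨w, c, t⟩ ⟨z, d, s⟩ = ⟨w, c, t⟩ := by
  unfold cross; rw [if_neg h]

theorem Loc.step (hirr : ∀ i, i ∉ nb i) (hsymm : ∀ i j, i ∈ nb j → j ∈ nb i)
    {v : I → K} (hv : PosV P v) {L L' : List (Letter I K)}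
    (hL : Loc nb v L L') (hp : PosW P L) {η : Letter I K} (hη : PosL P η) :
    thr nb v η L = thr nb v η L' ∧ Loc nb (act v η) (pass1 nb v η L) (pass1 nb v η L') := by
  obtain ⟨z, d, s⟩ := η
  cases hL with
  | comm w w' c t c' t' h h1 =>
    have h1' : w ∉ nb w' := fun h2 => h1 (hsymm _ _ h2)
    by_cases hz : z = w
    · subst hz
      have e1 : pass1 nb v ⟨z, d, s⟩ [⟨z, c, t⟩, ⟨w', c', t'⟩] =
          [⟨z, c, (t * s + c * d * nbp nb v z) / v z⟩, ⟨w', c', t'⟩] := by
        simp only [pass1, cross_same, cross_diff _ (Ne.symm h)]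
      have e2 : pass1 nb v ⟨z, d, s⟩ [⟨w', c', t'⟩, ⟨z, c, t⟩] =
          [⟨w', c', t'⟩, ⟨z, c, (t * s + c * d * nbp nb v z) / v z⟩] := by
        simp only [pass1, cross_same, cross_diff _ h, cross_diff _ (Ne.symm h), act]
        rw [nbp_update _ h1, Function.update_of_ne h]
      rw [e1, e2]
      refine ⟨?_, Loc.comm _ _ _ _ _ _ h h1⟩
      simp only [thr, cross_same, cross_diff _ h, act]
      rw [nbp_update _ h1, Function.update_of_ne h]
    · by_cases hz' : z = w'
      · subst hz'
        have e1 : pass1 nb v ⟨z, d, s⟩ [⟨w, c, t⟩, ⟨z, c', t'⟩] =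
            [⟨w, c, t⟩, ⟨z, c', (t' * s + c' * d * nbp nb v z) / v z⟩] := by
          simp only [pass1, cross_same, cross_diff _ h, cross_diff _ hz, act]
          rw [nbp_update _ h1', Function.update_of_ne hz]
        have e2 : pass1 nb v ⟨z, d, s⟩ [⟨z, c', t'⟩, ⟨w, c, t⟩] =
            [⟨z, c', (t' * s + c' * d * nbp nb v z) / v z⟩, ⟨w, c, t⟩] := by
          simp only [pass1, cross_same, cross_diff _ h]
        rw [e1, e2]
        refine ⟨?_, Loc.comm _ _ _ _ _ _ h h1⟩
        simp only [thr, cross_same, cross_diff _ hz, act]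
        rw [nbp_update _ h1', Function.update_of_ne hz]
      · have e1 : pass1 nb v ⟨z, d, s⟩ [⟨w, c, t⟩, ⟨w', c', t'⟩] = [⟨w, c, t⟩, ⟨w', c', t'⟩] := by
          simp only [pass1, cross_diff _ hz, cross_diff _ (Ne.symm hz), cross_diff _ (Ne.symm hz')]
        have e2 : pass1 nb v ⟨z, d, s⟩ [⟨w', c', t'⟩, ⟨w, c, t⟩] = [⟨w', c', t'⟩, ⟨w, c, t⟩] := by
          simp only [pass1, cross_diff _ hz', cross_diff _ (Ne.symm hz), cross_diff _ (Ne.symm hz')]
        rw [e1, e2]
        refine ⟨?_, Loc.comm _ _ _ _ _ _ h h1⟩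
        simp only [thr, cross_diff _ hz, cross_diff _ hz']
  | braid w w' c1 t1 c2 t2 c3 t3 h h1 =>
    have h1' : w ∈ nb w' := hsymm _ _ h1
    have p1 := hp ⟨w, c1, t1⟩ (by simp)
    have p2 := hp ⟨w', c2, t2⟩ (by simp)
    have p3 := hp ⟨w, c3, t3⟩ (by simp)
    have nw := P.ne (hv w)
    have nw' := P.ne (hv w')
    have n1 := P.ne p1.2
    have n2 := P.ne p2.2
    have n3 := P.ne p3.2
    have ns := P.ne hη.2
    simp only at n1 n2 n3 ns
    have ny : c3 * v w * t2 + c1 * t3 * v w' ≠ 0 :=
      P.ne (P.add (P.mul (P.mul p3.1 (hv w)) p2.2) (P.mul (P.mul p1.1 p3.2) (hv w')))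
    by_cases hz : z = w
    · subst hz
      set R := rest nb v z w' with hR
      have b0 : nbp nb v z = v w' * R := nbp_eq v h1
      have b1 : ∀ a b : K, nbp nb (Function.update (Function.update v z a) w' b) z = b * R := by
        intro a b
        rw [nbp_eq _ h1, Function.update_self, rest_update _ (Or.inr rfl),
          rest_update _ (Or.inl (hirr z))]
      have b2 : ∀ b : K, nbp nb (Function.update v w' b) z = b * R := by
        intro b
        rw [nbp_eq _ h1, Function.update_self, rest_update _ (Or.inr rfl)]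
      have q1 : (t1 * s + c1 * d * nbp nb v z) ≠ 0 :=
        P.ne (P.add (P.mul p1.2 hη.2) (P.mul (P.mul p1.1 hη.1) (nbp_pos hv _)))
      rw [b0] at q1
      have e1 : pass1 nb v ⟨z, d, s⟩ [⟨z, c1, t1⟩, ⟨w', c2, t2⟩, ⟨z, c3, t3⟩] =
          [⟨z, c1, (t1 * s + c1 * d * (v w' * R)) / v z⟩, ⟨w', c2, t2⟩,
            ⟨z, c3, (t3 * ((t1 * s + c1 * d * (v w' * R)) / v z) + c3 * d * (t2 * R)) / t1⟩] := by
        simp only [pass1, cross_same, cross_diff _ h, cross_diff _ (Ne.symm h), act]
        rw [b1, b0, Function.update_of_ne h, Function.update_self,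
          show s * t1 + d * c1 * (v w' * R) = t1 * s + c1 * d * (v w' * R) by ring]
      have e2 : pass1 nb v ⟨z, d, s⟩ [⟨w', c2 * c3, (c3 * v z * t2 + c1 * t3 * v w') / t1⟩,
            ⟨z, 1, t3⟩, ⟨w', c1 * c2, t2⟩] =
          [⟨w', c2 * c3, (c3 * v z * t2 + c1 * t3 * v w') / t1⟩,
            ⟨z, 1, (t3 * s + 1 * d * ((c3 * v z * t2 + c1 * t3 * v w') / t1 * R)) / v z⟩,
            ⟨w', c1 * c2, t2⟩] := by
        simp only [pass1, cross_same, cross_diff _ h, cross_diff _ (Ne.symm h), act]
        rw [b2, Function.update_of_ne h]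
      have e3 : (t3 * s + 1 * d * ((c3 * v z * t2 + c1 * t3 * v w') / t1 * R)) / v z =
          (t3 * ((t1 * s + c1 * d * (v w' * R)) / v z) + c3 * d * (t2 * R)) / t1 := by
        field_simp
        ring
      have e4 : (c3 * v z * t2 + c1 * t3 * v w') / t1 =
          (c3 * s * t2 + c1 * ((t3 * ((t1 * s + c1 * d * (v w' * R)) / v z) +
            c3 * d * (t2 * R)) / t1) * v w') / ((t1 * s + c1 * d * (v w' * R)) / v z) := by
        rw [div_eq_div_iff n1 (div_ne_zero q1 nw)]
        field_simp
        ring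
      refine ⟨?_, ?_⟩
      · simp only [thr, cross_same, cross_diff _ h, cross_diff _ (Ne.symm h), act]
        rw [b1, b2, b0, Function.update_of_ne h, Function.update_self, Function.update_of_ne h]
        congr 1
        field_simp
        ring
      · rw [e1, e2, e3, e4]
        have := Loc.braid (nb := nb) (v := act v ⟨z, d, s⟩) z w' c1
          ((t1 * s + c1 * d * (v w' * R)) / v z) c2 t2 c3
          ((t3 * ((t1 * s + c1 * d * (v w' * R)) / v z) + c3 * d * (t2 * R)) / t1) h h1
        simpa only [act, Function.update_self, Function.update_of_ne (Ne.symm h)] using this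
    · by_cases hz' : z = w'
      · subst hz'
        set R := rest nb v z w with hR
        have b0 : nbp nb v z = v w * R := nbp_eq v h1'
        have b1 : ∀ a : K, nbp nb (Function.update v w a) z = a * R := by
          intro a
          rw [nbp_eq _ h1', Function.update_self, rest_update _ (Or.inr rfl)]
        have b2 : ∀ a b : K, nbp nb (Function.update (Function.update v z a) w b) z = b * R := by
          intro a b
          rw [nbp_eq _ h1', Function.update_self, rest_update _ (Or.inr rfl),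
            rest_update _ (Or.inl (hirr z))]
        have e1 : pass1 nb v ⟨z, d, s⟩ [⟨w, c1, t1⟩, ⟨z, c2, t2⟩, ⟨w, c3, t3⟩] =
            [⟨w, c1, t1⟩, ⟨z, c2, (t2 * s + c2 * d * (t1 * R)) / v z⟩, ⟨w, c3, t3⟩] := by
          simp only [pass1, cross_same, cross_diff _ h, cross_diff _ hz, act]
          rw [b1, Function.update_of_ne hz]
        have e2 : pass1 nb v ⟨z, d, s⟩ [⟨z, c2 * c3, (c3 * v w * t2 + c1 * t3 * v z) / t1⟩,
              ⟨w, 1, t3⟩, ⟨z, c1 * c2, t2⟩] =
            [⟨z, c2 * c3, ((c3 * v w * t2 + c1 * t3 * v z) / t1 * s +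
                c2 * c3 * d * (v w * R)) / v z⟩,
              ⟨w, 1, t3⟩,
              ⟨z, c1 * c2, (t2 * ((s * ((c3 * v w * t2 + c1 * t3 * v z) / t1) +
                d * (c2 * c3) * (v w * R)) / v z) + c1 * c2 * d * (t3 * R)) /
                  ((c3 * v w * t2 + c1 * t3 * v z) / t1)⟩] := by
          simp only [pass1, cross_same, cross_diff _ h, cross_diff _ hz, act]
          rw [b2, b0, Function.update_of_ne hz, Function.update_self]
        have e3 : (t2 * ((s * ((c3 * v w * t2 + c1 * t3 * v z) / t1) +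
                d * (c2 * c3) * (v w * R)) / v z) + c1 * c2 * d * (t3 * R)) /
                  ((c3 * v w * t2 + c1 * t3 * v z) / t1) =
            (t2 * s + c2 * d * (t1 * R)) / v z := by
          rw [div_eq_div_iff (div_ne_zero ny n1) nw']
          field_simp
          ring
        have e4 : ((c3 * v w * t2 + c1 * t3 * v z) / t1 * s +
                c2 * c3 * d * (v w * R)) / v z =
            (c3 * v w * ((t2 * s + c2 * d * (t1 * R)) / v z) + c1 * t3 * s) / t1 := by
          field_simp
          ring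
        refine ⟨?_, ?_⟩
        · simp only [thr, cross_same, cross_diff _ h, cross_diff _ hz, act]
          rw [b1, b2, b0, Function.update_of_ne hz, Function.update_of_ne hz,
            Function.update_self]
          congr 1
          rw [show t2 * ((s * ((c3 * v w * t2 + c1 * t3 * v z) / t1) +
                d * (c2 * c3) * (v w * R)) / v z) = ((s * ((c3 * v w * t2 + c1 * t3 * v z) / t1) +
                d * (c2 * c3) * (v w * R)) / v z) * t2 by ring,
              show c1 * c2 * d * (t3 * R) = d * (c1 * c2) * (t3 * R) by ring] at e3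
          rw [e3]
          ring
        · rw [e1, e2, e3, e4]
          have := Loc.braid (nb := nb) (v := act v ⟨z, d, s⟩) w z c1 t1 c2
            ((t2 * s + c2 * d * (t1 * R)) / v z) c3 t3 h h1
          simpa only [act, Function.update_self, Function.update_of_ne h] using this
      · have e1 : pass1 nb v ⟨z, d, s⟩ [⟨w, c1, t1⟩, ⟨w', c2, t2⟩, ⟨w, c3, t3⟩] =
            [⟨w, c1, t1⟩, ⟨w', c2, t2⟩, ⟨w, c3, t3⟩] := by
          simp only [pass1, cross_diff _ hz, cross_diff _ hz', cross_diff _ (Ne.symm hz),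
            cross_diff _ (Ne.symm hz')]
        have e2 : ∀ c t c' t' c'' t'', pass1 nb v ⟨z, d, s⟩
            [⟨w', c, t⟩, ⟨w, c', t'⟩, ⟨w', c'', t''⟩] =
            [⟨w', c, t⟩, ⟨w, c', t'⟩, ⟨w', c'', t''⟩] := by
          intros
          simp only [pass1, cross_diff _ hz, cross_diff _ hz', cross_diff _ (Ne.symm hz),
            cross_diff _ (Ne.symm hz')]
        refine ⟨?_, ?_⟩
        · simp only [thr, cross_diff _ hz, cross_diff _ hz']
        · rw [e1, e2]
          have := Loc.braid (nb := nb) (v := act v ⟨z, d, s⟩) w w' c1 t1 c2 t2 c3 t3 h h1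
          simpa only [act, Function.update_of_ne (Ne.symm hz),
            Function.update_of_ne (Ne.symm hz')] using this
  | merge w c1 t1 c2 t2 =>
    have p1 := hp ⟨w, c1, t1⟩ (by simp)
    have p2 := hp ⟨w, c2, t2⟩ (by simp)
    have nw := P.ne (hv w)
    have n1 := P.ne p1.2
    have n2 := P.ne p2.2
    have ns := P.ne hη.2
    simp only at n1 n2 ns
    by_cases hz : z = w
    · subst hz
      set R := nbp nb v z with hR
      have b1 : ∀ a : K, nbp nb (Function.update v z a) z = R := fun a =>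
        nbp_update _ (hirr z) a
      have q1 : (t1 * s + c1 * d * R) ≠ 0 :=
        P.ne (P.add (P.mul p1.2 hη.2) (P.mul (P.mul p1.1 hη.1) (nbp_pos hv _)))
      have e1 : pass1 nb v ⟨z, d, s⟩ [⟨z, c1, t1⟩, ⟨z, c2, t2⟩] =
          [⟨z, c1, (t1 * s + c1 * d * R) / v z⟩,
            ⟨z, c2, (t2 * ((t1 * s + c1 * d * R) / v z) + c2 * d * R) / t1⟩] := by
        simp only [pass1, cross_same, act]
        rw [b1, Function.update_self, ← hR,
          show s * t1 + d * c1 * R = t1 * s + c1 * d * R by ring]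
      have e2 : pass1 nb v ⟨z, d, s⟩ [⟨z, (c2 * v z + c1 * t2) / t1, t2⟩] =
          [⟨z, (c2 * v z + c1 * t2) / t1,
            (t2 * s + (c2 * v z + c1 * t2) / t1 * d * R) / v z⟩] := by
        simp only [pass1, cross_same]
        rw [← hR]
      have e3 : (t2 * s + (c2 * v z + c1 * t2) / t1 * d * R) / v z =
          (t2 * ((t1 * s + c1 * d * R) / v z) + c2 * d * R) / t1 := by
        field_simp
        ring
      have e4 : (c2 * v z + c1 * t2) / t1 =
          (c2 * s + c1 * ((t2 * ((t1 * s + c1 * d * R) / v z) + c2 * d * R) / t1)) /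
            ((t1 * s + c1 * d * R) / v z) := by
        rw [div_eq_div_iff n1 (div_ne_zero q1 nw)]
        field_simp
        ring
      refine ⟨?_, ?_⟩
      · simp only [thr, cross_same, act]
        rw [b1, Function.update_self, ← hR]
        congr 1
        field_simp
        ring
      · rw [e1, e2, e3, e4]
        have := Loc.merge (nb := nb) (v := act v ⟨z, d, s⟩) z c1
          ((t1 * s + c1 * d * R) / v z) c2
          ((t2 * ((t1 * s + c1 * d * R) / v z) + c2 * d * R) / t1)
        simpa only [act, Function.update_self] using this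
    · refine ⟨?_, ?_⟩
      · simp only [thr, cross_diff _ hz]
      · have := Loc.merge (nb := nb) (v := act v ⟨z, d, s⟩) w c1 t1 c2 t2
        simpa only [act, Function.update_of_ne (Ne.symm hz), pass1, cross_diff _ (Ne.symm hz),
          cross_diff _ hz] using this

theorem Loc.pass_eq (hirr : ∀ i, i ∉ nb i) (hsymm : ∀ i j, i ∈ nb j → j ∈ nb i)
    {v : I → K} (hv : PosV P v) {L L' : List (Letter I K)}
    (hL : Loc nb v L L') (hp : PosW P L) {ys : List (Letter I K)} (hy : PosW P ys) :
    pass nb v L ys = pass nb v L' ys := by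
  induction ys generalizing v L L' with
  | nil => simp
  | cons η ys ih =>
    have hη := hy η (by simp)
    obtain ⟨h1, h2⟩ := hL.step hirr hsymm hv hp hη
    rw [pass_cons, pass_cons, h1]
    congr 1
    exact ih (act_pos hv hη) h2 (pass1_pos hv hη hp) fun θ hθ => hy θ (by simp [hθ])

end

end Pool.Agent.H15.TSys
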