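import Mathlib

/-!
# Polynomiality of the array of a pair of words
-/

namespace Pool.Agent.H15.TSys

open Finset MvPolynomial

abbrev RR := MvPolynomial (ℕ ⊕ ℕ) ℚ

noncomputable def cv (p : ℕ) : RR := X (Sum.inl p)
noncomputable def dv (q : ℕ) : RR := X (Sum.inr q)

open Classical in
noncomputable def divR (a b : RR) : RR := if h : b ∣ a then h.choose else 0

theorem divR_mul {a b : RR} (h : b ∣ a) : divR a b * b = a := by
  unfold divR
  rw [dif_pos h, mul_comm]
  exact h.choose_spec.symm

section
variable {I : Type} [DecidableEq I] (nb : I → Finset I) (i j : ℕ → I)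

/-- the array of polynomials -/
noncomputable def Phi : ℕ → ℕ → I → RR
  | 0, _, _ => 1
  | _ + 1, 0, _ => 1
  | p + 1, q + 1, w =>
    if w = i p then
      if w = j q then
        divR (Phi (p + 1) q w * Phi p (q + 1) w + cv p * dv q * ∏ u ∈ nb w, Phi p q u) (Phi p q w)
      else Phi (p + 1) q w
    else Phi p (q + 1) w
termination_by p q => (p, q)

/-- the numerator of the square rule -/
noncomputable def num (p q : ℕ) (w : I) : RR :=
  Phi nb i j (p + 1) q w * Phi nb i j p (q + 1) w + cv p * dv q * ∏ u ∈ nb w, Phi nb i j p q u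

variable {nb i j}

theorem Phi_zero_left (q : ℕ) (w : I) : Phi nb i j 0 q w = 1 := by rw [Phi]

theorem Phi_zero_right (p : ℕ) (w : I) : Phi nb i j p 0 w = 1 := by
  cases p <;> rw [Phi]

theorem Phi_left {p q : ℕ} {w : I} (h : w ≠ i p) : Phi nb i j (p + 1) q w = Phi nb i j p q w := by
  cases q with
  | zero => rw [Phi_zero_right, Phi_zero_right]
  | succ q => conv_lhs => rw [Phi, if_neg h]

theorem Phi_right {p q : ℕ} {w : I} (h : w ≠ j q) :
    Phi nb i j p (q + 1) w = Phi nb i j p q w := by
  induction p with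
  | zero => rw [Phi_zero_left, Phi_zero_left]
  | succ p ih =>
    by_cases h1 : w = i p
    · conv_lhs => rw [Phi, if_pos h1, if_neg h]
    · rw [Phi_left h1, Phi_left h1, ih]

theorem Phi_square {p q : ℕ} {w : I} (h : w = i p) (h' : w = j q)
    (hd : Phi nb i j p q w ∣ num nb i j p q w) :
    Phi nb i j (p + 1) (q + 1) w * Phi nb i j p q w = num nb i j p q w := by
  conv_lhs => lhs; rw [Phi, if_pos h, if_pos h']
  exact divR_mul hd

/-! ### general facts on the ring -/

/-- substitution of zero for a variable -/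
noncomputable def ev (r : ℕ ⊕ ℕ) : RR →ₐ[ℚ] RR := aeval (fun k => if k = r then 0 else X k)

theorem ev_X_self (r : ℕ ⊕ ℕ) : ev r (X r) = 0 := by simp [ev]

theorem ev_X_ne {r k : ℕ ⊕ ℕ} (h : k ≠ r) : ev r (X k) = X k := by simp [ev, h]

theorem degreeOf_ev (r : ℕ ⊕ ℕ) (f : RR) : degreeOf r (ev r f) = 0 := by
  induction f using MvPolynomial.induction_on with
  | C a =>
    have : ev r (C a) = C a := by
      unfold ev; rw [← MvPolynomial.algebraMap_eq]; exact AlgHom.commutes _ _
    rw [this, degreeOf_C]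
  | add f g hf hg =>
    rw [map_add]
    have := degreeOf_add_le r (ev r f) (ev r g)
    rw [hf, hg] at this
    simpa using this
  | mul_X f k hf =>
    rw [map_mul]
    have h1 := degreeOf_mul_le r (ev r f) (ev r (X k))
    have h2 : degreeOf r (ev r (X k)) = 0 := by
      by_cases hk : k = r
      · rw [hk, ev_X_self]; simp
      · rw [ev_X_ne hk, degreeOf_X, if_neg (Ne.symm hk)]
    rw [hf, h2] at h1
    simpa using h1

theorem ev_of_degreeOf (r : ℕ ⊕ ℕ) (f : RR) (h : degreeOf r f = 0) : ev r f = f := by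
  have h1 : r ∉ f.vars := by
    rw [mem_vars_iff_degreeOf_ne_zero]
    simpa using h
  have := hom_congr_vars (f₁ := (ev r).toRingHom) (f₂ := RingHom.id RR) (p₁ := f) (p₂ := f)
    (by
      ext a
      simp [ev])
    (by
      intro k hk _
      have hkr : k ≠ r := by rintro rfl; exact h1 hk
      simpa using ev_X_ne hkr) rfl
  simpa using this

theorem ev_of_dvd (r : ℕ ⊕ ℕ) {f a : RR} (hf : f ≠ 0) (h : ev r f = f) (ha : a ∣ f) :
    ev r a = a := by
  obtain ⟨b, rfl⟩ := ha
  apply ev_of_degreeOf
  have h1 : degreeOf r (a * b) = 0 := by rw [← h]; exact degreeOf_ev r _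
  rw [degreeOf_mul_eq (left_ne_zero_of_mul hf) (right_ne_zero_of_mul hf)] at h1
  omega

theorem isRelPrime_X {g : RR} (hg : constantCoeff g = 1) (k : ℕ ⊕ ℕ) :
    IsRelPrime g (X k : RR) := by
  intro e he1 he2
  obtain ⟨b, hb⟩ := he2
  obtain ⟨a, ha⟩ := he1
  have h1 : constantCoeff e ≠ 0 := by
    intro h0
    rw [ha, map_mul, h0, zero_mul] at hg
    exact zero_ne_one hg
  have h2 : constantCoeff b = 0 := by
    have := congrArg constantCoeff hb
    rw [map_mul, constantCoeff_X] at this
    rcases mul_eq_zero.mp this.symm with h | h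
    · exact absurd h h1
    · exact h
  have hX : (X k : RR) ≠ 0 := X_ne_zero k
  have he0 : e ≠ 0 := by rintro rfl; rw [zero_mul] at hb; exact hX hb
  have hb0 : b ≠ 0 := by rintro rfl; rw [mul_zero] at hb; exact hX hb
  have h3 : totalDegree e + totalDegree b = 1 := by
    rw [← totalDegree_mul_of_isDomain he0 hb0, ← hb, totalDegree_X]
  have h4 : totalDegree b ≠ 0 := by
    intro h0
    rw [totalDegree_eq_zero_iff_eq_C] at h0
    rw [h0] at h2
    have : coeff 0 b = 0 := by simpa using h2
    rw [this, map_zero] at h0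
    exact hb0 h0
  have h5 : totalDegree e = 0 := by omega
  rw [totalDegree_eq_zero_iff_eq_C] at h5
  rw [h5]
  have : coeff 0 e ≠ 0 := by
    intro h0
    rw [h0, map_zero] at h5
    exact he0 h5
  exact (IsUnit.mk0 _ this).map C

/-- congruence modulo `u` -/
theorem rank_one {Q : Type*} [CommRing Q] (E : ℕ → ℕ → Q) (m n : ℕ)
    (hE : ∀ a < m, ∀ b < n, E (a + 1) (b + 1) * E a b = E (a + 1) b * E a (b + 1))
    (hc : ∀ a ≤ m, ∀ b ≤ n, ∀ y y', E a b * y = E a b * y' → y = y') :
    E m n * E 0 0 = E m 0 * E 0 n := by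
  have h1 : ∀ a < m, ∀ b ≤ n, E (a + 1) b * E a 0 = E (a + 1) 0 * E a b := by
    intro a ha b
    induction b with
    | zero => intro _; ring
    | succ b ih =>
      intro hb
      have h2 := ih (by omega)
      have h3 := hE a ha b (by omega)
      apply hc a (by omega) b (by omega)
      calc E a b * (E (a + 1) (b + 1) * E a 0) = (E (a + 1) (b + 1) * E a b) * E a 0 := by ring
        _ = (E (a + 1) b * E a 0) * E a (b + 1) := by rw [h3]; ring
        _ = E a b * (E (a + 1) 0 * E a (b + 1)) := by rw [h2]; ring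
  have h4 : ∀ a ≤ m, E a n * E 0 0 = E a 0 * E 0 n := by
    intro a
    induction a with
    | zero => intro _; ring
    | succ a ih =>
      intro ha
      have h2 := ih (by omega)
      have h3 := h1 a (by omega) n le_rfl
      apply hc a (by omega) 0 (by omega)
      calc E a 0 * (E (a + 1) n * E 0 0) = (E (a + 1) n * E a 0) * E 0 0 := by ring
        _ = E (a + 1) 0 * (E a n * E 0 0) := by rw [h3]; ring
        _ = E a 0 * (E (a + 1) 0 * E 0 n) := by rw [h2]; ring
  exact h4 m le_rfl

theorem cancel_mod {u a y y' : RR} (h : IsRelPrime u a)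
    (h1 : Ideal.Quotient.mk (Ideal.span {u}) (a * y) = Ideal.Quotient.mk (Ideal.span {u}) (a * y')) :
    Ideal.Quotient.mk (Ideal.span {u}) y = Ideal.Quotient.mk (Ideal.span {u}) y' := by
  rw [Ideal.Quotient.mk_eq_mk_iff_sub_mem, Ideal.mem_span_singleton] at h1 ⊢
  rw [← mul_sub] at h1
  exact h.dvd_of_dvd_mul_left h1

/-! ### last occurrence of a letter -/

theorem last_occ (i : ℕ → I) (w : I) (p : ℕ) : (∀ p' < p, w ≠ i p') ∨
    ∃ p0 < p, w = i p0 ∧ ∀ p', p0 < p' → p' < p → w ≠ i p' := by
  induction p with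
  | zero => left; intro p' h; omega
  | succ p ih =>
    by_cases h : w = i p
    · right; exact ⟨p, by omega, h, fun p' h1 h2 => by omega⟩
    · rcases ih with h1 | ⟨p0, h1, h2, h3⟩
      · left
        intro p' hp'
        rcases Nat.lt_succ_iff_lt_or_eq.mp hp' with h4 | rfl
        · exact h1 p' h4
        · exact h
      · right
        refine ⟨p0, by omega, h2, fun p' h4 h5 => ?_⟩
        rcases Nat.lt_succ_iff_lt_or_eq.mp h5 with h6 | rfl
        · exact h3 p' h4 h6
        · exact h

theorem Phi_const_left {a b q : ℕ} {w : I} (hab : a ≤ b)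
    (h : ∀ p', a ≤ p' → p' < b → w ≠ i p') : Phi nb i j b q w = Phi nb i j a q w := by
  induction b, hab using Nat.le_induction with
  | base => rfl
  | succ b hb ih =>
    rw [Phi_left (h b hb (by omega)), ih fun p' h1 h2 => h p' h1 (by omega)]

theorem Phi_const_right {p a b : ℕ} {w : I} (hab : a ≤ b)
    (h : ∀ q', a ≤ q' → q' < b → w ≠ j q') : Phi nb i j p b w = Phi nb i j p a w := by
  induction b, hab using Nat.le_induction with
  | base => rfl
  | succ b hb ih =>
    rw [Phi_right (h b hb (by omega)), ih fun p' h1 h2 => h p' h1 (by omega)]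

end

end Pool.Agent.H15.TSys
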