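import Pool.Agent.H15.TSys.Short
import Pool.Agent.H15.TSys.Confine

/-!
# The matrix of corners has finite rank
-/

namespace Pool.Agent.H15.TSys

open Finset MvPolynomial

/-- `F x y` is a finite sum of products of functions of `x` and of `y`. -/
def FinRk {X Y : Type*} {K : Type*} [Field K] (F : X → Y → K) : Prop :=
  ∃ (ι : Type) (_ : Fintype ι) (α : ι → X → K) (β : ι → Y → K), ∀ x y, F x y = ∑ m, α m x * β m y

namespace FinRk
variable {X Y : Type*} {K : Type*} [Field K]

theorem add {F G : X → Y → K} (hF : FinRk F) (hG : FinRk G) : FinRk (fun x y => F x y + G x y) := by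
  obtain ⟨ι, _, α, β, h⟩ := hF
  obtain ⟨ι', _, α', β', h'⟩ := hG
  refine ⟨ι ⊕ ι', inferInstance, Sum.elim α α', Sum.elim β β', fun x y => ?_⟩
  simp only
  rw [h, h', Fintype.sum_sum_type]
  simp

theorem mul {F G : X → Y → K} (hF : FinRk F) (hG : FinRk G) : FinRk (fun x y => F x y * G x y) := by
  obtain ⟨ι, _, α, β, h⟩ := hF
  obtain ⟨ι', _, α', β', h'⟩ := hG
  refine ⟨ι × ι', inferInstance, fun m x => α m.1 x * α' m.2 x, fun m y => β m.1 y * β' m.2 y,
    fun x y => ?_⟩
  simp only
  rw [h, h', Fintype.sum_prod_type, Finset.sum_mul]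
  refine Finset.sum_congr rfl fun m _ => ?_
  rw [Finset.mul_sum]
  exact Finset.sum_congr rfl fun m' _ => by ring

theorem left (a : X → K) : FinRk (fun x (_ : Y) => a x) :=
  ⟨Unit, inferInstance, fun _ => a, fun _ _ => 1, fun x y => by simp⟩

theorem right (b : Y → K) : FinRk (fun (_ : X) y => b y) :=
  ⟨Unit, inferInstance, fun _ _ => 1, fun _ => b, fun x y => by simp⟩

theorem sum {κ : Type*} (s : Finset κ) (F : κ → X → Y → K) (h : ∀ k ∈ s, FinRk (F k)) :
    FinRk (fun x y => ∑ k ∈ s, F k x y) := by
  classical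
  induction s using Finset.induction_on with
  | empty => simpa using left (Y := Y) (fun _ : X => (0 : K))
  | insert a s ha ih =>
    simp only [Finset.sum_insert ha]
    exact (h a (by simp)).add (ih fun k hk => h k (by simp [hk]))

theorem congr {F G : X → Y → K} (hF : FinRk F) (h : ∀ x y, G x y = F x y) : FinRk G := by
  have : G = F := by funext x y; exact h x y
  rwa [this]

theorem aeval [Algebra ℚ K] {σ τ : Type*} (c : X → σ → K) (d : Y → τ → K)
    (f : MvPolynomial (σ ⊕ τ) ℚ) :
    FinRk (fun x y => MvPolynomial.aeval (Sum.elim (c x) (d y)) f) := by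
  induction f using MvPolynomial.induction_on with
  | C a =>
    refine (left (Y := Y) (fun _ : X => algebraMap ℚ K a)).congr fun x y => ?_
    simp
  | add f g hf hg =>
    refine (hf.add hg).congr fun x y => ?_
    rw [map_add]
  | mul_X f k hf =>
    rcases k with k | k
    · refine (hf.mul (left fun x => c x k)).congr fun x y => ?_
      rw [map_mul, aeval_X, Sum.elim_inl]
    · refine (hf.mul (right fun y => d y k)).congr fun x y => ?_
      rw [map_mul, aeval_X, Sum.elim_inr]

end FinRk

section
variable {I : Type} [DecidableEq I] {K : Type*} [Field K] [Algebra ℚ K] {nb : I → Finset I}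

/-- specialisation of the array of polynomials -/
theorem spec (hirr : ∀ i, i ∉ nb i) (hsymm : ∀ i j, i ∈ nb j → j ∈ nb i) (i j : ℕ → I)
    (t : ℕ → ℕ → I → K) (c d : ℕ → K) (m n : ℕ)
    (h0 : ∀ q ≤ n, ∀ w, t 0 q w = 1) (h0' : ∀ p ≤ m, ∀ w, t p 0 w = 1)
    (hl : ∀ p < m, ∀ q ≤ n, ∀ w, w ≠ i p → t (p + 1) q w = t p q w)
    (hr : ∀ p ≤ m, ∀ q < n, ∀ w, w ≠ j q → t p (q + 1) w = t p q w)
    (hs : ∀ p < m, ∀ q < n, ∀ w, w = i p → w = j q → t (p + 1) (q + 1) w * t p q w =
      t (p + 1) q w * t p (q + 1) w + c p * d q * ∏ u ∈ nb w, t p q u)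
    (hne : ∀ p ≤ m, ∀ q ≤ n, ∀ w, t p q w ≠ 0) :
    ∀ p ≤ m, ∀ q ≤ n, ∀ w, t p q w = MvPolynomial.aeval (Sum.elim c d) (Phi nb i j p q w) := by
  intro p
  induction p with
  | zero => intro _ q hq w; rw [h0 q hq, Phi_zero_left, map_one]
  | succ p ihp =>
    intro hp q
    induction q with
    | zero => intro _ w; rw [h0' _ hp, Phi_zero_right, map_one]
    | succ q ihq =>
      intro hq w
      by_cases h1 : w = i p
      · by_cases h2 : w = j q
        · have e1 := hs p (by omega) q (by omega) w h1 h2
          have e2 := congrArg (MvPolynomial.aeval (Sum.elim c d))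
            (Phi_rule (nb := nb) (i := i) (j := j) hirr hsymm h1 h2)
          rw [map_mul, map_add, map_mul, map_mul, map_mul, map_prod,
            ← ihp (by omega) q (by omega) w, ← ihq (by omega) w,
            ← ihp (by omega) (q + 1) hq w, cv, dv, aeval_X, aeval_X, Sum.elim_inl,
            Sum.elim_inr] at e2
          have e3 : ∏ u ∈ nb w, MvPolynomial.aeval (Sum.elim c d) (Phi nb i j p q u) =
              ∏ u ∈ nb w, t p q u :=
            Finset.prod_congr rfl fun u _ => (ihp (by omega) q (by omega) u).symm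
          rw [e3, ← e1] at e2
          exact (mul_right_cancel₀ (hne p (by omega) q (by omega) w) e2).symm
        · rw [hr (p + 1) hp q (by omega) w h2, Phi_right h2]
          exact ihq (by omega) w
      · rw [hl p (by omega) (q + 1) hq w h1, Phi_left h1]
        exact ihp (by omega) (q + 1) hq w

/-- the constants of the `x`-word in the gauge with boundary values one -/
noncomputable def chat (nb : I → Finset I) (v : I → K) (xs : List (Letter I K)) (p : ℕ) : K :=
  match xs[p]? with
  | none => 0
  | some ξ => ξ.c * (∏ u ∈ nb ξ.nd, ends v (xs.take p) u / v u) * v ξ.nd ^ 2 /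
      (ends v (xs.take (p + 1)) ξ.nd * ends v (xs.take p) ξ.nd)

/-- the constants of the `y`-word in the gauge with boundary values one -/
noncomputable def dhat (nb : I → Finset I) (v : I → K) (ys : List (Letter I K)) (q : ℕ) : K :=
  match ys[q]? with
  | none => 0
  | some η => η.c * (∏ u ∈ nb η.nd, ends v (ys.take q) u) /
      (ends v (ys.take (q + 1)) η.nd * ends v (ys.take q) η.nd)

/-- a word as a function on all natural numbers -/
def nodeFn (i0 : I) (u : List I) (p : ℕ) : I := u.getD p i0

variable {P : Cone K}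

theorem PosW.take {xs : List (Letter I K)} (h : PosW P xs) (p : ℕ) : PosW P (xs.take p) :=
  fun ξ hξ => h ξ (List.mem_of_mem_take hξ)

theorem corner_nil_left (v : I → K) (ys : List (Letter I K)) :
    corner nb v [] ys = ends v ys := by
  unfold corner; rfl

theorem corner_nil_right (v : I → K) (xs : List (Letter I K)) :
    corner nb v xs [] = ends v xs := by
  rw [corner_comm, corner_nil_left]

theorem take_succ_eq {α : Type*} (xs : List α) {p : ℕ} (h : p < xs.length) :
    xs.take (p + 1) = xs.take p ++ [xs[p]] := by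
  rw [List.take_succ_eq_append_getElem h]

theorem corner_eq (hirr : ∀ i, i ∉ nb i) (hsymm : ∀ i j, i ∈ nb j → j ∈ nb i) (i0 : I)
    {v : I → K} (hv : PosV P v) {xs ys : List (Letter I K)} (hx : PosW P xs) (hy : PosW P ys)
    (w : I) :
    corner nb v xs ys w = ends v xs w * ends v ys w / v w *
      MvPolynomial.aeval (Sum.elim (chat nb v xs) (dhat nb v ys))
        (Phi nb (nodeFn i0 (xs.map Letter.nd)) (nodeFn i0 (ys.map Letter.nd))
          xs.length ys.length w) := by
  set i := nodeFn i0 (xs.map Letter.nd) with hi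
  set j := nodeFn i0 (ys.map Letter.nd) with hj
  set T : ℕ → ℕ → I → K := fun p q => corner nb v (xs.take p) (ys.take q) with hT
  set A : ℕ → I → K := fun p => ends v (xs.take p) with hA
  set Bb : ℕ → I → K := fun q => ends v (ys.take q) with hB
  have hTp : ∀ p q w, T p q w ∈ P.S := fun p q w => corner_pos hv (hx.take p) (hy.take q) w
  have hAp : ∀ p w, A p w ∈ P.S := fun p w => ends_pos hv (hx.take p) w
  have hBp : ∀ q w, Bb q w ∈ P.S := fun q w => ends_pos hv (hy.take q) w
  have hT0 : ∀ q, T 0 q = Bb q := fun q => by simp only [hT, hB, List.take_zero, corner_nil_left]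
  have hT0' : ∀ p, T p 0 = A p := fun p => by simp only [hT, hA, List.take_zero, corner_nil_right]
  have hA0 : A 0 = v := by simp [hA, ends]
  have hB0 : Bb 0 = v := by simp [hB, ends]
  have hiv : ∀ p (hp : p < xs.length), i p = xs[p].nd := by
    intro p hp
    simp [hi, nodeFn, List.getD_eq_getElem?_getD, hp]
  have hjv : ∀ q (hq : q < ys.length), j q = ys[q].nd := by
    intro q hq
    simp [hj, nodeFn, List.getD_eq_getElem?_getD, hq]
  have hTl : ∀ p < xs.length, ∀ q w, w ≠ i p → T (p + 1) q w = T p q w := by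
    intro p hp q w hw
    simp only [hT]
    rw [take_succ_eq xs hp, corner_rule_left]
    rw [← hiv p hp]; exact hw
  have hTr : ∀ p, ∀ q < ys.length, ∀ w, w ≠ j q → T p (q + 1) w = T p q w := by
    intro p q hq w hw
    simp only [hT]
    rw [take_succ_eq ys hq, corner_rule_right]
    rw [← hjv q hq]; exact hw
  have hAl : ∀ p < xs.length, ∀ w, w ≠ i p → A (p + 1) w = A p w := by
    intro p hp w hw
    rw [← hT0', ← hT0']; exact hTl p hp 0 w hw
  have hBr : ∀ q < ys.length, ∀ w, w ≠ j q → Bb (q + 1) w = Bb q w := by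
    intro q hq w hw
    rw [← hT0, ← hT0]; exact hTr 0 q hq w hw
  have hchat : ∀ p (hp : p < xs.length), chat nb v xs p =
      xs[p].c * (∏ u ∈ nb (i p), A p u / v u) * v (i p) ^ 2 /
        (A (p + 1) (i p) * A p (i p)) := by
    intro p hp
    unfold chat
    rw [List.getElem?_eq_getElem hp, hiv p hp]
  have hdhat : ∀ q (hq : q < ys.length), dhat nb v ys q =
      ys[q].c * (∏ u ∈ nb (j q), Bb q u) / (Bb (q + 1) (j q) * Bb q (j q)) := by
    intro q hq
    unfold dhat
    rw [List.getElem?_eq_getElem hq, hjv q hq]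
  set t : ℕ → ℕ → I → K := fun p q w => T p q w * v w / (A p w * Bb q w) with ht
  have hspec := spec (nb := nb) hirr hsymm i j t (chat nb v xs) (dhat nb v ys) xs.length ys.length
    (by
      intro q _ w
      simp only [ht]
      rw [hT0, hA0]
      have h1 := P.ne (hBp q w)
      have h2 := P.ne (hv w)
      field_simp)
    (by
      intro p _ w
      simp only [ht]
      rw [hT0', hB0]
      have h1 := P.ne (hAp p w)
      have h2 := P.ne (hv w)
      field_simp)
    (by
      intro p hp q _ w hw
      simp only [ht]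
      rw [hTl p hp q w hw, hAl p hp w hw])
    (by
      intro p _ q hq w hw
      simp only [ht]
      rw [hTr p q hq w hw, hBr q hq w hw])
    (by
      intro p hp q hq w hw hw'
      have hr : T (p + 1) (q + 1) w * T p q w = T (p + 1) q w * T p (q + 1) w +
          xs[p].c * ys[q].c * ∏ u ∈ nb w, T p q u := by
        have e := corner_rule_square nb v (xs.take p) (ys.take q) xs[p] ys[q]
          (by rw [← hiv p hp, ← hjv q hq, ← hw, ← hw']) (P.ne (hTp p q _))
        rw [← take_succ_eq xs hp, ← take_succ_eq ys hq, ← hiv p hp, ← hw] at e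
        exact e
      have ep : ∏ u ∈ nb w, t p q u =
          (∏ u ∈ nb w, T p q u) * (∏ u ∈ nb w, v u) /
            ((∏ u ∈ nb w, A p u) * ∏ u ∈ nb w, Bb q u) := by
        simp only [ht, Finset.prod_div_distrib, Finset.prod_mul_distrib]
      rw [ep, hchat p hp, hdhat q hq, ← hw, ← hw', Finset.prod_div_distrib]
      simp only [ht]
      have a1 := P.ne (hAp p w)
      have a2 := P.ne (hAp (p + 1) w)
      have b1 := P.ne (hBp q w)
      have b2 := P.ne (hBp (q + 1) w)
      have v1 := P.ne (hv w)
      have q1 : (∏ u ∈ nb w, v u) ≠ 0 := P.ne (P.prod _ _ fun u _ => hv u)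
      have q2 : (∏ u ∈ nb w, A p u) ≠ 0 := P.ne (P.prod _ _ fun u _ => hAp p u)
      have q3 : (∏ u ∈ nb w, Bb q u) ≠ 0 := P.ne (P.prod _ _ fun u _ => hBp q u)
      have e5 : T (p + 1) (q + 1) w * v w / (A (p + 1) w * Bb (q + 1) w) *
          (T p q w * v w / (A p w * Bb q w)) =
          (T (p + 1) (q + 1) w * T p q w) * v w ^ 2 /
            (A (p + 1) w * Bb (q + 1) w * (A p w * Bb q w)) := by
        field_simp
      rw [e5, hr]
      field_simp)
    (by
      intro p _ q _ w
      simp only [ht]
      exact P.ne (P.div (P.mul (hTp p q w) (hv w)) (P.mul (hAp p w) (hBp q w))))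
  have hfin := hspec xs.length le_rfl ys.length le_rfl w
  rw [← hfin]
  simp only [ht, hT, hA, hB, List.take_length]
  have a1 : ends v xs w ≠ 0 := P.ne (ends_pos hv hx w)
  have b1 : ends v ys w ≠ 0 := P.ne (ends_pos hv hy w)
  have v1 := P.ne (hv w)
  field_simp

/-- The matrix of corners of short words has finite rank. -/
theorem finRk_short [Finite I] (hirr : ∀ i, i ∉ nb i) (hsymm : ∀ i j, i ∈ nb j → j ∈ nb i)
    {v : I → K} (hv : PosV P v) {X Y : Type*} (xs : X → List (Letter I K))
    (ys : Y → List (Letter I K)) (hx : ∀ a, PosW P (xs a)) (hy : ∀ b, PosW P (ys b)) (B : ℕ)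
    (hxB : ∀ a, (xs a).length ≤ B) (hyB : ∀ b, (ys b).length ≤ B) (w : I) :
    FinRk (fun a b => corner nb v (xs a) (ys b) w) := by
  classical
  set W : Finset (List I) := (List.finite_length_le I B).toFinset with hW
  have hmem : ∀ u : List I, u ∈ W ↔ u.length ≤ B := by intro u; simp [hW]
  refine FinRk.congr (F := fun a b => ∑ u ∈ W, ∑ u' ∈ W,
    (if (xs a).map Letter.nd = u then 1 else 0) * (if (ys b).map Letter.nd = u' then 1 else 0) *
    (ends v (xs a) w * (ends v (ys b) w / v w) *
      MvPolynomial.aeval (Sum.elim (chat nb v (xs a)) (dhat nb v (ys b)))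
        (Phi nb (nodeFn w u) (nodeFn w u') u.length u'.length w))) ?_ ?_
  · refine FinRk.sum _ _ fun u _ => FinRk.sum _ _ fun u' _ => ?_
    exact ((FinRk.left _).mul (FinRk.right _)).mul (((FinRk.left _).mul (FinRk.right _)).mul
      (FinRk.aeval _ _ _))
  · intro a b
    rw [Finset.sum_eq_single ((xs a).map Letter.nd), Finset.sum_eq_single ((ys b).map Letter.nd)]
    · rw [if_pos rfl, if_pos rfl, corner_eq hirr hsymm w hv (hx a) (hy b) w, List.length_map,
        List.length_map]
      ring
    · intro u' _ h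
      rw [if_neg (Ne.symm h)]
      ring
    · intro h
      exact absurd ((hmem _).mpr (by rw [List.length_map]; exact hyB b)) h
    · intro u _ h
      refine Finset.sum_eq_zero fun u' _ => ?_
      rw [if_neg (Ne.symm h)]
      ring
    · intro h
      exact absurd ((hmem _).mpr (by rw [List.length_map]; exact hxB a)) h

/-- The matrix of corners has finite rank. -/
theorem finRk_corner [Fintype I] (hirr : ∀ i, i ∉ nb i) (hsymm : ∀ i j, i ∈ nb j → j ∈ nb i)
    (f : I → ℕ) (hf : ∀ i, ∑ j ∈ nb i, f j < 2 * f i)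
    {v : I → K} (hv : PosV P v) {X Y : Type*} (xs : X → List (Letter I K))
    (ys : Y → List (Letter I K)) (hx : ∀ a, PosW P (xs a)) (hy : ∀ b, PosW P (ys b)) (w : I) :
    FinRk (fun a b => corner nb v (xs a) (ys b) w) := by
  obtain ⟨B, hB⟩ := exists_short_word (K := K) (P := P) hirr hsymm f hf
  choose xs' h1 h2 h3 using fun a => hB v hv (xs a) (hx a)
  choose ys' h4 h5 h6 using fun b => hB v hv (ys b) (hy b)
  refine (finRk_short hirr hsymm hv xs' ys' h1 h4 B h2 h5 w).congr fun a b => ?_
  rw [h3 a _ (hy b), corner_comm, h6 b _ (h1 a), corner_comm]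

end

end Pool.Agent.H15.TSys
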