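import Mathlib

/-!
# Words in the nodes of a graph with a strictly subadditive function
Every word can be shortened by commutations, braid moves and merges to bounded length.
-/

namespace Pool.Agent.H15.TSys

open Finset

/-- Length preserving moves on words. -/
inductive BMove {I : Type} (nb : I → Finset I) : List I → List I → Prop
  | comm (p q : List I) (w w' : I) (h : w ≠ w') (h1 : w' ∉ nb w) :
      BMove nb (p ++ [w, w'] ++ q) (p ++ [w', w] ++ q)
  | braid (p q : List I) (w w' : I) (h : w ≠ w') (h1 : w' ∈ nb w) :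
      BMove nb (p ++ [w, w', w] ++ q) (p ++ [w', w, w'] ++ q)

/-- All moves on words. -/
inductive WMove {I : Type} (nb : I → Finset I) : List I → List I → Prop
  | b {u u' : List I} (h : BMove nb u u') : WMove nb u u'
  | merge (p q : List I) (w : I) : WMove nb (p ++ [w, w] ++ q) (p ++ [w] ++ q)

theorem BMove.append {I : Type} {nb : I → Finset I} {u u' : List I} (h : BMove nb u u')
    (r : List I) : BMove nb (u ++ r) (u' ++ r) := by
  cases h with
  | comm p q w w' h h1 =>
    have := BMove.comm p (q ++ r) w w' h h1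
    simpa only [List.append_assoc] using this
  | braid p q w w' h h1 =>
    have := BMove.braid p (q ++ r) w w' h h1
    simpa only [List.append_assoc] using this

theorem WMove.append {I : Type} {nb : I → Finset I} {u u' : List I} (h : WMove nb u u')
    (r : List I) : WMove nb (u ++ r) (u' ++ r) := by
  cases h with
  | b h => exact WMove.b (h.append r)
  | merge p q w =>
    have := WMove.merge (nb := nb) p (q ++ r) w
    simpa only [List.append_assoc] using this

abbrev BStar {I : Type} (nb : I → Finset I) := Relation.ReflTransGen (BMove nb)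
abbrev WStar {I : Type} (nb : I → Finset I) := Relation.ReflTransGen (WMove nb)

theorem BStar.append {I : Type} {nb : I → Finset I} {u u' : List I} (h : BStar nb u u')
    (r : List I) : BStar nb (u ++ r) (u' ++ r) := by
  induction h with
  | refl => exact .refl
  | tail _ h ih => exact ih.tail (h.append r)

theorem WStar.append {I : Type} {nb : I → Finset I} {u u' : List I} (h : WStar nb u u')
    (r : List I) : WStar nb (u ++ r) (u' ++ r) := by
  induction h with
  | refl => exact .refl
  | tail _ h ih => exact ih.tail (h.append r)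

theorem BStar.toW {I : Type} {nb : I → Finset I} {u u' : List I} (h : BStar nb u u') :
    WStar nb u u' := by
  induction h with
  | refl => exact .refl
  | tail _ h ih => exact ih.tail (WMove.b h)

section
variable {I : Type} [DecidableEq I] (nb : I → Finset I)

/-- pairing with a simple coroot -/
def bw (i : I) (α : I → ℤ) : ℤ := 2 * α i - ∑ j ∈ nb i, α j

/-- simple root -/
def sr (i : I) : I → ℤ := Pi.single i 1

/-- simple reflection -/
def refl (i : I) (α : I → ℤ) : I → ℤ := α - bw nb i α • sr i

/-- the product of the simple reflections of a word -/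
def wact : List I → (I → ℤ) → (I → ℤ)
  | [], α => α
  | s :: u, α => refl nb s (wact u α)

variable {nb}

theorem bw_add (i : I) (α β : I → ℤ) : bw nb i (α + β) = bw nb i α + bw nb i β := by
  simp only [bw, Pi.add_apply, Finset.sum_add_distrib]; ring

theorem bw_sub_smul (i : I) (α β : I → ℤ) (c : ℤ) :
    bw nb i (α - c • β) = bw nb i α - c * bw nb i β := by
  simp only [bw, Pi.sub_apply, Pi.smul_apply, smul_eq_mul, Finset.sum_sub_distrib,
    ← Finset.mul_sum]
  ring

theorem bw_neg (i : I) (α : I → ℤ) : bw nb i (-α) = - bw nb i α := by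
  simp only [bw, Pi.neg_apply, Finset.sum_neg_distrib]; ring

variable (hirr : ∀ i, i ∉ nb i) (hsymm : ∀ i j, i ∈ nb j → j ∈ nb i)

include hirr in
theorem bw_self (i : I) : bw nb i (sr i) = 2 := by
  unfold bw sr
  rw [Finset.sum_eq_zero]
  · simp
  · intro j hj
    rw [Pi.single_eq_of_ne]
    rintro rfl
    exact hirr _ hj

theorem bw_adj {i j : I} (h : i ≠ j) (h1 : j ∈ nb i) : bw nb i (sr j) = -1 := by
  unfold bw sr
  rw [Pi.single_eq_of_ne h, Finset.sum_eq_single j]
  · simp
  · intro k _ hk
    rw [Pi.single_eq_of_ne hk]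
  · intro h2; exact absurd h1 h2

theorem bw_nadj {i j : I} (h : i ≠ j) (h1 : j ∉ nb i) : bw nb i (sr j) = 0 := by
  unfold bw sr
  rw [Pi.single_eq_of_ne h, Finset.sum_eq_zero]
  · simp
  · intro k hk
    rw [Pi.single_eq_of_ne]
    rintro rfl
    exact h1 hk

theorem refl_add (i : I) (α β : I → ℤ) : refl nb i (α + β) = refl nb i α + refl nb i β := by
  unfold refl
  rw [bw_add, add_smul]
  abel

theorem refl_neg (i : I) (α : I → ℤ) : refl nb i (-α) = - refl nb i α := by
  unfold refl
  rw [bw_neg, neg_smul]
  abel

include hirr in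
theorem refl_refl (i : I) (α : I → ℤ) : refl nb i (refl nb i α) = α := by
  unfold refl
  rw [bw_sub_smul, bw_self hirr, sub_sub, ← add_smul,
    show bw nb i α + (bw nb i α - bw nb i α * 2) = 0 by ring, zero_smul, sub_zero]

theorem wact_append (u u' : List I) (α : I → ℤ) :
    wact nb (u ++ u') α = wact nb u (wact nb u' α) := by
  induction u with
  | nil => rfl
  | cons s u ih => simp [wact, ih]

theorem wact_add (u : List I) (α β : I → ℤ) :
    wact nb u (α + β) = wact nb u α + wact nb u β := by
  induction u with
  | nil => rfl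
  | cons s u ih => simp [wact, ih, refl_add]

theorem wact_neg (u : List I) (α : I → ℤ) : wact nb u (-α) = - wact nb u α := by
  induction u with
  | nil => rfl
  | cons s u ih => simp [wact, ih, refl_neg]

include hirr in
theorem wact_reverse (u : List I) (α : I → ℤ) : wact nb u.reverse (wact nb u α) = α := by
  induction u generalizing α with
  | nil => rfl
  | cons s u ih =>
    rw [List.reverse_cons, wact_append]
    change wact nb u.reverse (refl nb s (refl nb s (wact nb u α))) = α
    rw [refl_refl hirr, ih]

include hirr in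
theorem wact_reverse' (u : List I) (α : I → ℤ) : wact nb u (wact nb u.reverse α) = α := by
  have := wact_reverse hirr u.reverse α
  rwa [List.reverse_reverse] at this

/-! ### relations -/

include hsymm in
theorem refl_comm {w w' : I} (h : w ≠ w') (h1 : w' ∉ nb w) (α : I → ℤ) :
    refl nb w (refl nb w' α) = refl nb w' (refl nb w α) := by
  have h2 : w ∉ nb w' := fun h3 => h1 (hsymm _ _ h3)
  unfold refl
  rw [bw_sub_smul, bw_sub_smul, bw_nadj h h1, bw_nadj (Ne.symm h) h2]
  simp only [mul_zero, sub_zero]
  abel

include hirr hsymm in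
theorem refl_braid {w w' : I} (h : w ≠ w') (h1 : w' ∈ nb w) (α : I → ℤ) :
    refl nb w (refl nb w' (refl nb w α)) = refl nb w' (refl nb w (refl nb w' α)) := by
  have h2 : w ∈ nb w' := hsymm _ _ h1
  unfold refl
  simp only [bw_sub_smul, bw_adj h h1, bw_adj (Ne.symm h) h2, bw_self hirr]
  funext i
  simp only [Pi.sub_apply, Pi.smul_apply, smul_eq_mul]
  ring

theorem refl_nadj {w w' : I} (h : w ≠ w') (h1 : w' ∉ nb w) : refl nb w (sr w') = sr w' := by
  unfold refl; rw [bw_nadj h h1, zero_smul, sub_zero]

theorem refl_adj {w w' : I} (h : w ≠ w') (h1 : w' ∈ nb w) :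
    refl nb w (sr w') = sr w' + sr w := by
  unfold refl; rw [bw_adj h h1, neg_smul, one_smul, sub_neg_eq_add]

include hirr in
theorem refl_self (w : I) : refl nb w (sr w) = - sr w := by
  unfold refl; rw [bw_self hirr]; funext i; simp; ring

/-! ### reduced words -/

/-- all prefix roots are nonnegative -/
def RedF (nb : I → Finset I) : ((I → ℤ) → (I → ℤ)) → List I → Prop
  | _, [] => True
  | φ, s :: u => 0 ≤ φ (sr s) ∧ RedF nb (fun α => φ (refl nb s α)) u

theorem RedF_append (φ : (I → ℤ) → (I → ℤ)) (u u' : List I) :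
    RedF nb φ (u ++ u') ↔ RedF nb φ u ∧ RedF nb (fun α => φ (wact nb u α)) u' := by
  induction u generalizing φ with
  | nil => simp [RedF, wact]
  | cons s u ih =>
    simp only [List.cons_append, RedF, ih, wact, and_assoc]

abbrev Red (nb : I → Finset I) (u : List I) : Prop := RedF nb (fun α => α) u

theorem Red_snoc (u : List I) (s : I) : Red nb (u ++ [s]) ↔ Red nb u ∧ 0 ≤ wact nb u (sr s) := by
  unfold Red
  rw [RedF_append]
  simp [RedF]

include hirr hsymm in
theorem BMove.wact_eq {u u' : List I} (h : BMove nb u u') (α : I → ℤ) :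
    wact nb u α = wact nb u' α := by
  cases h with
  | comm p q w w' h h1 =>
    simp only [wact_append, wact]
    rw [refl_comm hsymm h h1]
  | braid p q w w' h h1 =>
    simp only [wact_append, wact]
    rw [refl_braid hirr hsymm h h1]

theorem BMove.length_eq {u u' : List I} (h : BMove nb u u') : u.length = u'.length := by
  cases h <;> simp

include hirr hsymm in
theorem BMove.red {u u' : List I} (h : BMove nb u u') (hr : Red nb u) : Red nb u' := by
  cases h with
  | comm p q w w' h h1 =>
    have h2 : w ∉ nb w' := fun h3 => h1 (hsymm _ _ h3)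
    unfold Red at hr ⊢
    rw [RedF_append, RedF_append] at hr ⊢
    obtain ⟨⟨hp, hm⟩, hq⟩ := hr
    refine ⟨⟨hp, ?_⟩, ?_⟩
    · simp only [RedF, refl_nadj h h1, refl_nadj (Ne.symm h) h2] at hm ⊢
      exact ⟨hm.2.1, hm.1, trivial⟩
    · have : (fun α => wact nb (p ++ [w', w]) α) = (fun α => wact nb (p ++ [w, w']) α) := by
        funext α
        simp only [wact_append, wact]
        rw [refl_comm hsymm h h1]
      rw [this]; exact hq
  | braid p q w w' h h1 =>
    have h2 : w ∈ nb w' := hsymm _ _ h1
    unfold Red at hr ⊢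
    rw [RedF_append, RedF_append] at hr ⊢
    obtain ⟨⟨hp, hm⟩, hq⟩ := hr
    refine ⟨⟨hp, ?_⟩, ?_⟩
    · simp only [RedF, refl_adj h h1, refl_adj (Ne.symm h) h2, refl_add, refl_self hirr] at hm ⊢
      obtain ⟨a1, a2, a3, _⟩ := hm
      refine ⟨?_, ?_, ?_, trivial⟩
      · convert a3 using 2; abel
      · convert a2 using 2; abel
      · convert a1 using 2; abel
    · have : (fun α => wact nb (p ++ [w', w, w']) α) = (fun α => wact nb (p ++ [w, w', w]) α) := by
        funext α
        simp only [wact_append, wact]
        rw [refl_braid hirr hsymm h h1]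
      rw [this]; exact hq

include hirr hsymm in
theorem BStar.props {u u' : List I} (h : BStar nb u u') :
    u.length = u'.length ∧ (∀ α, wact nb u α = wact nb u' α) ∧ (Red nb u → Red nb u') := by
  induction h with
  | refl => exact ⟨rfl, fun _ => rfl, id⟩
  | tail _ h ih =>
    exact ⟨ih.1.trans h.length_eq, fun α => (ih.2.1 α).trans (h.wact_eq hirr hsymm α),
      fun hr => h.red hirr hsymm (ih.2.2 hr)⟩

theorem sr_not_nonpos (i : I) : ¬ (sr i ≤ 0) := by
  intro h
  have := h i
  simp [sr] at this

include hirr hsymm in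
/-- exchange property -/
theorem exchange (n : ℕ) : ∀ (u : List I), u.length = n → Red nb u → ∀ s, wact nb u (sr s) ≤ 0 →
    ∃ u', BStar nb u (u' ++ [s]) := by
  induction n using Nat.strong_induction_on with
  | _ n ih =>
    intro u hu hr s hs
    rcases List.eq_nil_or_concat u with rfl | ⟨u0, r, rfl⟩
    · exact absurd hs (sr_not_nonpos s)
    rw [List.concat_eq_append] at *
    have hlen : u0.length < n := by rw [← hu]; simp
    obtain ⟨hr0, hr1⟩ := (Red_snoc u0 r).mp hr
    by_cases hrs : r = s
    · subst hrs; exact ⟨u0, .refl⟩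
    by_cases hadj : s ∈ nb r
    · rw [wact_append] at hs
      change wact nb u0 (refl nb r (sr s)) ≤ 0 at hs
      rw [refl_adj hrs hadj, wact_add] at hs
      have h1 : wact nb u0 (sr s) ≤ 0 := by
        intro i
        have a := hs i
        have b := hr1 i
        simp only [Pi.add_apply, Pi.zero_apply] at a b ⊢
        linarith
      obtain ⟨u1, hu1⟩ := ih _ hlen u0 rfl hr0 s h1
      obtain ⟨l1, w1, r1⟩ := hu1.props hirr hsymm
      obtain ⟨r2, r3⟩ := (Red_snoc u1 s).mp (r1 hr0)
      have h2 : wact nb u1 (sr r) ≤ 0 := by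
        have e : wact nb u0 (sr s) + wact nb u0 (sr r) = wact nb u1 (sr r) := by
          rw [← wact_add, w1, wact_append]
          change wact nb u1 (refl nb s (sr s + sr r)) = _
          rw [refl_add, refl_self hirr, refl_adj (Ne.symm hrs) (hsymm _ _ hadj)]
          congr 1
          abel
        rw [← e]; exact hs
      have hlen1 : u1.length < n := by
        have : u0.length = u1.length + 1 := by simpa using l1
        omega
      obtain ⟨u2, hu2⟩ := ih _ hlen1 u1 rfl r2 r h2
      refine ⟨u2 ++ [s, r], ?_⟩
      have s1 : BStar nb (u0 ++ [r]) (u1 ++ [s] ++ [r]) := hu1.append [r]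
      have s2 : BStar nb (u1 ++ [s] ++ [r]) (u2 ++ [r] ++ [s] ++ [r]) :=
        (hu2.append [s]).append [r]
      have s3 : BMove nb (u2 ++ [r, s, r] ++ []) (u2 ++ [s, r, s] ++ []) :=
        BMove.braid u2 [] r s hrs hadj
      have e1 : u2 ++ [r] ++ [s] ++ [r] = u2 ++ [r, s, r] ++ [] := by simp
      have e2 : u2 ++ [s, r] ++ [s] = u2 ++ [s, r, s] ++ [] := by simp
      rw [e1] at s2
      rw [e2]
      exact (s1.trans s2).tail s3
    · rw [wact_append] at hs
      change wact nb u0 (refl nb r (sr s)) ≤ 0 at hs
      rw [refl_nadj hrs hadj] at hs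
      obtain ⟨u1, hu1⟩ := ih _ hlen u0 rfl hr0 s hs
      refine ⟨u1 ++ [r], ?_⟩
      have s1 : BStar nb (u0 ++ [r]) (u1 ++ [s] ++ [r]) := hu1.append [r]
      have hadj' : r ∉ nb s := fun h => hadj (hsymm _ _ h)
      have s3 : BMove nb (u1 ++ [s, r] ++ []) (u1 ++ [r, s] ++ []) :=
        BMove.comm u1 [] s r (Ne.symm hrs) hadj'
      have e1 : u1 ++ [s] ++ [r] = u1 ++ [s, r] ++ [] := by simp
      have e2 : u1 ++ [r] ++ [s] = u1 ++ [r, s] ++ [] := by simp
      rw [e1] at s1
      rw [e2]
      exact s1.tail s3

end

end Pool.Agent.H15.TSys
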