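import Pool.Agent.H15.TSys.Moves
import Pool.Agent.H15.TSys.Length

/-!
# Words of letters can be shortened without changing the corner
-/

namespace Pool.Agent.H15.TSys

open Finset

section
variable {I : Type} [DecidableEq I] {K : Type*} [Field K] {nb : I → Finset I} {P : Cone K}

/-- Two words of letters with the same effect. -/
def Equ (nb : I → Finset I) (P : Cone K) (v : I → K) (xs xs' : List (Letter I K)) : Prop :=
  PosW P xs' ∧ ends v xs = ends v xs' ∧ ∀ ys, PosW P ys → pass nb v xs ys = pass nb v xs' ys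

theorem PosW.append {xs ys : List (Letter I K)} (h : PosW P xs) (h' : PosW P ys) :
    PosW P (xs ++ ys) := by
  intro η hη
  rw [List.mem_append] at hη
  rcases hη with hη | hη
  · exact h η hη
  · exact h' η hη

theorem Loc.equ (hirr : ∀ i, i ∉ nb i) (hsymm : ∀ i j, i ∈ nb j → j ∈ nb i)
    {v : I → K} (hv : PosV P v) {p L L' q : List (Letter I K)} (hL : Loc nb (ends v p) L L')
    (h : PosW P (p ++ L ++ q)) : Equ nb P v (p ++ L ++ q) (p ++ L' ++ q) := by
  have hp : PosW P p := fun η hη => h η (by simp [hη])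
  have hLp : PosW P L := fun η hη => h η (by simp [hη])
  have hq : PosW P q := fun η hη => h η (by simp [hη])
  have hvp := ends_pos hv hp
  have hL' := hL.pos hvp hLp
  refine ⟨(hp.append hL').append hq, ?_, fun ys hy => ?_⟩
  · simp only [ends_append, hL.ends_eq]
  · simp only [pass_append, ends_append, hL.ends_eq]
    rw [hL.pass_eq hirr hsymm hvp hLp (pass_pos hv hp hy)]

theorem WMove.lift (hirr : ∀ i, i ∉ nb i) (hsymm : ∀ i j, i ∈ nb j → j ∈ nb i)
    {v : I → K} (hv : PosV P v) {xs : List (Letter I K)} (hx : PosW P xs) {u' : List I}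
    (h : WMove nb (xs.map Letter.nd) u') :
    ∃ xs', xs'.map Letter.nd = u' ∧ Equ nb P v xs xs' := by
  generalize hu : xs.map Letter.nd = u at h
  cases h with
  | b h =>
    cases h with
    | comm p q w w' h h1 =>
      rw [List.map_eq_append_iff] at hu
      obtain ⟨l, xq, rfl, hl, rfl⟩ := hu
      rw [List.map_eq_append_iff] at hl
      obtain ⟨xp, xL, rfl, rfl, hL⟩ := hl
      rw [List.map_eq_cons_iff] at hL
      obtain ⟨a, t, rfl, rfl, hL⟩ := hL
      rw [List.map_eq_cons_iff] at hL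
      obtain ⟨b, t, rfl, rfl, hL⟩ := hL
      rw [List.map_eq_nil_iff] at hL
      subst hL
      have hl := Loc.comm (nb := nb) (v := ends v xp) a.nd b.nd a.c a.t b.c b.t h h1
      exact ⟨_, by simp, Loc.equ hirr hsymm hv hl hx⟩
    | braid p q w w' h h1 =>
      rw [List.map_eq_append_iff] at hu
      obtain ⟨l, xq, rfl, hl, rfl⟩ := hu
      rw [List.map_eq_append_iff] at hl
      obtain ⟨xp, xL, rfl, rfl, hL⟩ := hl
      rw [List.map_eq_cons_iff] at hL
      obtain ⟨a, t, rfl, rfl, hL⟩ := hL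
      rw [List.map_eq_cons_iff] at hL
      obtain ⟨b, t, rfl, rfl, hL⟩ := hL
      rw [List.map_eq_cons_iff] at hL
      obtain ⟨c, t, rfl, hc, hL⟩ := hL
      rw [List.map_eq_nil_iff] at hL
      subst hL
      have hl := Loc.braid (nb := nb) (v := ends v xp) a.nd b.nd a.c a.t b.c b.t c.c c.t h h1
      have hcc : c = ⟨a.nd, c.c, c.t⟩ := by rw [← hc]
      rw [← hcc] at hl
      exact ⟨_, by simp, Loc.equ hirr hsymm hv hl hx⟩
  | merge p q w =>
    rw [List.map_eq_append_iff] at hu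
    obtain ⟨l, xq, rfl, hl, rfl⟩ := hu
    rw [List.map_eq_append_iff] at hl
    obtain ⟨xp, xL, rfl, rfl, hL⟩ := hl
    rw [List.map_eq_cons_iff] at hL
    obtain ⟨a, t, rfl, rfl, hL⟩ := hL
    rw [List.map_eq_cons_iff] at hL
    obtain ⟨b, t, rfl, hb, hL⟩ := hL
    rw [List.map_eq_nil_iff] at hL
    subst hL
    have hl := Loc.merge (nb := nb) (v := ends v xp) a.nd a.c a.t b.c b.t
    have hbb : b = ⟨a.nd, b.c, b.t⟩ := by rw [← hb]
    rw [← hbb] at hl
    exact ⟨_, by simp, Loc.equ hirr hsymm hv hl hx⟩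

theorem WStar.lift (hirr : ∀ i, i ∉ nb i) (hsymm : ∀ i j, i ∈ nb j → j ∈ nb i)
    {v : I → K} (hv : PosV P v) {xs : List (Letter I K)} (hx : PosW P xs) {u' : List I}
    (h : WStar nb (xs.map Letter.nd) u') :
    ∃ xs', xs'.map Letter.nd = u' ∧ Equ nb P v xs xs' := by
  induction h with
  | refl => exact ⟨xs, rfl, hx, rfl, fun _ _ => rfl⟩
  | tail _ h ih =>
    obtain ⟨xs1, h1, h2, h3, h4⟩ := ih
    rw [← h1] at h
    obtain ⟨xs2, h5, h6, h7, h8⟩ := h.lift hirr hsymm hv h2
    exact ⟨xs2, h5, h6, h3.trans h7, fun ys hy => (h4 ys hy).trans (h8 ys hy)⟩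

variable [Fintype I]

/-- Every positive word has a positive word of bounded length with the same corners. -/
theorem exists_short_word (hirr : ∀ i, i ∉ nb i) (hsymm : ∀ i j, i ∈ nb j → j ∈ nb i)
    (f : I → ℕ) (hf : ∀ i, ∑ j ∈ nb i, f j < 2 * f i) :
    ∃ B : ℕ, ∀ (v : I → K), PosV P v → ∀ xs : List (Letter I K), PosW P xs →
      ∃ xs', PosW P xs' ∧ xs'.length ≤ B ∧
        ∀ ys, PosW P ys → corner nb v xs ys = corner nb v xs' ys := by
  obtain ⟨B, hB⟩ := exists_short hirr hsymm f hf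
  refine ⟨B, fun v hv xs hx => ?_⟩
  obtain ⟨u', h1, h2⟩ := hB (xs.map Letter.nd)
  obtain ⟨xs', h3, h4, h5, h6⟩ := h1.lift hirr hsymm hv hx
  refine ⟨xs', h4, ?_, fun ys hy => ?_⟩
  · rw [← h3, List.length_map] at h2; exact h2
  · unfold corner
    rw [h5, h6 ys hy]

end

end Pool.Agent.H15.TSys
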